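import Pool.Agent.Lib.MP_b9166b_al.An.Per
import Pool.Agent.Lib.MP_b9166b_al.Rg.Free
import Pool.Agent.Lib.MP_b9166b_al.Rg.Prime
import Pool.Agent.Lib.MP_b9166b_al.Deg
import Pool.Agent.Lib.MP_b9166b_al.Germ

/-!
# MP_b9166b_al, ALT-NIL: norms of independent elements
-/

set_option autoImplicit false

namespace Pool.Agent.Lib.MP_b9166b_al.An

open Equiv Equiv.Perm Rg

/-- independent elements of order `r` -/
theorem card_closure_ge {U ι : Type} [Group U] [Finite U] [DecidableEq ι] {r : ℕ} (hr : r.Prime)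
    {w : ι → U} (hc : ∀ i j, Commute (w i) (w j)) (hw : ∀ i, w i ^ r = 1)
    (hind : ∀ j, w j ∉ Subgroup.closure (w '' {i | i ≠ j})) (s : Finset ι) :
    r ^ s.card ≤ Nat.card (Subgroup.closure (w '' (s : Set ι))) := by
  have hrF : Fact r.Prime := ⟨hr⟩
  induction s using Finset.induction_on with
  | empty =>
    rw [Finset.card_empty, pow_zero]
    exact Nat.card_pos
  | insert j s hj ih =>
    set A := Subgroup.closure (w '' (s : Set ι)) with hA
    set B := Subgroup.closure (w '' ((insert j s : Finset ι) : Set ι)) with hB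
    have hAB : A ≤ B := Subgroup.closure_mono (Set.image_mono (by
      rw [Finset.coe_insert]
      exact Set.subset_insert _ _))
    have hjB : w j ∈ B := Subgroup.subset_closure ⟨j, by simp, rfl⟩
    have hjA : w j ∉ A := by
      intro h
      apply hind j
      refine Subgroup.closure_mono (Set.image_mono ?_) h
      rintro i hi rfl
      exact hj hi
    have hcen : B ≤ Subgroup.centralizer (B : Set U) := by
      have h1 : w '' ((insert j s : Finset ι) : Set ι) ⊆
          Subgroup.centralizer (w '' ((insert j s : Finset ι) : Set ι)) := by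
        rintro _ ⟨i, -, rfl⟩
        rw [SetLike.mem_coe, Subgroup.mem_centralizer_iff]
        rintro _ ⟨i', -, rfl⟩
        exact (hc i' i).eq
      have h2 : B ≤ Subgroup.centralizer (w '' ((insert j s : Finset ι) : Set ι)) := by
        rw [hB, Subgroup.closure_le]
        exact h1
      rw [hB, Subgroup.centralizer_closure, ← hB]
      exact h2
    have hpow : ∀ b ∈ B, b ^ r = 1 := by
      intro b hb
      rw [hB] at hb
      induction hb using Subgroup.closure_induction with
      | mem x hx =>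
        obtain ⟨i, -, rfl⟩ := hx
        exact hw i
      | one => exact one_pow r
      | mul a b ha hb iha ihb =>
        have h1 : Commute a b := (Subgroup.mem_centralizer_iff.1 (hcen hb)) a ha
        rw [h1.mul_pow, iha, ihb, one_mul]
      | inv a ha iha => rw [inv_pow, iha, inv_one]
    have hp : IsPGroup r B := fun b => ⟨1, by
      rw [pow_one]
      exact Subtype.ext (hpow b b.2)⟩
    obtain ⟨n, hn⟩ := IsPGroup.iff_card.1 hp
    have h1 : Nat.card A * A.relIndex B = Nat.card B := by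
      rw [← Subgroup.relIndex_bot_left, ← Subgroup.relIndex_bot_left]
      exact Subgroup.relIndex_mul_relIndex _ _ _ bot_le hAB
    have h2 : A.relIndex B ≠ 1 := by
      rw [Ne, Subgroup.relIndex_eq_one]
      exact fun h => hjA (h hjB)
    have h3 : A.relIndex B ∣ r ^ n := by
      rw [← hn, ← h1]
      exact dvd_mul_left _ _
    obtain ⟨i, -, hi⟩ := (Nat.dvd_prime_pow hr).1 h3
    have h4 : r ≤ A.relIndex B := by
      rw [hi]
      have h5 : i ≠ 0 := by
        rintro rfl
        exact h2 hi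
      exact Nat.le_self_pow h5 r
    rw [Finset.card_insert_of_notMem hj, pow_succ, ← h1]
    exact Nat.mul_le_mul ih h4

section Core

variable {G U K V : Type} [Group G] [Group U] [Finite U] [Field K] [AddCommGroup V] [Module K V]

/-- commutators with one element of the centralizer -/
theorem core {j : U →* G} (hj : Function.Injective j) {x g : U}
    {x' : G} (hx' : j x = x') {g' : Subgroup.centralizer ({x'} : Set G)} (hg' : j g = g')
    (ρ : Subgroup.centralizer ({x'} : Set G) →* (V →ₗ[K] V)ˣ) (hρ : Function.Injective ρ)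
    {d : ℕ} (hd : Deg (ρ g').val d) {r : ℕ} (hrp : r.Prime) (hrK : (r : K) ≠ 0)
    (W : Subgroup U) (hWx : ∀ a ∈ W, Commute a x) (hWc : ∀ a ∈ W, ∀ b ∈ W, a * b = b * a)
    (hWr : ∀ a ∈ W, a ^ r = 1) (hWg : ∀ a ∈ W, ∀ b ∈ W, Commute (g * a * g⁻¹) b)
    (hWi : ∀ a ∈ W, g * a * g⁻¹ = a → a = 1) : Nat.card W ≤ r ^ (2 * d) := by
  have hcom : ∀ a ∈ W, j a ∈ Subgroup.centralizer ({x'} : Set G) := by
    intro a ha
    rw [Subgroup.mem_centralizer_singleton_iff, ← hx', ← map_mul, ← map_mul, (hWx a ha).eq]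
  let E : Subgroup U := W
  let inst : CommGroup W := { (inferInstance : Group W) with
    mul_comm := fun a b => Subtype.ext (hWc a a.2 b b.2) }
  let κ : W →* Subgroup.centralizer ({x'} : Set G) := {
    toFun := fun a => g' * ⟨j a, hcom a a.2⟩ * g'⁻¹ * ⟨j a, hcom a a.2⟩⁻¹
    map_one' := by
      apply Subtype.ext
      change (g' : G) * j ((1 : W) : U) * (g' : G)⁻¹ * (j ((1 : W) : U))⁻¹ = 1
      rw [Subgroup.coe_one, map_one]
      group
    map_mul' := fun a b => by
      apply Subtype.ext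
      change (g' : G) * j ((a : U) * b) * (g' : G)⁻¹ * (j ((a : U) * b))⁻¹ =
        ((g' : G) * j a * (g' : G)⁻¹ * (j a)⁻¹) * ((g' : G) * j b * (g' : G)⁻¹ * (j b)⁻¹)
      rw [← hg', ← map_inv, ← map_inv, ← map_inv, ← map_inv, ← map_mul, ← map_mul, ← map_mul,
        ← map_mul, ← map_mul, ← map_mul, ← map_mul, ← map_mul, ← map_mul, ← map_mul]
      congr 1
      have h1 : Commute (g * b * g⁻¹) (a : U)⁻¹ := (hWg b b.2 a a.2).inv_right
      have h2 : (b : U)⁻¹ * (a : U)⁻¹ = (a : U)⁻¹ * (b : U)⁻¹ := by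
        rw [← mul_inv_rev, ← mul_inv_rev, hWc a a.2 b b.2]
      calc g * (a * b) * g⁻¹ * ((a : U) * b)⁻¹
          = (g * a * g⁻¹) * ((g * b * g⁻¹) * ((b : U)⁻¹ * (a : U)⁻¹)) := by group
        _ = (g * a * g⁻¹) * (((g * b * g⁻¹) * (a : U)⁻¹) * (b : U)⁻¹) := by rw [h2]; group
        _ = (g * a * g⁻¹) * (((a : U)⁻¹ * (g * b * g⁻¹)) * (b : U)⁻¹) := by rw [h1.eq]
        _ = g * a * g⁻¹ * (a : U)⁻¹ * (g * b * g⁻¹ * (b : U)⁻¹) := by group }
  have hκ : Function.Injective κ := by
    rw [injective_iff_map_eq_one]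
    intro a ha
    have h1 : (g' : G) * j a * (g' : G)⁻¹ * (j a)⁻¹ = 1 := congrArg Subtype.val ha
    rw [mul_inv_eq_one, ← hg', ← map_inv, ← map_mul, ← map_mul] at h1
    exact Subtype.ext (hWi a a.2 (hj h1))
  have hdeg : ∀ a : W, Deg ((ρ.comp κ) a).val (2 * d) := by
    intro a
    have h1 : (ρ.comp κ) a = ρ g' * ρ ⟨j a, hcom a a.2⟩ * (ρ g')⁻¹ * (ρ ⟨j a, hcom a a.2⟩)⁻¹ := by
      rw [MonoidHom.comp_apply]
      change ρ (g' * ⟨j a, hcom a a.2⟩ * g'⁻¹ * ⟨j a, hcom a a.2⟩⁻¹) = _
      rw [map_mul, map_mul, map_mul, map_inv, map_inv]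
    rw [h1]
    exact hd.comm
  exact Rg.card_le_pow (F := K) hrp hrK (D := 2 * d) (fun a => Subtype.ext (hWr a a.2))
    (ρ.comp κ) (hρ.comp hκ) (fun a => (hdeg a).1) (fun a => (hdeg a).2)

end Core

section Norms

variable {U : Type} [Group U]

theorem nm_mem {x u : U} {n : ℕ} {S : Subgroup U} (h : ∀ a < n, x ^ a * u * (x ^ a)⁻¹ ∈ S) :
    nm x u n ∈ S := by
  induction n with
  | zero => exact S.one_mem
  | succ n ih => exact S.mul_mem (ih fun a ha => h a (by omega)) (h n (by omega))

theorem nm_commute {x u z : U} {n : ℕ} (h : ∀ a < n, Commute z (x ^ a * u * (x ^ a)⁻¹)) :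
    Commute z (nm x u n) := by
  induction n with
  | zero => exact Commute.one_right z
  | succ n ih => exact (ih fun a ha => h a (by omega)).mul_right (h n (by omega))

theorem nm_pow {x u : U} {n r : ℕ} (hu : u ^ r = 1)
    (h : ∀ a < n, ∀ b < n, Commute (x ^ a * u * (x ^ a)⁻¹) (x ^ b * u * (x ^ b)⁻¹)) :
    nm x u n ^ r = 1 := by
  induction n with
  | zero => exact one_pow r
  | succ n ih =>
    have h1 : Commute (nm x u n) (x ^ n * u * (x ^ n)⁻¹) :=
      (nm_commute fun a ha => h n (by omega) a (by omega)).symm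
    rw [nm, h1.mul_pow, ih fun a ha b hb => h a (by omega) b (by omega), conj_pow, hu, one_mul,
      mul_one, mul_inv_cancel]

theorem nm_comm_x {x u : U} {l : ℕ} (hxl : Commute (x ^ l) u)
    (h : ∀ a < l, Commute u (x ^ a * u * (x ^ a)⁻¹)) : Commute (nm x u l) x := by
  have h1 := nm_conj x u l
  have h2 : nm x u (l + 1) = u * nm x u l := by
    rw [nm, hxl.eq, mul_inv_cancel_right]
    exact ((nm_commute h).eq).symm
  rw [h2] at h1
  have h3 := mul_left_cancel h1
  exact (mul_inv_eq_iff_eq_mul.1 h3).symm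

end Norms

end Pool.Agent.Lib.MP_b9166b_al.An
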