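import Pool.Agent.Lib.MP_b9166b_al.Germ

/-!
# MP_b9166b_al, ALT-NIL: covers and the growth of the degrees
-/

set_option autoImplicit false

namespace Pool.Agent.Lib.MP_b9166b_al.An

open Equiv Equiv.Perm Filter

/-- a finite subgroup `H` with a homomorphism onto an alternating group with nilpotent kernel -/
structure Cv (G : Type) [Group G] where
  H : Subgroup G
  fin : Finite H
  n : ℕ
  π : H →* Perm (Fin n)
  range : π.range = alternatingGroup (Fin n)
  nil : Group.IsNilpotent π.ker

namespace Cv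

variable {G : Type} [Group G] (c : Cv G)

instance : Finite c.H := c.fin

/-- the set `S` lies in `H`, and `π` maps no element `≠ 1` of `S` to `1` -/
def Cov (S : Finset G) : Prop := ∀ s ∈ S, ∃ hs : s ∈ c.H, s ≠ 1 → c.π ⟨s, hs⟩ ≠ 1

variable {c}

theorem Cov.mono {S S' : Finset G} (h : c.Cov S') (hS : S ⊆ S') : c.Cov S :=
  fun s hs => h s (hS hs)

theorem Cov.mem {S : Finset G} (h : c.Cov S) {s : G} (hs : s ∈ S) : s ∈ c.H := (h s hs).1

variable (c)

open Classical in
/-- the permutation induced by `g`, and `1` if `g` is not in `H` -/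
noncomputable def p (g : G) : Perm (Fin c.n) := if h : g ∈ c.H then c.π ⟨g, h⟩ else 1

theorem p_coe (g : c.H) : c.p g = c.π g := dif_pos g.2

theorem p_mem {g : G} (hg : g ∈ c.H) : c.p g = c.π ⟨g, hg⟩ := dif_pos hg

theorem p_one : c.p 1 = 1 := by
  rw [c.p_mem c.H.one_mem]
  exact map_one c.π

theorem p_mul {g h : G} (hg : g ∈ c.H) (hh : h ∈ c.H) : c.p (g * h) = c.p g * c.p h := by
  rw [c.p_mem hg, c.p_mem hh, c.p_mem (c.H.mul_mem hg hh), ← map_mul]
  rfl

theorem p_inv {g : G} (hg : g ∈ c.H) : c.p g⁻¹ = (c.p g)⁻¹ := by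
  rw [c.p_mem hg, c.p_mem (c.H.inv_mem hg), ← map_inv]
  rfl

theorem p_ne {S : Finset G} (h : c.Cov S) {g : G} (hg : g ∈ S) (hg1 : g ≠ 1) : c.p g ≠ 1 := by
  obtain ⟨h1, h2⟩ := h g hg
  rw [c.p_mem h1]
  exact h2 hg1

/-- `H` is a finite set -/
theorem finite_coe : (c.H : Set G).Finite := Set.finite_coe_iff.1 c.fin

/-- the elements of `H` -/
noncomputable def toFinset : Finset G := c.finite_coe.toFinset

theorem mem_toFinset {g : G} : g ∈ c.toFinset ↔ g ∈ c.H := by
  rw [toFinset, Set.Finite.mem_toFinset, SetLike.mem_coe]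

/-- a cover of `H` contains `H` and acts faithfully -/
theorem le_of_cov {c' : Cv G} (h : c'.Cov c.toFinset) :
    ∃ hle : c.H ≤ c'.H, Function.Injective (c'.π.comp (Subgroup.inclusion hle)) := by
  have hle : c.H ≤ c'.H := fun g hg => h.mem (c.mem_toFinset.2 hg)
  refine ⟨hle, ?_⟩
  rw [injective_iff_map_eq_one]
  intro g hg
  by_contra hne
  obtain ⟨h1, h2⟩ := h g (c.mem_toFinset.2 g.2)
  exact h2 (fun h3 => hne (Subtype.ext h3)) hg

end Cv

/-- if `G` is not a group of finitary permutations, then the degrees tend to infinity -/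
theorem growth {G : Type} [Group G] (hs : IsSimpleGroup G) (hG : ¬ FinPerm G) {y : G}
    (hy : y ≠ 1) (B : ℕ) :
    ∃ S : Finset G, ∀ c : Cv G, c.Cov S → B < (c.p y).support.card := by
  classical
  by_contra hcon
  push Not at hcon
  apply hG
  choose cv hcv hB using hcon
  set U := Ultrafilter.of (atTop : Filter (Finset G)) with hU
  have hU1 : (U : Filter (Finset G)) ≤ atTop := Ultrafilter.of_le _
  have hmem : ∀ g : G, ∀ᶠ T in (U : Filter (Finset G)), g ∈ T := by
    intro g
    refine hU1 ?_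
    filter_upwards [Filter.eventually_ge_atTop ({g} : Finset G)] with T hT
    exact hT (Finset.mem_singleton_self g)
  set N : Subgroup G :=
    { carrier := {g | ∃ B : ℕ, ∀ᶠ T in (U : Filter (Finset G)), ((cv T).p g).support.card ≤ B}
      one_mem' := by
        refine ⟨0, Filter.Eventually.of_forall fun T => ?_⟩
        rw [Cv.p_one]
        simp
      mul_mem' := by
        rintro a b ⟨A, hA⟩ ⟨B, hB⟩
        refine ⟨A + B, ?_⟩
        filter_upwards [hA, hB, hmem a, hmem b] with T h1 h2 h3 h4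
        rw [Cv.p_mul _ ((hcv T).mem h3) ((hcv T).mem h4)]
        refine (Finset.card_le_card (Perm.support_mul_le _ _)).trans ?_
        refine (Finset.card_union_le _ _).trans ?_
        omega
      inv_mem' := by
        rintro a ⟨A, hA⟩
        refine ⟨A, ?_⟩
        filter_upwards [hA, hmem a] with T h1 h3
        rw [Cv.p_inv _ ((hcv T).mem h3), Perm.support_inv]
        exact h1 } with hN
  have hNn : N.Normal := by
    refine ⟨fun a ha g => ?_⟩
    obtain ⟨A, hA⟩ := ha
    refine ⟨A, ?_⟩
    filter_upwards [hA, hmem a, hmem g] with T h1 h3 h4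
    have hg := (hcv T).mem h4
    have ha' := (hcv T).mem h3
    have hga : g * a ∈ (cv T).H := (cv T).H.mul_mem hg ha'
    have hgi : g⁻¹ ∈ (cv T).H := (cv T).H.inv_mem hg
    rw [Cv.p_mul _ hga hgi, Cv.p_mul _ hg ha', Cv.p_inv _ hg, Perm.card_support_conj]
    exact h1
  have hNtop : N = ⊤ := by
    rcases hs.eq_bot_or_eq_top_of_normal N hNn with h1 | h1
    · exfalso
      apply hy
      rw [← Subgroup.mem_bot, ← h1]
      exact ⟨B, Filter.Eventually.of_forall hB⟩
    · exact h1
  refine finPerm_of_family U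
    (fun T g => Perm.viaEmbeddingHom Fin.valEmbedding ((cv T).p g)) ?_ ?_ ?_
  · intro a b
    filter_upwards [hmem a, hmem b] with T h3 h4
    rw [Cv.p_mul _ ((hcv T).mem h3) ((hcv T).mem h4), map_mul]
  · intro g hg
    filter_upwards [hmem g] with T h3 h4
    apply (cv T).p_ne (hcv T) h3 hg
    apply Perm.viaEmbeddingHom_injective Fin.valEmbedding
    rw [h4, map_one]
  · intro g
    have hg : g ∈ N := by
      rw [hNtop]
      exact Subgroup.mem_top g
    obtain ⟨A, hA⟩ := hg
    refine ⟨A, ?_⟩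
    filter_upwards [hA] with T h1
    refine ⟨((cv T).p g).support.map Fin.valEmbedding, ?_, fun k hk => ?_⟩
    · rw [Finset.card_map]
      exact h1
    · rw [Perm.viaEmbeddingHom_apply]
      by_cases hkr : k ∈ Set.range (Fin.valEmbedding : Fin (cv T).n ↪ ℕ)
      · obtain ⟨a, rfl⟩ := hkr
        rw [Perm.viaEmbedding_apply]
        have h2 : a ∉ ((cv T).p g).support := fun h3 =>
          hk (Finset.mem_map_of_mem _ h3)
        rw [Perm.notMem_support.1 h2]
      · exact Perm.viaEmbedding_apply_of_notMem _ _ _ hkr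

end Pool.Agent.Lib.MP_b9166b_al.An
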