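import Pool.Agent.Lib.MP_b9166b_al.An.Wk
import Pool.Agent.Lib.MP_b9166b_al.An.Cv

/-!
# MP_b9166b_al, ALT-NIL: the periods of `x` and good points in the fibres
-/

set_option autoImplicit false

namespace Pool.Agent.Lib.MP_b9166b_al.An

open Equiv Equiv.Perm

variable {G : Type} [Group G]

/-- the properties of the good covers -/
structure Good (𝒢 : Cv G → Prop) : Prop where
  ex : ∀ S : Finset G, ∃ c, 𝒢 c ∧ c.Cov S
  big : ∀ c, 𝒢 c → 6 ≤ c.n
  nat : ∀ c c' : Cv G, 𝒢 c → 𝒢 c' → ∀ h : c.H ≤ c'.H,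
    Function.Injective (c'.π.comp (Subgroup.inclusion h)) →
    Nat2 c.π (c'.π.comp (Subgroup.inclusion h))
  grow : ∀ z : G, z ≠ 1 → ∀ m : ℕ, ∃ S : Finset G, ∀ c : Cv G, c.Cov S →
    m < (c.p z).support.card

/-- the number of points of period `l` -/
noncomputable def cnt (c : Cv G) (x : G) (l : ℕ) : ℕ :=
  Nat.card {ω : Fin c.n // Function.minimalPeriod (c.p x) ω = l}

theorem card_sub_le {n : ℕ} (f : Fin n → ℕ) (Q : Fin n → Prop) (s : Finset ℕ)
    (h : ∀ ω, Q ω → f ω ∈ s) : Nat.card {ω // Q ω} ≤ ∑ k ∈ s, Nat.card {ω // f ω = k} := by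
  classical
  rw [Nat.card_eq_fintype_card, Fintype.card_subtype]
  have h1 : (Finset.univ.filter Q) ⊆ s.biUnion fun k => Finset.univ.filter fun ω => f ω = k := by
    intro ω hω
    rw [Finset.mem_filter] at hω
    rw [Finset.mem_biUnion]
    exact ⟨f ω, h ω hω.2, by simp⟩
  refine (Finset.card_le_card h1).trans (Finset.card_biUnion_le.trans ?_)
  refine le_of_eq (Finset.sum_congr rfl fun k _ => ?_)
  rw [Nat.card_eq_fintype_card, Fintype.card_subtype]

theorem period_le (c : Cv G) {x : G} (hx : x ∈ c.H) (ω : Fin c.n) :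
    0 < Function.minimalPeriod (c.p x) ω ∧ Function.minimalPeriod (c.p x) ω ≤ orderOf x := by
  have h1 : orderOf (⟨x, hx⟩ : c.H) = orderOf x := Subgroup.orderOf_mk x hx
  have h0 : 0 < orderOf x := by
    rw [← h1]
    exact orderOf_pos _
  have h2 : Function.IsPeriodicPt (c.p x) (orderOf x) ω := by
    change (c.p x)^[_] ω = ω
    rw [Equiv.Perm.iterate_eq_pow, c.p_mem hx, ← map_pow, ← h1, pow_orderOf_eq_one, map_one,
      Perm.one_apply]
  exact ⟨h2.minimalPeriod_pos h0, h2.minimalPeriod_le h0⟩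

/-- the largest period which occurs often -/
theorem exists_period {𝒢 : Cv G → Prop} (hG : Good 𝒢) (hne : ∃ z : G, z ≠ 1) (x : G) :
    ∃ (l B : ℕ) (S₂ : Finset G), 0 < l ∧ x ∈ S₂ ∧
      (∀ (S : Finset G) (m : ℕ), ∃ c, 𝒢 c ∧ c.Cov S ∧ m ≤ cnt c x l) ∧
      ∀ c, 𝒢 c → c.Cov S₂ →
        Nat.card {ω : Fin c.n // l < Function.minimalPeriod (c.p x) ω} ≤ B := by
  classical
  set o := orderOf x with ho
  let P : ℕ → Prop := fun l => 0 < l ∧
    ∀ (S : Finset G) (m : ℕ), ∃ c, 𝒢 c ∧ c.Cov S ∧ m ≤ cnt c x l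
  have hP : ∀ l, ∃ (S : Finset G) (m : ℕ), 0 < l → ¬ P l → ∀ c, 𝒢 c → c.Cov S →
      cnt c x l ≤ m := by
    intro l
    by_cases hl : 0 < l
    · by_cases hPl : P l
      · exact ⟨∅, 0, fun _ h => absurd hPl h⟩
      · have h1 : ¬ ∀ (S : Finset G) (m : ℕ), ∃ c, 𝒢 c ∧ c.Cov S ∧ m ≤ cnt c x l :=
          fun h => hPl ⟨hl, h⟩
        push Not at h1
        obtain ⟨S, m, h2⟩ := h1
        exact ⟨S, m, fun _ _ c hc hS => (h2 c hc hS).le⟩
    · exact ⟨∅, 0, fun h => absurd h hl⟩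
  choose Sf mf hf using hP
  have hex : ∃ l ≤ o, P l := by
    by_contra hcon
    push Not at hcon
    obtain ⟨z, hz⟩ := hne
    obtain ⟨Sz, hSz⟩ := hG.grow z hz (∑ k ∈ Finset.Icc 1 o, mf k)
    obtain ⟨c, hc, hcov⟩ := hG.ex ({x} ∪ Sz ∪ (Finset.Icc 1 o).biUnion Sf)
    have hcx : x ∈ c.H := hcov.mem (by simp)
    have h1 := hSz c (hcov.mono (by
      intro g hg
      simp only [Finset.mem_union]
      exact Or.inl (Or.inr hg)))
    have h2 := card_sub_le (fun ω => Function.minimalPeriod (c.p x) ω) (fun _ => True)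
      (Finset.Icc 1 o) (fun ω _ => by
        rw [Finset.mem_Icc]
        exact period_le c hcx ω)
    have h3 : Nat.card {ω : Fin c.n // True} = c.n := by
      rw [Nat.card_eq_fintype_card, Fintype.card_subtype_true, Fintype.card_fin]
    have h4 : ∑ k ∈ Finset.Icc 1 o, Nat.card {ω : Fin c.n //
        Function.minimalPeriod (c.p x) ω = k} ≤ ∑ k ∈ Finset.Icc 1 o, mf k := by
      apply Finset.sum_le_sum
      intro k hk
      rw [Finset.mem_Icc] at hk
      refine hf k hk.1 (hcon k hk.2) c hc (hcov.mono ?_)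
      intro g hg
      simp only [Finset.mem_union]
      exact Or.inr (Finset.mem_biUnion.2 ⟨k, Finset.mem_Icc.2 hk, hg⟩)
    have h5 : (c.p z).support.card ≤ c.n := by
      have h6 := Finset.card_le_univ (c.p z).support
      rwa [Fintype.card_fin] at h6
    rw [h3] at h2
    omega
  obtain ⟨l₀, hl₀, hPl₀⟩ := hex
  have hPl := Nat.findGreatest_spec (P := P) hl₀ hPl₀
  set l := Nat.findGreatest P o with hl
  refine ⟨l, ∑ k ∈ Finset.Ioc l o, mf k, {x} ∪ (Finset.Ioc l o).biUnion Sf, hPl.1, by simp,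
    hPl.2, ?_⟩
  intro c hc hcov
  have hcx : x ∈ c.H := hcov.mem (by simp)
  refine (card_sub_le (fun ω => Function.minimalPeriod (c.p x) ω) _ (Finset.Ioc l o)
    (fun ω hω => by
      rw [Finset.mem_Ioc]
      exact ⟨hω, (period_le c hcx ω).2⟩)).trans ?_
  apply Finset.sum_le_sum
  intro k hk
  have hk' := Finset.mem_Ioc.1 hk
  refine hf k (by omega) (Nat.findGreatest_is_greatest hk'.1 hk'.2) c hc (hcov.mono ?_)
  intro g hg
  simp only [Finset.mem_union]
  exact Or.inr (Finset.mem_biUnion.2 ⟨k, hk, hg⟩)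

/-- large fibres -/
theorem exists_fib {𝒢 : Cv G → Prop} (hG : Good 𝒢) {c : Cv G} (hc : 𝒢 c) (ω : Fin c.n) (m : ℕ) :
    ∃ S : Finset G, ∀ c', 𝒢 c' → c'.Cov S → ∃ hle : c.H ≤ c'.H,
      Function.Injective (c'.π.comp (Subgroup.inclusion hle)) ∧
        m ≤ Nat.card {ψ // Ov c.π (c'.π.comp (Subgroup.inclusion hle)) ψ ω} := by
  classical
  have h6 : 6 ≤ Fintype.card (Fin c.n) := by
    rw [Fintype.card_fin]
    exact hG.big c hc
  obtain ⟨Δ, -, hΔ⟩ := Finset.exists_subset_card_eq (s := (Finset.univ : Finset (Fin c.n)))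
    (n := 5) (by rw [Finset.card_univ]; omega)
  obtain ⟨v, hv, -, hv1⟩ := exists_order c.range hΔ.ge Nat.prime_two (Or.inl rfl)
  obtain ⟨S, hS⟩ := hG.grow (v : G) (fun h => hv1 (Subtype.ext h)) (5 * m)
  refine ⟨S ∪ c.toFinset, fun c' hc' hcov => ?_⟩
  obtain ⟨hle, hinj⟩ := c.le_of_cov (hcov.mono Finset.subset_union_right)
  refine ⟨hle, hinj, ?_⟩
  have h1 := hS c' (hcov.mono Finset.subset_union_left)
  have h2 := card_fib (hG.nat c c' hc hc' hle hinj) c.range h6 hv ω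
  rw [hΔ] at h2
  have h3 : c'.p (v : G) = (c'.π.comp (Subgroup.inclusion hle)) v := c'.p_mem (hle v.2)
  rw [h3] at h1
  omega

theorem card_or {α : Type} [Finite α] (P Q : α → Prop) :
    Nat.card {a // P a ∨ Q a} ≤ Nat.card {a // P a} + Nat.card {a // Q a} := by
  classical
  have := Fintype.ofFinite α
  rw [Nat.card_eq_fintype_card, Nat.card_eq_fintype_card, Nat.card_eq_fintype_card,
    Fintype.card_subtype, Fintype.card_subtype, Fintype.card_subtype, Finset.filter_or]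
  exact Finset.card_union_le _ _

/-- many good points in a fibre -/
theorem exists_good {𝒢 : Cv G → Prop} (hG : Good 𝒢) {x : G} {l B : ℕ} {S₂ : Finset G}
    (hB : ∀ c, 𝒢 c → c.Cov S₂ →
        Nat.card {ω : Fin c.n // l < Function.minimalPeriod (c.p x) ω} ≤ B)
    {c : Cv G} (hc : 𝒢 c) {x₀ : c.H} (hx₀ : (x₀ : G) = x) {ω : Fin c.n}
    (hω : Function.minimalPeriod (c.π x₀) ω = l) (k : ℕ) :
    ∃ c' c'' : Cv G, 𝒢 c' ∧ 𝒢 c'' ∧ ∃ hle : c.H ≤ c'.H, ∃ hle' : c'.H ≤ c''.H,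
      Function.Injective (c'.π.comp (Subgroup.inclusion hle)) ∧
      Function.Injective (c''.π.comp (Subgroup.inclusion hle')) ∧
      k ≤ Nat.card {ψ // Ov c.π (c'.π.comp (Subgroup.inclusion hle)) ψ ω ∧
        Gd c'.π (c''.π.comp (Subgroup.inclusion hle')) (Subgroup.inclusion hle x₀) l ψ} := by
  classical
  obtain ⟨S, hS⟩ := exists_fib hG hc ω (k + 2 * B)
  obtain ⟨c', hc', hcov'⟩ := hG.ex (S ∪ S₂)
  obtain ⟨hle, hinj, hm⟩ := hS c' hc' (hcov'.mono Finset.subset_union_left)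
  obtain ⟨c'', hc'', hcov''⟩ := hG.ex (c'.toFinset ∪ S₂)
  obtain ⟨hle', hinj'⟩ := c'.le_of_cov (hcov''.mono Finset.subset_union_left)
  refine ⟨c', c'', hc', hc'', hle, hle', hinj, hinj', ?_⟩
  have h6 : 6 ≤ Fintype.card (Fin c.n) := by
    rw [Fintype.card_fin]
    exact hG.big c hc
  have h6' : 6 ≤ Fintype.card (Fin c'.n) := by
    rw [Fintype.card_fin]
    exact hG.big c' hc'
  set x₁ : c'.H := Subgroup.inclusion hle x₀ with hx₁
  have hx₁' : (x₁ : G) = x := hx₀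
  have hB' := hB c' hc' (hcov'.mono Finset.subset_union_right)
  have hB'' := hB c'' hc'' (hcov''.mono Finset.subset_union_right)
  have hp' : c'.p x = c'.π x₁ := by
    rw [← hx₁']
    exact c'.p_coe x₁
  have hp'' : c''.p x = (c''.π.comp (Subgroup.inclusion hle')) x₁ := by
    rw [← hx₁']
    exact c''.p_mem (hle' x₁.2)
  rw [hp'] at hB'
  rw [hp''] at hB''
  have hbad := card_bad c'.range h6' (x := x₁) (l := l) hB''
  have himp : ∀ ψ, Ov c.π (c'.π.comp (Subgroup.inclusion hle)) ψ ω →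
      ((Ov c.π (c'.π.comp (Subgroup.inclusion hle)) ψ ω ∧
        Gd c'.π (c''.π.comp (Subgroup.inclusion hle')) x₁ l ψ) ∨
        l < Function.minimalPeriod (c'.π x₁) ψ) ∨
        (Function.minimalPeriod (c'.π x₁) ψ = l ∧
          ¬ Gd c'.π (c''.π.comp (Subgroup.inclusion hle')) x₁ l ψ) := by
    intro ψ hψ
    have h2 := hψ.dvd c.range h6 x₀
    rw [hω] at h2
    have h3 := Nat.le_of_dvd (period_pos (π' := c'.π.comp (Subgroup.inclusion hle)) x₀ ψ) h2
    have h4 : Function.minimalPeriod ((c'.π.comp (Subgroup.inclusion hle)) x₀) ψ =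
        Function.minimalPeriod (c'.π x₁) ψ := rfl
    rw [h4] at h3
    rcases Nat.lt_or_eq_of_le h3 with h5 | h5
    · exact Or.inl (Or.inr h5)
    · by_cases h7 : Gd c'.π (c''.π.comp (Subgroup.inclusion hle')) x₁ l ψ
      · exact Or.inl (Or.inl ⟨hψ, h7⟩)
      · exact Or.inr ⟨h5.symm, h7⟩
  have h1 : Nat.card {ψ // Ov c.π (c'.π.comp (Subgroup.inclusion hle)) ψ ω} ≤
      Nat.card {ψ // ((Ov c.π (c'.π.comp (Subgroup.inclusion hle)) ψ ω ∧
        Gd c'.π (c''.π.comp (Subgroup.inclusion hle')) x₁ l ψ) ∨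
        l < Function.minimalPeriod (c'.π x₁) ψ) ∨
        (Function.minimalPeriod (c'.π x₁) ψ = l ∧
          ¬ Gd c'.π (c''.π.comp (Subgroup.inclusion hle')) x₁ l ψ)} :=
    Nat.card_le_card_of_injective (fun ψ => ⟨ψ.1, himp ψ.1 ψ.2⟩) (by
      intro ψ ψ' h
      have h2 := congrArg Subtype.val h
      exact Subtype.ext h2)
  have h2 := h1.trans (card_or _ _)
  have h3 := card_or (fun ψ => Ov c.π (c'.π.comp (Subgroup.inclusion hle)) ψ ω ∧
        Gd c'.π (c''.π.comp (Subgroup.inclusion hle')) x₁ l ψ)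
        (fun ψ => l < Function.minimalPeriod (c'.π x₁) ψ)
  omega

end Pool.Agent.Lib.MP_b9166b_al.An
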