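import Pool.Agent.Lib.MP_b9166b_al.Rg.BlkAlt
import Pool.Agent.Lib.MP_b9166b_al.Rg.BlkM

/-!
# MP_b9166b_al, ALT-NIL: an elementary abelian section on which the alternating group acts
-/

set_option autoImplicit false

namespace Pool.Agent.Lib.MP_b9166b_al.An

open Equiv Equiv.Perm Rg

open scoped IsMulCommutative

/-- a proper subgroup of a nilpotent group lies in a subgroup of prime index -/
theorem exists_prime_quot {N : Type} [Group N] [Finite N] (hnil : Group.IsNilpotent N)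
    {B : Subgroup N} (hB : B ≠ ⊤) : ∃ p : ℕ, p.Prime ∧ ∃ R : Subgroup N, R ≠ ⊤ ∧ B ≤ R ∧
      (∀ n, n ^ p ∈ R) ∧ ∀ n n', n * n' * n⁻¹ * n'⁻¹ ∈ R := by
  obtain ⟨C, hC, hBC⟩ := (eq_top_or_exists_le_coatom B).resolve_left hB
  have hCn : C.Normal := Subgroup.NormalizerCondition.normal_of_coatom C
    Group.normalizerCondition_of_isNilpotent hC
  have hnt : Nontrivial (N ⧸ C) := QuotientGroup.nontrivial_iff.2 hC.1
  have hcomm : commutator N ≤ C := by
    by_contra hcon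
    have h1 : C ⊔ commutator N = ⊤ := by
      apply hC.2
      refine lt_of_le_of_ne le_sup_left fun h => hcon ?_
      rw [h]
      exact le_sup_right
    have h2 : commutator (N ⧸ C) < ⊤ := Group.IsSolvable.commutator_lt_top_of_nontrivial _
    apply h2.ne
    have h3 : (commutator N).map (QuotientGroup.mk' C) = commutator (N ⧸ C) := by
      rw [commutator_def, commutator_def, Subgroup.map_commutator,
        Subgroup.map_top_of_surjective _ (QuotientGroup.mk'_surjective C)]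
    have h4 : C.map (QuotientGroup.mk' C) = ⊥ := by
      rw [Subgroup.map_eq_bot_iff, QuotientGroup.ker_mk']
    rw [← h3, ← bot_sup_eq ((commutator N).map (QuotientGroup.mk' C)), ← h4, ← Subgroup.map_sup,
      h1, Subgroup.map_top_of_surjective _ (QuotientGroup.mk'_surjective C)]
  have hcard : Nat.card (N ⧸ C) ≠ 1 := by
    intro h
    have h1 := (Nat.card_eq_one_iff_unique.1 h).1
    exact not_subsingleton (N ⧸ C) h1
  have hp := Nat.minFac_prime hcard
  have : Fact (Nat.minFac (Nat.card (N ⧸ C))).Prime := ⟨hp⟩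
  obtain ⟨x, hx⟩ := exists_prime_orderOf_dvd_card' _ (Nat.minFac_dvd (Nat.card (N ⧸ C)))
  have hZ : (Subgroup.zpowers x).comap (QuotientGroup.mk' C) = ⊤ := by
    apply hC.2
    have h1 : C ≤ (Subgroup.zpowers x).comap (QuotientGroup.mk' C) := by
      intro c hc
      rw [Subgroup.mem_comap, QuotientGroup.mk'_apply, (QuotientGroup.eq_one_iff c).2 hc]
      exact Subgroup.one_mem _
    refine lt_of_le_of_ne h1 fun h => ?_
    obtain ⟨y, hy⟩ := QuotientGroup.mk'_surjective C x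
    have h2 : y ∈ C := by
      rw [h, Subgroup.mem_comap, hy]
      exact Subgroup.mem_zpowers x
    have h3 : x = 1 := by
      rw [← hy, QuotientGroup.mk'_apply]
      exact (QuotientGroup.eq_one_iff y).2 h2
    rw [h3, orderOf_one] at hx
    exact hp.one_lt.ne hx
  refine ⟨_, hp, C, hC.1, hBC, ?_, ?_⟩
  · intro n
    have h1 : n ∈ (Subgroup.zpowers x).comap (QuotientGroup.mk' C) := by
      rw [hZ]
      exact Subgroup.mem_top n
    obtain ⟨k, hk⟩ := Subgroup.mem_zpowers_iff.1 (Subgroup.mem_comap.1 h1)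
    rw [← QuotientGroup.eq_one_iff]
    have h2 : ((n ^ (Nat.minFac (Nat.card (N ⧸ C))) : N) : N ⧸ C) =
        (QuotientGroup.mk' C n) ^ (Nat.minFac (Nat.card (N ⧸ C))) := by
      rw [← map_pow]
      rfl
    rw [h2, ← hk, ← zpow_natCast, ← zpow_mul, mul_comm, zpow_mul, zpow_natCast]
    have h3 : x ^ (Nat.minFac (Nat.card (N ⧸ C))) = 1 := by
      nth_rewrite 1 [← hx]
      exact pow_orderOf_eq_one x
    rw [h3, one_zpow]
  · intro n n'
    apply hcomm
    rw [commutator_eq_closure]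
    exact Subgroup.subset_closure ⟨n, n', rfl⟩

section Elem

variable {L Ω : Type} [Group L] [Fintype Ω] [DecidableEq Ω]

/-- an element of the kernel which commutes modulo `Q` with given block elements and does not
commute with another one -/
theorem exists_elem {π : L →* Perm Ω} (hrange : π.range = alternatingGroup Ω) (Q : Subgroup L)
    [Q.Normal] {p : ℕ} [hp : Fact p.Prime] (hpow : ∀ n ∈ π.ker, n ^ p ∈ Q)
    (hcomm : ∀ n ∈ π.ker, ∀ n' ∈ π.ker, n * n' * n⁻¹ * n'⁻¹ ∈ Q)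
    (hnt : ∃ g, ∃ n ∈ π.ker, ¬ Commute (QuotientGroup.mk' Q g) (QuotientGroup.mk' Q n))
    {B : Type} [Fintype B] [DecidableEq B] {s : ℕ} (Δ : Blk (alternatingGroup Ω) B s)
    (hs : 2 ≤ s) (hsp : (s : ZMod p) ≠ 0) {B₀ : Finset B} (hcard : B₀.card + 3 ≤ Fintype.card B)
    {b₀ : B} (hb₀ : b₀ ∉ B₀) : ∃ n ∈ π.ker,
      (∀ b ∈ B₀, ∀ g, π g = (Δ.e b : Perm Ω) →
        Commute (QuotientGroup.mk' Q g) (QuotientGroup.mk' Q n)) ∧
      ∀ g, π g = (Δ.e b₀ : Perm Ω) →
        ¬ Commute (QuotientGroup.mk' Q g) (QuotientGroup.mk' Q n) := by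
  let q : L →* L ⧸ Q := QuotientGroup.mk' Q
  have hq1 : ∀ x, q x = 1 ↔ x ∈ Q := fun x => QuotientGroup.eq_one_iff x
  let M : Subgroup (L ⧸ Q) := π.ker.map q
  have hMn : M.Normal := Subgroup.Normal.map inferInstance _ (QuotientGroup.mk'_surjective _)
  have hMc : ∀ a ∈ M, ∀ b ∈ M, a * b = b * a := by
    rintro _ ⟨a, ha, rfl⟩ _ ⟨b, hb, rfl⟩
    rw [← mul_inv_eq_iff_eq_mul, ← mul_inv_eq_one, ← map_inv, ← map_inv, ← map_mul, ← map_mul,
      ← map_mul, hq1]
    exact hcomm a ha b hb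
  have hMcomm : IsMulCommutative M := ⟨⟨fun a b => Subtype.ext (hMc a a.2 b b.2)⟩⟩
  have hMp : ∀ m : M, m ^ p = 1 := by
    rintro ⟨_, ⟨a, ha, rfl⟩⟩
    apply Subtype.ext
    change q a ^ p = 1
    rw [← map_pow, hq1]
    exact hpow a ha
  let πA : L →* alternatingGroup Ω := π.codRestrict (alternatingGroup Ω) fun g => by
    rw [← hrange]
    exact ⟨g, rfl⟩
  have hπA : ∀ g, (πA g : Perm Ω) = π g := fun g => rfl
  have hsurj : Function.Surjective πA := by
    rintro ⟨σ, hσ⟩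
    rw [← hrange] at hσ
    obtain ⟨g, hg⟩ := hσ
    exact ⟨g, Subtype.ext hg⟩
  let ρL : L →* MulAut M := (MulAut.conjNormal (H := M)).comp q
  have hρL : ∀ g (m : M), ((ρL g m : M) : L ⧸ Q) = q g * m * (q g)⁻¹ := fun g m =>
    MulAut.conjNormal_apply _ _
  have hker : πA.ker ≤ ρL.ker := by
    intro n hn
    rw [MonoidHom.mem_ker] at hn ⊢
    have h1 : n ∈ π.ker := by
      rw [MonoidHom.mem_ker, ← hπA, hn]
      rfl
    ext m
    rw [hρL, MulAut.one_apply, hMc _ ⟨n, h1, rfl⟩ _ m.2, mul_inv_cancel_right]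
  let ρ₀ : alternatingGroup Ω →* MulAut M := πA.liftOfSurjective hsurj ⟨ρL, hker⟩
  have hρ₀ : ∀ g, ρ₀ (πA g) = ρL g := fun g =>
    MonoidHom.liftOfRightInverse_comp_apply _ _ _ _ _
  have hcm : ∀ (g : L) (m : M), ρ₀ (πA g) m = m ↔ Commute (q g) (m : L ⧸ Q) := by
    intro g m
    rw [hρ₀, ← Subtype.coe_inj, hρL, mul_inv_eq_iff_eq_mul]
    exact Iff.rfl
  let _ : Module (ZMod p) (Additive M) := AddCommGroup.zmodModule (n := p) fun x => hMp x.toMul
  obtain ⟨g₀, n₀, hn₀, hgn⟩ := hnt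
  obtain ⟨m, h1, h2⟩ := Δ.exists_vec (K := ZMod p) (V := Additive M) ((aut p).comp ρ₀) hs hsp
    ⟨πA g₀, Additive.ofMul ⟨q n₀, ⟨n₀, hn₀, rfl⟩⟩, fun h => hgn ((hcm g₀ _).1 h)⟩ hcard hb₀
  obtain ⟨n, hn, hnm⟩ := (Additive.toMul m).2
  refine ⟨n, hn, fun b hb g hg => ?_, fun g hg => ?_⟩
  · have h3 : πA g = Δ.e b := Subtype.ext hg
    have h4 : ρ₀ (Δ.e b) (Additive.toMul m) = Additive.toMul m := h1 b hb
    rw [← h3, hcm, ← hnm] at h4
    exact h4
  · have h3 : πA g = Δ.e b₀ := Subtype.ext hg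
    intro h4
    apply h2
    have h5 : ρ₀ (Δ.e b₀) (Additive.toMul m) = Additive.toMul m := by
      rw [← h3, hcm, ← hnm]
      exact h4
    exact h5

end Elem

end Pool.Agent.Lib.MP_b9166b_al.An
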