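import Pool.Agent.Lib.MP_b9166b_al.An.Sys
import Pool.Agent.Lib.MP_b9166b_al.Rg.CovB

/-!
# MP_b9166b_al, ALT-NIL: the blocks of a configuration
-/

set_option autoImplicit false

namespace Pool.Agent.Lib.MP_b9166b_al.An

open Equiv Equiv.Perm Rg

/-- the index set of the points: blocks and two spare points -/
abbrev Kp (F : Type) (s : ℕ) : Type := ((F ⊕ Bool) × (ZMod s × ZMod s)) ⊕ Bool

namespace Conf

variable {F Ω ι : Type} [Group F] {θ : F →* Perm Ω} {s : ℕ} (c : Conf θ ι (Kp F s))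

/-- the blocks: translates of the `s²` points with given indices -/
abbrev Bl : Type := {β : ZMod s × ZMod s → Ω // ∃ (f : F) (a : ι) (i : F ⊕ Bool),
  ∀ t, β t = θ f (c.p a (Sum.inl (i, t)))}

/-- the block with index `i` -/
def bl (a : ι) (i : F ⊕ Bool) : c.Bl :=
  ⟨fun t => c.p a (Sum.inl (i, t)), 1, a, i, fun t => by rw [map_one, Perm.one_apply]⟩

/-- the action on the blocks -/
def act (h : F) : Perm c.Bl where
  toFun β := ⟨fun t => θ h (β.1 t), by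
    obtain ⟨f, a, i, hβ⟩ := β.2
    exact ⟨h * f, a, i, fun t => by
      change θ h (β.1 t) = _
      rw [hβ, map_mul, Perm.mul_apply]⟩⟩
  invFun β := ⟨fun t => θ h⁻¹ (β.1 t), by
    obtain ⟨f, a, i, hβ⟩ := β.2
    exact ⟨h⁻¹ * f, a, i, fun t => by
      change θ h⁻¹ (β.1 t) = _
      rw [hβ, map_mul, Perm.mul_apply]⟩⟩
  left_inv β := by
    apply Subtype.ext
    funext t
    change θ h⁻¹ (θ h (β.1 t)) = β.1 t
    rw [← Perm.mul_apply, ← map_mul, inv_mul_cancel, map_one, Perm.one_apply]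
  right_inv β := by
    apply Subtype.ext
    funext t
    change θ h (θ h⁻¹ (β.1 t)) = β.1 t
    rw [← Perm.mul_apply, ← map_mul, mul_inv_cancel, map_one, Perm.one_apply]

theorem act_apply (h : F) (β : c.Bl) (t : ZMod s × ZMod s) : (c.act h β).1 t = θ h (β.1 t) := rfl

theorem sep' {f f' : F} {a a' : ι} {k k' : Kp F s} (h : θ f (c.p a k) = θ f' (c.p a' k')) :
    a = a' ∧ k = k' ∧ f'⁻¹ * f ∈ c.A a := by
  have h1 : θ (f'⁻¹ * f) (c.p a k) = c.p a' k' := by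
    rw [map_mul, Perm.mul_apply, h, map_inv, Perm.inv_eq_iff_eq]
  obtain ⟨h2, h3⟩ := c.sep _ _ _ _ _ h1
  refine ⟨h2, h3, ?_⟩
  rw [← h2, ← h3] at h1
  exact (c.stab _ _ _).1 h1

/-- the embedding of the blocks -/
def jB : c.Bl × (ZMod s × ZMod s) ↪ Ω :=
  ⟨fun x => x.1.1 x.2, by
    rintro ⟨⟨β, f, a, i, hβ⟩, t⟩ ⟨⟨β', f', a', i', hβ'⟩, t'⟩ h
    have h0 : β t = β' t' := h
    rw [hβ, hβ'] at h0
    obtain ⟨h1, h2, h3⟩ := c.sep' h0
    have h4 := Prod.mk.inj (Sum.inl_injective h2)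
    have h5 : β = β' := by
      funext u
      rw [hβ, hβ', ← h1, ← h4.1]
      have h6 := (c.stab a (Sum.inl (i, u)) _).2 h3
      rw [map_mul, Perm.mul_apply, map_inv, Perm.inv_eq_iff_eq] at h6
      exact h6
    subst h5
    rw [h4.2]⟩

theorem jB_apply (x : c.Bl × (ZMod s × ZMod s)) : c.jB x = x.1.1 x.2 := rfl

theorem jB_ne (x : c.Bl × (ZMod s × ZMod s)) (a₀ : ι) (t : Bool) : c.jB x ≠ c.p a₀ (Sum.inr t) := by
  obtain ⟨⟨β, f, a, i, hβ⟩, u⟩ := x
  intro h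
  have h1 : θ f (c.p a (Sum.inl (i, u))) = c.p a₀ (Sum.inr t) := by
    rw [← hβ]
    exact h
  exact absurd (c.sep _ _ _ _ _ h1).2 (by simp)

theorem jB_act (h : F) (x : c.Bl × (ZMod s × ZMod s)) :
    θ h (c.jB x) = c.jB ((Equiv.prodCongr (c.act h) (Equiv.refl _)) x) := rfl

variable [Fintype Ω] [DecidableEq Ω] [Fintype c.Bl] [DecidableEq c.Bl] [Fact s.Prime]

/-- the system of blocks -/
noncomputable def dB (a₀ : ι) (h5 : 5 ≤ Nat.card Ω) : Blk (alternatingGroup Ω) c.Bl s :=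
  blkAlt c.jB (a := c.p a₀ (Sum.inr false)) (b := c.p a₀ (Sum.inr true))
    (fun h => by
      have h1 : θ 1 (c.p a₀ (Sum.inr false)) = c.p a₀ (Sum.inr true) := by
        rw [map_one, Perm.one_apply, h]
      exact absurd (c.sep _ _ _ _ _ h1).2 (by simp))
    (fun x => c.jB_ne x a₀ false) (fun x => c.jB_ne x a₀ true) h5

theorem dB_e (a₀ : ι) (h5 : 5 ≤ Nat.card Ω) (β : c.Bl) :
    ((c.dB a₀ h5).e β : Perm Ω) = viaEmbeddingHom c.jB (bt (Pi.single β (1, 0))) := rfl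

theorem dB_act (a₀ : ι) (h5 : 5 ≤ Nat.card Ω) (h : F) (β : c.Bl) :
    θ h * ((c.dB a₀ h5).e β : Perm Ω) * (θ h)⁻¹ = ((c.dB a₀ h5).e (c.act h β) : Perm Ω) := by
  rw [dB_e, dB_e, via_conj c.jB (Θ := Equiv.prodCongr (c.act h) (Equiv.refl _))
    (fun x => c.jB_act h x), bt_perm]
  congr 2
  funext x
  rw [Function.comp_apply]
  by_cases hx : x = c.act h β
  · subst hx
    rw [Equiv.symm_apply_apply, Pi.single_eq_same, Pi.single_eq_same]
  · rw [Pi.single_eq_of_ne hx, Pi.single_eq_of_ne]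
    intro h1
    apply hx
    rw [← h1, Equiv.apply_symm_apply]

end Conf

end Pool.Agent.Lib.MP_b9166b_al.An
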