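import Pool.Agent.Lib.MP_b9166b_al.An.GamA
import Pool.Agent.Lib.MP_b9166b_al.An.GamB

/-!
# MP_b9166b_al, ALT-NIL: the subgroup `Q` of the kernel
-/

set_option autoImplicit false

namespace Pool.Agent.Lib.MP_b9166b_al.An

open Equiv Equiv.Perm Rg

namespace Sys

variable {L F Ω Ω' : Type} [Group L] [Group F] [Fintype Ω] [DecidableEq Ω] (S : Sys L F Ω Ω')
  (ψ : Ω') (p : ℕ)

/-- the elements of the kernel which fix `ψ` -/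
def Bk : Subgroup L := S.π.ker ⊓ stb S.a ψ

/-- the subgroup generated by the `p`-th powers and the commutators of the kernel -/
def Fp : Subgroup L := Subgroup.closure {y | (∃ n ∈ S.π.ker, n ^ p = y) ∨
  ∃ n ∈ S.π.ker, ∃ n' ∈ S.π.ker, n * n' * n⁻¹ * n'⁻¹ = y}

/-- the subgroup `Q` -/
def Qk : Subgroup L := S.Bk ψ ⊔ S.Fp p

theorem mem_Bk {x : L} : x ∈ S.Bk ψ ↔ x ∈ S.π.ker ∧ S.a x ψ = ψ := Iff.rfl

theorem Fp_le {K : Subgroup L} (h1 : ∀ n ∈ S.π.ker, n ^ p ∈ K)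
    (h2 : ∀ n ∈ S.π.ker, ∀ n' ∈ S.π.ker, n * n' * n⁻¹ * n'⁻¹ ∈ K) : S.Fp p ≤ K := by
  rw [Fp, Subgroup.closure_le]
  rintro y (⟨n, hn, rfl⟩ | ⟨n, hn, n', hn', rfl⟩)
  · exact h1 n hn
  · exact h2 n hn n' hn'

theorem pow_mem_Fp {n : L} (hn : n ∈ S.π.ker) : n ^ p ∈ S.Fp p :=
  Subgroup.subset_closure (Or.inl ⟨n, hn, rfl⟩)

theorem comm_mem_Fp {n n' : L} (hn : n ∈ S.π.ker) (hn' : n' ∈ S.π.ker) :
    n * n' * n⁻¹ * n'⁻¹ ∈ S.Fp p :=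
  Subgroup.subset_closure (Or.inr ⟨n, hn, n', hn', rfl⟩)

theorem Qk_le_ker : S.Qk ψ p ≤ S.π.ker := by
  refine sup_le inf_le_left (S.Fp_le p (fun n hn => Subgroup.pow_mem _ hn _) fun n hn n' hn' => ?_)
  exact Subgroup.mul_mem _ (Subgroup.mul_mem _ (Subgroup.mul_mem _ hn hn')
    (Subgroup.inv_mem _ hn)) (Subgroup.inv_mem _ hn')

theorem Bk_le_Qk : S.Bk ψ ≤ S.Qk ψ p := le_sup_left

theorem Fp_le_Qk : S.Fp p ≤ S.Qk ψ p := le_sup_right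

theorem Qk_map {α : L →* L} (h1 : ∀ n ∈ S.π.ker, α n ∈ S.π.ker)
    (h2 : ∀ n ∈ S.Bk ψ, α n ∈ S.Qk ψ p) : ∀ x ∈ S.Qk ψ p, α x ∈ S.Qk ψ p := by
  have h3 : S.Qk ψ p ≤ (S.Qk ψ p).comap α := by
    refine sup_le (fun x hx => h2 x hx) (S.Fp_le p (fun n hn => ?_) fun n hn n' hn' => ?_)
    · rw [Subgroup.mem_comap, map_pow]
      exact S.Fp_le_Qk ψ p (S.pow_mem_Fp p (h1 n hn))
    · rw [Subgroup.mem_comap, map_mul, map_mul, map_mul, map_inv, map_inv]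
      exact S.Fp_le_Qk ψ p (S.comm_mem_Fp p (h1 n hn) (h1 n' hn'))
  exact fun x hx => h3 hx

theorem Qk_conj_ker {n : L} (hn : n ∈ S.π.ker) {x : L} (hx : x ∈ S.Qk ψ p) :
    n * x * n⁻¹ ∈ S.Qk ψ p := by
  refine S.Qk_map ψ p (α := (MulAut.conj n).toMonoidHom) ?_ ?_ x hx
  · intro m hm
    exact Subgroup.mul_mem _ (Subgroup.mul_mem _ hn hm) (Subgroup.inv_mem _ hn)
  · intro b hb
    change n * b * n⁻¹ ∈ S.Qk ψ p
    have h1 : n * b * n⁻¹ = (n * b * n⁻¹ * b⁻¹) * b := by group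
    rw [h1]
    exact Subgroup.mul_mem _ (S.Fp_le_Qk ψ p (S.comm_mem_Fp p hn hb.1)) (S.Bk_le_Qk ψ p hb)

theorem Qk_conj_stb {d : L} (hd : S.a d ψ = ψ) {x : L} (hx : x ∈ S.Qk ψ p) :
    d * x * d⁻¹ ∈ S.Qk ψ p := by
  refine S.Qk_map ψ p (α := (MulAut.conj d).toMonoidHom) ?_ ?_ x hx
  · intro m hm
    exact (MonoidHom.normal_ker S.π).conj_mem m hm d
  · intro b hb
    apply S.Bk_le_Qk ψ p
    refine ⟨(MonoidHom.normal_ker S.π).conj_mem b hb.1 d, ?_⟩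
    exact (stb S.a ψ).mul_mem ((stb S.a ψ).mul_mem hd hb.2) ((stb S.a ψ).inv_mem hd)

variable {ψ}

theorem Qk_normal (hD : ∀ g, ∃ g', S.a g' ψ = ψ ∧ S.π g' = S.π g) : (S.Qk ψ p).Normal := by
  refine ⟨fun x hx g => ?_⟩
  obtain ⟨d, hd, hdg⟩ := hD g
  have hn : d⁻¹ * g ∈ S.π.ker := by
    rw [MonoidHom.mem_ker, map_mul, map_inv, hdg, inv_mul_cancel]
  have h1 := S.Qk_conj_stb ψ p hd (S.Qk_conj_ker ψ p hn hx)
  have h2 : d * (d⁻¹ * g * x * (d⁻¹ * g)⁻¹) * d⁻¹ = g * x * g⁻¹ := by group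
  rwa [h2] at h1

/-- the operators with fixed points preserve `Q` -/
theorem Qk_φ (hD : ∀ g, ∃ g', S.a g' ψ = ψ ∧ S.π g' = S.π g) {h : F} {n : L}
    (hh : S.b h (S.a n ψ) = S.a n ψ) {x : L} (hx : x ∈ S.Qk ψ p) : S.φ h x ∈ S.Qk ψ p := by
  have hN := S.Qk_normal p hD
  let α : L →* L := ((MulAut.conj n⁻¹).toMonoidHom.comp (S.φ h).toMonoidHom).comp
    (MulAut.conj n).toMonoidHom
  have hα : ∀ x, α x = n⁻¹ * S.φ h (n * x * n⁻¹) * n⁻¹⁻¹ := fun x => rfl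
  have h1 := S.Qk_map ψ p (α := α) ?_ ?_ (n⁻¹ * x * n) (by
    have h2 := hN.conj_mem x hx n⁻¹
    rwa [inv_inv] at h2)
  · rw [hα] at h1
    have h2 := hN.conj_mem _ h1 n
    have h3 : n * (n⁻¹ * S.φ h (n * (n⁻¹ * x * n) * n⁻¹) * n⁻¹⁻¹) * n⁻¹ = S.φ h x := by
      have h4 : n * (n⁻¹ * x * n) * n⁻¹ = x := by group
      rw [h4]
      group
    rwa [h3] at h2
  · intro m hm
    rw [hα, MonoidHom.mem_ker, map_mul, map_mul, S.eqπ, map_mul, map_mul, MonoidHom.mem_ker.1 hm,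
      map_inv, map_inv, map_inv]
    group
  · intro b hb
    apply S.Bk_le_Qk ψ p
    refine ⟨?_, ?_⟩
    · change α b ∈ S.π.ker
      rw [hα, MonoidHom.mem_ker, map_mul, map_mul, S.eqπ, map_mul, map_mul,
        MonoidHom.mem_ker.1 hb.1, map_inv, map_inv, map_inv]
      group
    · change S.a (α b) ψ = ψ
      have hbψ : S.a b ψ = ψ := hb.2
      rw [hα, map_mul, map_mul, S.eqa, map_mul, map_mul, map_inv, inv_inv]
      simp only [Perm.mul_apply]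
      have h5 : (S.b h)⁻¹ (S.a n ψ) = S.a n ψ := by
        rw [Perm.inv_eq_iff_eq, hh]
      have h6 : (S.a n)⁻¹ (S.a n ψ) = ψ := by rw [Perm.inv_eq_iff_eq]
      rw [h5, h6, hbψ, hh, h6]

/-- the kernel is not central modulo `Q` -/
theorem not_central (hD : ∀ g, ∃ g', S.a g' ψ = ψ ∧ S.π g' = S.π g) [(S.Qk ψ p).Normal]
    {n₀ : L} (hn₀ : n₀ ∈ S.π.ker) (hn₀Q : n₀ ∉ S.Qk ψ p) :
    ∃ g, ∃ n ∈ S.π.ker, ¬ Commute (QuotientGroup.mk' (S.Qk ψ p) g)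
      (QuotientGroup.mk' (S.Qk ψ p) n) := by
  by_contra hcon
  push Not at hcon
  let q : L →* L ⧸ S.Qk ψ p := QuotientGroup.mk' (S.Qk ψ p)
  have hq1 : ∀ x, q x = 1 ↔ x ∈ S.Qk ψ p := fun x => QuotientGroup.eq_one_iff x
  have h1 : commutator L ≤ ((stb S.a ψ).map q).comap q := by
    rw [commutator_def, Subgroup.commutator_le]
    rintro g₁ - g₂ -
    obtain ⟨d₁, hd₁, hdg₁⟩ := hD g₁
    obtain ⟨d₂, hd₂, hdg₂⟩ := hD g₂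
    have hn₁ : d₁⁻¹ * g₁ ∈ S.π.ker := by
      rw [MonoidHom.mem_ker, map_mul, map_inv, hdg₁, inv_mul_cancel]
    have hn₂ : d₂⁻¹ * g₂ ∈ S.π.ker := by
      rw [MonoidHom.mem_ker, map_mul, map_inv, hdg₂, inv_mul_cancel]
    have e₁ : q g₁ = q d₁ * q (d₁⁻¹ * g₁) := by
      rw [← map_mul, mul_inv_cancel_left]
    have e₂ : q g₂ = q d₂ * q (d₂⁻¹ * g₂) := by
      rw [← map_mul, mul_inv_cancel_left]
    set n₁ := d₁⁻¹ * g₁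
    set n₂ := d₂⁻¹ * g₂
    have c1 : ∀ x, q x * q n₁ = q n₁ * q x := fun x => (hcon x _ hn₁).eq
    have c2 : ∀ x, q x * q n₂ = q n₂ * q x := fun x => (hcon x _ hn₂).eq
    rw [Subgroup.mem_comap, commutatorElement_def, map_mul, map_mul, map_mul, map_inv, map_inv,
      e₁, e₂, mul_inv_rev, mul_inv_rev]
    refine ⟨d₁ * d₂ * d₁⁻¹ * d₂⁻¹, (stb S.a ψ).mul_mem ((stb S.a ψ).mul_mem
      ((stb S.a ψ).mul_mem hd₁ hd₂) ((stb S.a ψ).inv_mem hd₁)) ((stb S.a ψ).inv_mem hd₂), ?_⟩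
    rw [map_mul, map_mul, map_mul, map_inv, map_inv]
    calc q d₁ * q d₂ * (q d₁)⁻¹ * (q d₂)⁻¹
        = q d₁ * (q n₁ * (q n₁)⁻¹) * q d₂ * (q d₁)⁻¹ * (q n₂ * (q n₂)⁻¹) * (q d₂)⁻¹ := by group
      _ = (q d₁ * q n₁) * ((q n₁)⁻¹ * (q d₂ * (q d₁)⁻¹ * q n₂)) * (q n₂)⁻¹ * (q d₂)⁻¹ := by group
      _ = (q d₁ * q n₁) * (q d₂ * q n₂) * ((q n₁)⁻¹ * (q d₁)⁻¹) * ((q n₂)⁻¹ * (q d₂)⁻¹) := by
        have e3 : q d₂ * (q d₁)⁻¹ * q n₂ = (q d₂ * q n₂) * (q d₁)⁻¹ := by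
          rw [mul_assoc, ← map_inv, c2, mul_assoc]
        have e4 : (q n₁)⁻¹ * ((q d₂ * q n₂) * (q d₁)⁻¹) =
            (q d₂ * q n₂) * ((q n₁)⁻¹ * (q d₁)⁻¹) := by
          have e5 : (q n₁)⁻¹ * (q d₂ * q n₂) = (q d₂ * q n₂) * (q n₁)⁻¹ := by
            rw [inv_mul_eq_iff_eq_mul, ← mul_assoc, eq_mul_inv_iff_mul_eq, ← map_mul, c1]
          rw [← mul_assoc, e5, mul_assoc]
        rw [e3, e4]
        group
  have h2 : n₀ ∈ commutator L := by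
    rw [S.perf]
    exact Subgroup.mem_top _
  obtain ⟨d, hd, hdn⟩ := h1 h2
  have h3 : d⁻¹ * n₀ ∈ S.Qk ψ p := by
    rw [← hq1, map_mul, map_inv, hdn, inv_mul_cancel]
  have h4 : d ∈ S.π.ker := by
    have h5 := S.π.ker.mul_mem hn₀ (S.π.ker.inv_mem (S.Qk_le_ker ψ p h3))
    rwa [mul_inv_rev, inv_inv, mul_inv_cancel_left] at h5
  apply hn₀Q
  have h6 := Subgroup.mul_mem _ (S.Bk_le_Qk ψ p ⟨h4, hd⟩) h3
  rwa [mul_inv_cancel_left] at h6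

/-- a prime for which `Q` is a proper subgroup of the kernel -/
theorem exists_prime [Finite L] (hD : ∀ g, ∃ g', S.a g' ψ = ψ ∧ S.π g' = S.π g)
    (hmove : ∃ g, S.a g ψ ≠ ψ) : ∃ p : ℕ, p.Prime ∧ ∃ n ∈ S.π.ker, n ∉ S.Qk ψ p := by
  have hB : (stb S.a ψ).subgroupOf S.π.ker ≠ ⊤ := by
    intro h
    obtain ⟨g, hg⟩ := hmove
    obtain ⟨d, hd, hdg⟩ := hD g
    have hn : d⁻¹ * g ∈ S.π.ker := by
      rw [MonoidHom.mem_ker, map_mul, map_inv, hdg, inv_mul_cancel]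
    have h1 : (⟨d⁻¹ * g, hn⟩ : S.π.ker) ∈ (stb S.a ψ).subgroupOf S.π.ker := by
      rw [h]
      exact Subgroup.mem_top _
    have h2 : d⁻¹ * g ∈ stb S.a ψ := h1
    have h3 := (stb S.a ψ).mul_mem hd h2
    rw [mul_inv_cancel_left] at h3
    exact hg h3
  obtain ⟨p, hp, R, hR, hBR, hpow, hcomm⟩ := exists_prime_quot S.nil hB
  refine ⟨p, hp, ?_⟩
  have h1 : ∃ r : S.π.ker, r ∉ R := by
    by_contra h
    push Not at h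
    exact hR ((Subgroup.eq_top_iff' R).2 h)
  obtain ⟨r, hr⟩ := h1
  refine ⟨r, r.2, fun h => hr ?_⟩
  have h2 : S.Qk ψ p ≤ R.map S.π.ker.subtype := by
    refine sup_le ?_ (S.Fp_le p (fun n hn => ?_) fun n hn n' hn' => ?_)
    · intro x hx
      exact ⟨⟨x, hx.1⟩, hBR hx.2, rfl⟩
    · exact ⟨⟨n, hn⟩ ^ p, hpow _, rfl⟩
    · exact ⟨⟨n, hn⟩ * ⟨n', hn'⟩ * ⟨n, hn⟩⁻¹ * ⟨n', hn'⟩⁻¹, hcomm _ _, rfl⟩
  obtain ⟨r', hr', hrr⟩ := h2 h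
  have h3 : r' = r := Subtype.ext hrr
  rwa [← h3]

end Sys

end Pool.Agent.Lib.MP_b9166b_al.An
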