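import Pool.Agent.Lib.MP_b9166b_al.An.GamC

/-!
# MP_b9166b_al, ALT-NIL: a point with trivial stabilizer if the kernel moves `ψ`
-/

set_option autoImplicit false

namespace Pool.Agent.Lib.MP_b9166b_al.An

open Equiv Equiv.Perm Rg

namespace Conf

variable {F Ω ι : Type} [Group F] {θ : F →* Perm Ω} {s : ℕ} (c : Conf θ ι (Kp F s))

theorem act_bl {h : F} {a a' : ι} {i i' : F ⊕ Bool} (hh : c.act h (c.bl a i) = c.bl a' i') :
    a = a' ∧ i = i' ∧ h ∈ c.A a := by
  have h1 := congrArg (fun β : c.Bl => β.1 0) hh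
  have h2 : θ h (c.p a (Sum.inl (i, 0))) = θ 1 (c.p a' (Sum.inl (i', 0))) := by
    rw [map_one, Perm.one_apply]
    exact h1
  obtain ⟨h3, h4, h5⟩ := c.sep' h2
  refine ⟨h3, congrArg Prod.fst (Sum.inl_injective h4), ?_⟩
  rwa [inv_one, one_mul] at h5

theorem act_one (β : c.Bl) : c.act 1 β = β := by
  apply Subtype.ext
  funext t
  rw [act_apply, map_one, Perm.one_apply]

theorem bl_inj {a a' : ι} {i i' : F ⊕ Bool} (hh : c.bl a i = c.bl a' i') : a = a' ∧ i = i' := by
  have h1 : c.act 1 (c.bl a i) = c.bl a' i' := by rw [act_one, hh]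
  exact ⟨(c.act_bl h1).1, (c.act_bl h1).2.1⟩

end Conf

namespace Sys

variable {L F Ω Ω' ι : Type} [Group L] [Group F] [Fintype Ω] [DecidableEq Ω] (S : Sys L F Ω Ω')

/-- the elements of the kernel attached to the indices -/
theorem exists_nf [Fintype ι] [DecidableEq ι] {s p : ℕ} (c : Conf S.θ ι (Kp F s))
    [Fintype c.Bl] [DecidableEq c.Bl] [Fact s.Prime] [Fact p.Prime] (hsp : (s : ZMod p) ≠ 0)
    (a₀ : ι) (h5 : 5 ≤ Nat.card Ω) (Q : Subgroup L) [Q.Normal]
    (hpow : ∀ n ∈ S.π.ker, n ^ p ∈ Q)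
    (hcomm : ∀ n ∈ S.π.ker, ∀ n' ∈ S.π.ker, n * n' * n⁻¹ * n'⁻¹ ∈ Q)
    (hnt : ∃ g, ∃ n ∈ S.π.ker, ¬ Commute (QuotientGroup.mk' Q g) (QuotientGroup.mk' Q n))
    (f : F) (T : Finset ι) : ∃ n ∈ S.π.ker,
      (∀ β : c.Bl, β ≠ c.bl a₀ (Sum.inr false) → β ≠ c.bl a₀ (Sum.inr true) →
        (∀ a ∈ T, β ≠ c.bl a (Sum.inl f)) → ∀ g, S.π g = ((c.dB a₀ h5).e β : Perm Ω) →
        Commute (QuotientGroup.mk' Q g) (QuotientGroup.mk' Q n)) ∧
      ∀ a ∈ T, ∀ g, S.π g = ((c.dB a₀ h5).e (c.bl a (Sum.inl f)) : Perm Ω) →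
        ¬ Commute (QuotientGroup.mk' Q g) (QuotientGroup.mk' Q n) := by
  induction T using Finset.induction_on with
  | empty =>
    refine ⟨1, Subgroup.one_mem _, ?_, fun a ha => absurd ha (Finset.notMem_empty a)⟩
    intro β _ _ _ g _
    rw [map_one]
    exact Commute.one_right _
  | insert a T ha ih =>
    obtain ⟨n, hn, h1, h2⟩ := ih
    have hne1 : c.bl a (Sum.inl f) ≠ c.bl a₀ (Sum.inr false) := fun h =>
      absurd (c.bl_inj h).2 (by simp)
    have hne2 : c.bl a (Sum.inl f) ≠ c.bl a₀ (Sum.inr true) := fun h =>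
      absurd (c.bl_inj h).2 (by simp)
    have hne3 : c.bl a₀ (Sum.inr false) ≠ c.bl a₀ (Sum.inr true) := fun h =>
      absurd (c.bl_inj h).2 (by simp)
    obtain ⟨m, hm, h3, h4⟩ := exists_elem S.range Q hpow hcomm hnt (c.dB a₀ h5)
      (Fact.out : s.Prime).two_le hsp
      (B₀ := Finset.univ \ {c.bl a (Sum.inl f), c.bl a₀ (Sum.inr false), c.bl a₀ (Sum.inr true)})
      (by
        have h5 : ({c.bl a (Sum.inl f), c.bl a₀ (Sum.inr false), c.bl a₀ (Sum.inr true)} :
            Finset c.Bl).card = 3 := by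
          rw [Finset.card_insert_of_notMem, Finset.card_insert_of_notMem, Finset.card_singleton]
          · rw [Finset.mem_singleton]
            exact hne3
          · rw [Finset.mem_insert, Finset.mem_singleton, not_or]
            exact ⟨hne1, hne2⟩
        have h6 := Finset.card_sdiff_add_card_eq_card (Finset.subset_univ
          ({c.bl a (Sum.inl f), c.bl a₀ (Sum.inr false), c.bl a₀ (Sum.inr true)} : Finset c.Bl))
        rw [h5, Finset.card_univ] at h6
        exact h6.le)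
      (b₀ := c.bl a (Sum.inl f)) (by simp)
    refine ⟨n * m, Subgroup.mul_mem _ hn hm, ?_, ?_⟩
    · intro β hβ1 hβ2 hβ g hg
      rw [map_mul]
      apply Commute.mul_right
      · exact h1 β hβ1 hβ2 (fun a' ha' => hβ a' (Finset.mem_insert_of_mem ha')) g hg
      · apply h3 β _ g hg
        rw [Finset.mem_sdiff, Finset.mem_insert, Finset.mem_insert, Finset.mem_singleton]
        refine ⟨Finset.mem_univ _, ?_⟩
        push Not
        exact ⟨hβ a (Finset.mem_insert_self _ _), hβ1, hβ2⟩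
    · intro a' ha' g hg hcom
      rw [map_mul] at hcom
      rcases Finset.mem_insert.1 ha' with h5 | h5
      · subst h5
        have h6 := h1 (c.bl a' (Sum.inl f)) hne1 hne2 (fun a'' ha'' h7 => by
          have h8 := (c.bl_inj h7).1
          rw [← h8] at ha''
          exact ha ha'') g hg
        apply h4 g hg
        have h7 := h6.inv_right.mul_right hcom
        rwa [inv_mul_cancel_left] at h7
      · apply h2 a' h5 g hg
        have hne : a' ≠ a := fun h => ha (h ▸ h5)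
        have h6 : Commute (QuotientGroup.mk' Q g) (QuotientGroup.mk' Q m) := by
          apply h3 (c.bl a' (Sum.inl f)) _ g hg
          rw [Finset.mem_sdiff, Finset.mem_insert, Finset.mem_insert, Finset.mem_singleton]
          refine ⟨Finset.mem_univ _, ?_⟩
          push Not
          exact ⟨fun h => hne (c.bl_inj h).1, fun h => absurd (c.bl_inj h).2 (by simp),
            fun h => absurd (c.bl_inj h).2 (by simp)⟩
        have h7 := hcom.mul_right h6.inv_right
        rwa [mul_inv_cancel_right] at h7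

/-- if the stabilizer of `ψ` covers the alternating group and is not the whole group then some
conjugate of `ψ` under the kernel has trivial stabilizer in `F` -/
theorem gamma [Finite L] [Finite F] [Finite ι] [Nonempty ι] {m : ℕ} (c : Conf S.θ ι (Fin m))
    (hm : (Nat.card F + 2) * 9 + 2 ≤ m) {ψ : Ω'}
    (hD : ∀ g, ∃ g', S.a g' ψ = ψ ∧ S.π g' = S.π g) (hmove : ∃ g, S.a g ψ ≠ ψ) :
    ∃ n, S.π n = 1 ∧ ∀ h, S.b h (S.a n ψ) = S.a n ψ → h = 1 := by
  classical
  have := Fintype.ofFinite F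
  have := Fintype.ofFinite ι
  by_contra hcon
  push Not at hcon
  obtain ⟨p, hp, n₀, hn₀, hn₀Q⟩ := S.exists_prime hD hmove
  have hpF : Fact p.Prime := ⟨hp⟩
  obtain ⟨s, hs, hs3, hsp⟩ : ∃ s : ℕ, s.Prime ∧ s ≤ 3 ∧ s ≠ p := by
    by_cases h : p = 2
    · exact ⟨3, Nat.prime_three, le_rfl, by omega⟩
    · exact ⟨2, Nat.prime_two, by norm_num, fun h' => h h'.symm⟩
  have hsF : Fact s.Prime := ⟨hs⟩
  have hsK : (s : ZMod p) ≠ 0 := by
    rw [Ne, ZMod.natCast_eq_zero_iff]
    intro h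
    exact hsp ((Nat.prime_dvd_prime_iff_eq hp hs).1 h).symm
  obtain ⟨e⟩ : Nonempty (Kp F s ↪ Fin m) := by
    apply Function.Embedding.nonempty_of_card_le
    rw [Fintype.card_sum, Fintype.card_prod, Fintype.card_sum, Fintype.card_prod, ZMod.card,
      Fintype.card_fin, Fintype.card_bool, ← Nat.card_eq_fintype_card]
    have h1 : s * s ≤ 3 * 3 := Nat.mul_le_mul hs3 hs3
    have h2 : (Nat.card F + 2) * (s * s) ≤ (Nat.card F + 2) * 9 := Nat.mul_le_mul_left _ h1
    omega
  let c' : Conf S.θ ι (Kp F s) := c.comap (Equiv.refl ι) e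
  let a₀ : ι := Classical.arbitrary ι
  have h5 : 5 ≤ Nat.card Ω := by
    have hinj : Function.Injective (c.p a₀) := by
      intro i j h
      have h1 : S.θ 1 (c.p a₀ i) = c.p a₀ j := by rw [map_one, Perm.one_apply, h]
      exact (c.sep _ _ _ _ _ h1).2
    have h1 := Nat.card_le_card_of_injective _ hinj
    rw [Nat.card_eq_fintype_card, Fintype.card_fin] at h1
    omega
  have := Fintype.ofFinite c'.Bl
  set Q := S.Qk ψ p with hQ
  have hQn : Q.Normal := S.Qk_normal p hD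
  have hcen : ∃ g, ∃ n ∈ S.π.ker, ¬ Commute (QuotientGroup.mk' Q g) (QuotientGroup.mk' Q n) :=
    S.not_central p hD hn₀ hn₀Q
  let q : L →* L ⧸ Q := QuotientGroup.mk' Q
  have hq : ∀ x y, q x = q y ↔ x⁻¹ * y ∈ Q := fun x y => QuotientGroup.eq
  choose nf hnf hc1 hc2 using fun f : F => S.exists_nf c' hsK a₀ h5 Q
    (fun n hn => S.Fp_le_Qk ψ p (S.pow_mem_Fp p hn))
    (fun n hn n' hn' => S.Fp_le_Qk ψ p (S.comm_mem_Fp p hn hn')) hcen f Finset.univ
  choose hh hhψ hh1 using fun f : F => hcon (nf f) (hnf f)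
  obtain ⟨f, f', hff, hhff⟩ : ∃ f f' : F, f ≠ f' ∧ hh f = hh f' := by
    by_contra hcon
    push Not at hcon
    have hinj : Function.Injective fun f => (⟨hh f, hh1 f⟩ : {h : F // h ≠ 1}) := by
      intro f f' h
      by_contra hne
      exact hcon f f' hne (congrArg Subtype.val h)
    have h1 := Fintype.card_le_of_injective _ hinj
    have h2 : Fintype.card {h : F // h ≠ 1} < Fintype.card F :=
      Fintype.card_subtype_lt (x := 1) (by simp)
    omega
  set h := hh f with hhdef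
  have hne : h ≠ 1 := hh1 f
  have hf : S.b h (S.a (nf f) ψ) = S.a (nf f) ψ := hhψ f
  have hf' : S.b h (S.a (nf f') ψ) = S.a (nf f') ψ := by
    rw [hhff]
    exact hhψ f'
  have hfi : S.b h⁻¹ (S.a (nf f) ψ) = S.a (nf f) ψ := by
    rw [map_inv, Perm.inv_eq_iff_eq, hf]
  obtain ⟨w, hw⟩ : ∃ w : L, w = nf f * (nf f')⁻¹ := ⟨_, rfl⟩
  -- `φ h w` is congruent to `w`
  have hy : (nf f)⁻¹ * S.φ h w * nf f' ∈ S.Bk ψ := by
    rw [mem_Bk]
    constructor
    · rw [MonoidHom.mem_ker, map_mul, map_mul, S.eqπ, hw, map_mul, map_inv, map_inv, hnf, hnf]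
      group
    · have e1 : S.a (S.φ h w) = S.b h * (S.a (nf f) * (S.a (nf f'))⁻¹) * (S.b h)⁻¹ := by
        rw [S.eqa, hw, map_mul, map_inv]
      have e2 : (S.b h)⁻¹ (S.a (nf f') ψ) = S.a (nf f') ψ := by
        rw [Perm.inv_eq_iff_eq, hf']
      have e3 : (S.a (nf f'))⁻¹ (S.a (nf f') ψ) = ψ := by rw [Perm.inv_eq_iff_eq]
      rw [map_mul, map_mul, e1, map_inv]
      simp only [Perm.mul_apply]
      rw [e2, e3, hf, Perm.inv_eq_iff_eq]
  have hφw : q (S.φ h w) = q w := by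
    have h1 : q ((nf f)⁻¹ * S.φ h w * nf f') = 1 :=
      (QuotientGroup.eq_one_iff _).2 (S.Bk_le_Qk ψ p hy)
    rw [map_mul, map_mul, map_inv, mul_assoc, inv_mul_eq_one] at h1
    have e4 : q w = q (nf f) * (q (nf f'))⁻¹ := by rw [hw, map_mul, map_inv]
    rw [e4, h1, mul_inv_cancel_right]
  -- the block
  have ha : ∃ a, h ∉ c'.A a := by
    by_contra hcon
    push Not at hcon
    exact hne (c'.triv h hcon)
  obtain ⟨a, ha⟩ := ha
  obtain ⟨g, hg⟩ := S.exists_lift (σ := ((c'.dB a₀ h5).e (c'.bl a (Sum.inl f)) : Perm Ω))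
    (mem_alternatingGroup.1 ((c'.dB a₀ h5).e (c'.bl a (Sum.inl f))).2)
  have hg' : S.π (S.φ h g) = ((c'.dB a₀ h5).e (c'.act h (c'.bl a (Sum.inl f))) : Perm Ω) := by
    rw [S.eqπ, hg, c'.dB_act]
  have hno : ∀ a' i', c'.act h (c'.bl a (Sum.inl f)) ≠ c'.bl a' i' := fun a' i' h1 =>
    ha (c'.act_bl h1).2.2
  have hw' : Commute (q (S.φ h g)) (q w) := by
    rw [hw, map_mul, map_inv]
    apply Commute.mul_right
    · exact hc1 f _ (hno _ _) (hno _ _) (fun a' _ => hno _ _) _ hg'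
    · apply Commute.inv_right
      exact hc1 f' _ (hno _ _) (hno _ _) (fun a' _ => hno _ _) _ hg'
  have hcg : Commute (q g) (q w) := by
    have h1 : q (S.φ h (g * w)) = q (S.φ h (w * g)) := by
      rw [map_mul, map_mul, map_mul, map_mul, hφw]
      exact hw'.eq
    rw [hq] at h1
    have h2 := S.Qk_φ p hD hfi h1
    have h3 : S.φ h⁻¹ ((S.φ h (g * w))⁻¹ * S.φ h (w * g)) = (g * w)⁻¹ * (w * g) := by
      rw [map_inv S.φ, ← map_inv (S.φ h), ← map_mul]
      exact MulAut.inv_apply_self _ _ _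
    rw [h3, ← hQ, ← hq, map_mul, map_mul] at h2
    exact h2
  have hgf' : Commute (q g) (q (nf f')) := by
    refine hc1 f' _ ?_ ?_ ?_ _ hg
    · exact fun h => absurd (c'.bl_inj h).2 (by simp)
    · exact fun h => absurd (c'.bl_inj h).2 (by simp)
    · intro a' _ h1
      exact hff (Sum.inl_injective (c'.bl_inj h1).2)
  apply hc2 f a (Finset.mem_univ a) g hg
  have h1 := hcg.mul_right hgf'
  rw [hw, map_mul, map_inv, inv_mul_cancel_right] at h1
  exact h1

end Sys

end Pool.Agent.Lib.MP_b9166b_al.An
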