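import Pool.Agent.Lib.MP_b9166b_al.An.Fib

/-!
# MP_b9166b_al, ALT-NIL: good covers and a finitary linear centralizer exclude each other
-/

set_option autoImplicit false

namespace Pool.Agent.Lib.MP_b9166b_al.An

open Equiv Equiv.Perm Rg

variable {G : Type} [Group G]

theorem pow_inj_of_period {U Ω : Type} [Group U] {π : U →* Perm Ω} {x : U} {l : ℕ} {ω : Ω}
    (h : Function.minimalPeriod (π x) ω = l) {a b : ℕ} (ha : a < l) (hb : b < l)
    (hab : π (x ^ a) ω = π (x ^ b) ω) : a = b := by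
  have h1 : (π x)^[a] ω = (π x)^[b] ω := by rw [iterate_apply, iterate_apply, hab]
  exact (Function.iterate_eq_iterate_iff_of_lt_minimalPeriod (h ▸ ha) (h ▸ hb)).1 h1

theorem last {𝒢 : Cv G → Prop} (hG : Good 𝒢) (hne : ∃ z : G, z ≠ 1) (x : G)
    (hx : FinLin (Subgroup.centralizer ({x} : Set G))) : False := by
  classical
  obtain ⟨K, _, V, _, _, -, ρ, hρ, hfin⟩ := hx
  obtain ⟨l, B, S₂, hl, hxS, hmany, hB⟩ := exists_period hG hne x
  -- the first level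
  obtain ⟨c₀, hc₀, hcov₀, hcnt⟩ := hmany S₂ 1
  have hx₀m : x ∈ c₀.H := hcov₀.mem hxS
  let x₀ : c₀.H := ⟨x, hx₀m⟩
  obtain ⟨ω₀, hω₀⟩ : ∃ ω₀ : Fin c₀.n, Function.minimalPeriod (c₀.π x₀) ω₀ = l := by
    have h1 : 0 < cnt c₀ x l := hcnt
    rw [cnt, Nat.card_pos_iff] at h1
    obtain ⟨⟨ω, hω⟩⟩ := h1.1
    refine ⟨ω, ?_⟩
    rw [← hω, c₀.p_mem hx₀m]
  have h60 : 6 ≤ Fintype.card (Fin c₀.n) := by
    rw [Fintype.card_fin]
    exact hG.big c₀ hc₀
  -- the second level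
  obtain ⟨c₁, c₂, hc₁, hc₂, h01, h12, hi01, hi12, hk1⟩ := exists_good hG hB hc₀ (x₀ := x₀) rfl hω₀ 5
  have h61 : 6 ≤ Fintype.card (Fin c₁.n) := by
    rw [Fintype.card_fin]
    exact hG.big c₁ hc₁
  set x₁ : c₁.H := Subgroup.inclusion h01 x₀ with hx₁
  have hN12 := hG.nat c₁ c₂ hc₁ hc₂ h12 hi12
  obtain ⟨e⟩ : Nonempty (Fin 5 ↪ {ψ // Ov c₀.π (c₁.π.comp (Subgroup.inclusion h01)) ψ ω₀ ∧
      Gd c₁.π (c₂.π.comp (Subgroup.inclusion h12)) x₁ l ψ}) := by
    apply Function.Embedding.nonempty_of_card_le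
    rw [Fintype.card_fin, ← Nat.card_eq_fintype_card]
    exact hk1
  let Δ₀ : Finset (Fin c₁.n) := Finset.univ.image fun i => (e i : Fin c₁.n)
  have hΔ₀ : Δ₀.card = 5 := by
    rw [Finset.card_image_of_injective, Finset.card_univ, Fintype.card_fin]
    intro i j h
    exact e.injective (Subtype.ext h)
  have hΔ₀' : ∀ ω ∈ Δ₀, Ov c₀.π (c₁.π.comp (Subgroup.inclusion h01)) ω ω₀ ∧
      Gd c₁.π (c₂.π.comp (Subgroup.inclusion h12)) x₁ l ω := by
    intro ω hω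
    obtain ⟨i, -, rfl⟩ := Finset.mem_image.1 hω
    exact (e i).2
  -- different points of `Δ₀` lie in different orbits of `x`
  have hsep₀ : ∀ a < l, ∀ b < l, ∀ ω ∈ Δ₀, ∀ ω' ∈ Δ₀,
      c₁.π (x₁ ^ a) ω = c₁.π (x₁ ^ b) ω' → a = b ∧ ω = ω' := by
    intro a ha b hb ω hω ω' hω' h
    have h1 := (hΔ₀' ω hω).1.map (x₀ ^ a)
    have h2 := (hΔ₀' ω' hω').1.map (x₀ ^ b)
    have h3 : (c₁.π.comp (Subgroup.inclusion h01)) (x₀ ^ a) ω =
        (c₁.π.comp (Subgroup.inclusion h01)) (x₀ ^ b) ω' := by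
      rw [MonoidHom.comp_apply, MonoidHom.comp_apply, map_pow (Subgroup.inclusion h01),
        map_pow (Subgroup.inclusion h01)]
      exact h
    rw [h3] at h1
    have h4 := pow_inj_of_period hω₀ ha hb (h1.unique c₀.range h60 h2)
    subst h4
    exact ⟨rfl, (c₁.π (x₁ ^ a)).injective h⟩
  -- the element `v₀`
  obtain ⟨ω₁, hω₁, ω₂, hω₂, ω₃, hω₃, h12', h13', h23'⟩ := Finset.two_lt_card.1
    (show 2 < Δ₀.card by rw [hΔ₀]; norm_num)
  obtain ⟨v₀, hv₀, hv₀σ⟩ := exists_Vr c₁.range hΔ₀.ge (σ := c3 ω₁ ω₂ ω₃) (sign_c3 h12' h23') (by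
    intro ω hω
    apply c3_fix
    · rintro rfl
      exact hω hω₁
    · rintro rfl
      exact hω hω₂
    · rintro rfl
      exact hω hω₃)
  have hxl₁ : ∀ ω ∈ (Δ₀ : Set (Fin c₁.n)), c₁.π (x₁ ^ l) ω = ω := by
    intro ω hω
    have h1 := (hΔ₀' ω (by simpa using hω)).2.1
    have h2 := pow_period (π := c₁.π) x₁ ω
    rwa [h1] at h2
  have hxlv : Commute (x₁ ^ l) v₀ := hN12.commute_of_fix hi12 hxl₁
    (fun ω hω ψ hψ => (hΔ₀' ω (by simpa using hω)).2.2 ψ hψ) hv₀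
  have hya : ∀ a, x₁ ^ a * v₀ * (x₁ ^ a)⁻¹ ∈ Vr c₁.π (c₁.π (x₁ ^ a) '' (Δ₀ : Set _)) :=
    fun a => Vr_conj c₁.π (x₁ ^ a) _ hv₀
  set g₁ : c₁.H := nm x₁ v₀ l with hg₁
  have hgx : Commute g₁ x₁ := by
    apply nm_comm_x hxlv
    intro a ha
    by_cases ha0 : a = 0
    · rw [ha0, pow_zero, one_mul, inv_one, mul_one]
      exact Commute.refl _
    · refine hN12.commute c₁.range h61 hi12 ?_ hv₀ (hya a)
      rintro _ hω ⟨ω', hω', rfl⟩
      have h1 := hsep₀ 0 hl a ha _ (Finset.mem_coe.1 hω) ω' (Finset.mem_coe.1 hω') (by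
        rw [pow_zero, map_one, Perm.one_apply])
      exact ha0 h1.1.symm
  -- the action of `g₁` on `Δ₀`
  have hg₁ω : c₁.π g₁ ω₁ = ω₂ := by
    have h1 : ∀ n, n < l → c₁.π (nm x₁ v₀ (n + 1)) ω₁ = ω₂ := by
      intro n
      induction n with
      | zero =>
        intro _
        rw [nm, nm, pow_zero, one_mul, one_mul, inv_one, mul_one, hv₀σ, c3_left h12' h13']
      | succ n ih =>
        intro hn
        have h2 : c₁.π (x₁ ^ (n + 1) * v₀ * (x₁ ^ (n + 1))⁻¹) ω₁ = ω₁ := by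
          apply Vr_fix (hya (n + 1))
          rintro ⟨ω', hω', h3⟩
          have h4 := hsep₀ 0 hl (n + 1) hn ω₁ hω₁ ω' (by simpa using hω') (by
            rw [pow_zero, map_one, Perm.one_apply, h3])
          omega
        rw [nm, map_mul, Perm.mul_apply, h2, ih (by omega)]
    have h2 := h1 (l - 1) (by omega)
    rwa [Nat.sub_add_cancel hl] at h2
  have hgC : (g₁ : G) ∈ Subgroup.centralizer ({x} : Set G) := by
    rw [Subgroup.mem_centralizer_singleton_iff]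
    exact congrArg Subtype.val hgx.eq
  set d := Module.finrank K (LinearMap.range (1 - (ρ ⟨g₁, hgC⟩).val)) with hd
  have hdeg : Deg (ρ ⟨g₁, hgC⟩).val d := ⟨hfin _, le_rfl⟩
  -- the third level
  have hω₁l : Function.minimalPeriod (c₁.π x₁) ω₁ = l := (hΔ₀' ω₁ hω₁).2.1
  obtain ⟨c₃, c₄, hc₃, hc₄, h13, h34, hi13, hi34, hk3⟩ := exists_good hG hB hc₁ (x₀ := x₁) rfl
    hω₁l ((2 * d + 1) * 5)
  have h63 : 6 ≤ Fintype.card (Fin c₃.n) := by
    rw [Fintype.card_fin]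
    exact hG.big c₃ hc₃
  set x₃ : c₃.H := Subgroup.inclusion h13 x₁ with hx₃
  set g₃ : c₃.H := Subgroup.inclusion h13 g₁ with hg₃
  have hN34 := hG.nat c₃ c₄ hc₃ hc₄ h34 hi34
  obtain ⟨e'⟩ : Nonempty (Fin (2 * d + 1) × Fin 5 ↪
      {ψ // Ov c₁.π (c₃.π.comp (Subgroup.inclusion h13)) ψ ω₁ ∧
      Gd c₃.π (c₄.π.comp (Subgroup.inclusion h34)) x₃ l ψ}) := by
    apply Function.Embedding.nonempty_of_card_le
    rw [Fintype.card_prod, Fintype.card_fin, Fintype.card_fin, ← Nat.card_eq_fintype_card]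
    exact hk3
  let Δ : Fin (2 * d + 1) → Finset (Fin c₃.n) := fun i =>
    Finset.univ.image fun t => (e' (i, t) : Fin c₃.n)
  have hΔ : ∀ i, (Δ i).card = 5 := by
    intro i
    rw [Finset.card_image_of_injective, Finset.card_univ, Fintype.card_fin]
    intro t t' h
    exact congrArg Prod.snd (e'.injective (Subtype.ext h))
  have hΔ' : ∀ i, ∀ ω ∈ Δ i, Ov c₁.π (c₃.π.comp (Subgroup.inclusion h13)) ω ω₁ ∧
      Gd c₃.π (c₄.π.comp (Subgroup.inclusion h34)) x₃ l ω := by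
    intro i ω hω
    obtain ⟨t, -, rfl⟩ := Finset.mem_image.1 hω
    exact (e' (i, t)).2
  have hΔdis : ∀ i j, ∀ ω, ω ∈ Δ i → ω ∈ Δ j → i = j := by
    intro i j ω h1 h2
    obtain ⟨t, -, rfl⟩ := Finset.mem_image.1 h1
    obtain ⟨t', -, h3⟩ := Finset.mem_image.1 h2
    exact (congrArg Prod.fst (e'.injective (Subtype.ext h3))).symm
  have hfinal := le_of_sets (G := G) (j := c₃.H.subtype) c₃.H.subtype_injective hN34 c₃.range h63
    hi34 (x := x₃) (g := g₃) (x' := x) rfl (g' := ⟨g₁, hgC⟩) rfl ρ hρ hdeg hl Δ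
    (fun i => (hΔ i).ge) (by
      intro a ha b hb i j ω hω ω' hω' h
      have h1 := (hΔ' i ω hω).1.map (x₁ ^ a)
      have h2 := (hΔ' j ω' hω').1.map (x₁ ^ b)
      have h3 : (c₃.π.comp (Subgroup.inclusion h13)) (x₁ ^ a) ω =
          (c₃.π.comp (Subgroup.inclusion h13)) (x₁ ^ b) ω' := by
        rw [MonoidHom.comp_apply, MonoidHom.comp_apply, map_pow (Subgroup.inclusion h13),
          map_pow (Subgroup.inclusion h13)]
        exact h
      rw [h3] at h1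
      have h4 := pow_inj_of_period hω₁l ha hb (h1.unique c₁.range h61 h2)
      subst h4
      have h5 := (c₃.π (x₃ ^ a)).injective h
      refine ⟨rfl, hΔdis i j ω hω ?_⟩
      rw [h5]
      exact hω') (by
      intro a ha b hb i j ω hω ω' hω' h
      have h1 := (hΔ' i ω hω).1.map (g₁ * x₁ ^ a)
      have h2 := (hΔ' j ω' hω').1.map (x₁ ^ b)
      have h3 : (c₃.π.comp (Subgroup.inclusion h13)) (g₁ * x₁ ^ a) ω =
          (c₃.π.comp (Subgroup.inclusion h13)) (x₁ ^ b) ω' := by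
        rw [MonoidHom.comp_apply, MonoidHom.comp_apply, map_mul (Subgroup.inclusion h13),
          map_pow (Subgroup.inclusion h13), map_pow (Subgroup.inclusion h13)]
        exact h
      rw [h3] at h1
      have h4 := h1.unique c₁.range h61 h2
      have h5 : g₁ * x₁ ^ a = x₁ ^ a * g₁ := (hgx.pow_right a).eq
      rw [h5, map_mul, Perm.mul_apply, hg₁ω] at h4
      exact h12' (hsep₀ a ha b hb ω₂ hω₂ ω₁ hω₁ h4).2.symm) (by
      intro i v hv
      refine hN34.commute_of_fix hi34 ?_ (fun ω hω ψ hψ =>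
        (hΔ' i ω (by simpa using hω)).2.2 ψ hψ) hv
      intro ω hω
      have h1 := (hΔ' i ω (by simpa using hω)).2.1
      have h2 := pow_period (π := c₃.π) x₃ ω
      rwa [h1] at h2)
  omega

end Pool.Agent.Lib.MP_b9166b_al.An
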