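import Mathlib

/-!
# MP_b9166b_al, ALT-NIL: groups of permutations containing elements of small support

If every set of `n₀` points contains the support of an element `≠ 1` of the group `X`, then there is
a set `Γ` of at least `|Ω| / n₀²` points such that `X` contains all 3-cycles on `Γ`, and every
permutation which normalizes `X` and maps one point of `Γ` to a point of `Γ` preserves `Γ`.
-/

set_option autoImplicit false

namespace Pool.Agent.Lib.MP_b9166b_al.An

open Equiv Equiv.Perm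

variable {Ω : Type} [DecidableEq Ω]

/-- the cycle `α → β → γ → α` -/
def c3 (α β γ : Ω) : Perm Ω := swap α β * swap β γ

theorem c3_conj (τ : Perm Ω) (α β γ : Ω) : τ * c3 α β γ * τ⁻¹ = c3 (τ α) (τ β) (τ γ) := by
  rw [c3, c3, swap_apply_apply, swap_apply_apply]
  group

theorem c3_inv (α β γ : Ω) : (c3 α β γ)⁻¹ = c3 γ β α := by
  rw [c3, c3, mul_inv_rev, swap_inv, swap_inv, swap_comm β γ, swap_comm α β]

theorem c3_rot {α β γ : Ω} (h1 : α ≠ β) (h2 : α ≠ γ) : c3 α β γ = c3 β γ α := by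
  have h3 := swap_apply_apply (swap β γ)⁻¹ α β
  have h4 : (swap β γ)⁻¹ α = α := by
    rw [swap_inv, swap_apply_of_ne_of_ne h1 h2]
  have h5 : (swap β γ)⁻¹ β = γ := by
    rw [swap_inv, swap_apply_left]
  rw [h4, h5, inv_inv] at h3
  rw [c3, c3, swap_comm γ α, h3]
  group

theorem c3_left {α β γ : Ω} (h1 : α ≠ β) (h2 : α ≠ γ) : c3 α β γ α = β := by
  rw [c3, Perm.mul_apply, swap_apply_of_ne_of_ne h1 h2, swap_apply_left]

theorem c3_mid {α β γ : Ω} (h2 : α ≠ γ) (h3 : β ≠ γ) : c3 α β γ β = γ := by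
  rw [c3, Perm.mul_apply, swap_apply_left, swap_apply_of_ne_of_ne h2.symm h3.symm]

theorem c3_right (α β γ : Ω) : c3 α β γ γ = α := by
  rw [c3, Perm.mul_apply, swap_apply_right, swap_apply_right]

theorem c3_fix {α β γ ω : Ω} (h1 : ω ≠ α) (h2 : ω ≠ β) (h3 : ω ≠ γ) : c3 α β γ ω = ω := by
  rw [c3, Perm.mul_apply, swap_apply_of_ne_of_ne h2 h3, swap_apply_of_ne_of_ne h1 h2]

theorem sign_c3 [Fintype Ω] {α β γ : Ω} (h1 : α ≠ β) (h3 : β ≠ γ) : sign (c3 α β γ) = 1 := by
  rw [c3, Perm.sign_mul, sign_swap h1, sign_swap h3]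
  decide

/-- two permutations whose supports meet in one point: the commutator is a 3-cycle -/
theorem comm_eq_c3 {g x : Perm Ω} {α : Ω} (h : ∀ ω, g ω ≠ ω → x ω ≠ ω → ω = α) (hg : g α ≠ α)
    (hx : x α ≠ α) : g * x * g⁻¹ * x⁻¹ = c3 α (g α) (x α) := by
  have hxg : x (g α) = g α := by
    by_contra h1
    exact hg (h _ (fun h2 => hg (g.injective h2)) h1)
  have hgx : g (x α) = x α := by
    by_contra h1
    exact hx (h _ h1 (fun h2 => hx (x.injective h2)))
  have hne : g α ≠ x α := by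
    intro h1
    apply hx
    rw [← h1, ← g.injective.eq_iff] at hgx
    exact absurd (g.injective (g.injective hgx)) hg
  have key : g * x = c3 α (g α) (x α) * (x * g) := by
    apply Equiv.ext
    intro ω
    rw [Perm.mul_apply, Perm.mul_apply, Perm.mul_apply]
    by_cases hωα : ω = α
    · rw [hωα, hgx, hxg, c3_mid hx.symm hne]
    · by_cases hgω : g ω = ω
      · rw [hgω]
        by_cases hxω : x ω = ω
        · rw [hxω, hgω, c3_fix hωα]
          · intro h1
            exact hωα (g.injective (hgω.trans h1))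
          · intro h1
            rw [h1] at hxω
            exact hx (x.injective hxω)
        · by_cases hxα : x ω = α
          · rw [hxα, c3_left hg.symm hx.symm]
          · have h1 : g (x ω) = x ω := by
              by_contra h2
              exact hxα (h _ h2 (fun h3 => hxω (x.injective h3)))
            rw [h1, c3_fix hxα]
            · intro h2
              rw [← h2] at hxg
              exact hxω (x.injective hxg)
            · intro h2
              exact hωα (x.injective h2)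
      · have hxω : x ω = ω := by
          by_contra h1
          exact hωα (h _ hgω h1)
        rw [hxω]
        by_cases hgα : g ω = α
        · rw [hgα]
          have h1 : c3 α (g α) (x α) (x α) = α := c3_right _ _ _
          by_contra h2
          apply h2
          rw [h1]
        · have h1 : x (g ω) = g ω := by
            by_contra h2
            exact hgα (h _ (fun h3 => hgω (g.injective h3)) h2)
          rw [h1, c3_fix hgα]
          · intro h2
            exact hωα (g.injective h2)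
          · intro h2
            rw [← h2] at hgx
            exact hgω (g.injective hgx)
  rw [key]
  group

variable (X : Subgroup (Perm Ω))

/-- the two points are equal or lie in a 3-cycle of `X` -/
def Rl (α β : Ω) : Prop := α = β ∨ ∃ γ, α ≠ β ∧ γ ≠ α ∧ γ ≠ β ∧ c3 α β γ ∈ X

variable {X}

theorem c3_mem_conj {α β γ : Ω} (h : c3 α β γ ∈ X) {τ : Perm Ω} (hτ : ∀ σ ∈ X, τ * σ * τ⁻¹ ∈ X) :
    c3 (τ α) (τ β) (τ γ) ∈ X := by
  rw [← c3_conj]
  exact hτ _ h

theorem c3_mem_conj' {α β γ : Ω} (h : c3 α β γ ∈ X) {τ : Perm Ω} (hτ : τ ∈ X) :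
    c3 (τ α) (τ β) (τ γ) ∈ X :=
  c3_mem_conj h fun _ hσ => X.mul_mem (X.mul_mem hτ hσ) (X.inv_mem hτ)

theorem c3_mem_inv {α β γ : Ω} (h : c3 α β γ ∈ X) : c3 γ β α ∈ X := by
  rw [← c3_inv]
  exact X.inv_mem h

theorem c3_mem_trans {α β γ δ ε : Ω} (h1 : c3 α β δ ∈ X) (h2 : c3 β γ ε ∈ X) (hαβ : α ≠ β)
    (hδα : δ ≠ α) (hδβ : δ ≠ β) (hβγ : β ≠ γ) (hεβ : ε ≠ β) (hαγ : α ≠ γ) :
    c3 α β γ ∈ X := by
  by_cases hδγ : δ = γ
  · rwa [← hδγ]
  by_cases hεα : ε = α
  · rw [c3_rot hαβ hαγ, ← hεα]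
    exact h2
  have h3 := c3_mem_conj' h1 h2
  rw [c3_fix hαβ hαγ (Ne.symm hεα), c3_left hβγ hεβ.symm] at h3
  by_cases hδε : δ = ε
  · rw [hδε, c3_right] at h3
    have h4 := c3_mem_inv h3
    rw [c3_rot hαβ hαγ]
    exact h4
  · rw [c3_fix hδβ hδγ hδε] at h3
    have h4 := c3_mem_conj' h3 h1
    rw [c3_left hαβ hδα.symm, c3_fix (Ne.symm hαγ) hβγ.symm (Ne.symm hδγ), c3_right] at h4
    rw [c3_rot hαβ hαγ]
    exact h4

theorem Rl.refl (α : Ω) : Rl X α α := Or.inl rfl

theorem Rl.symm {α β : Ω} (h : Rl X α β) : Rl X β α := by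
  rcases h with h | ⟨γ, h1, h2, h3, h4⟩
  · exact Or.inl h.symm
  · refine Or.inr ⟨γ, h1.symm, h3, h2, ?_⟩
    have h5 := c3_mem_inv h4
    rwa [c3_rot h3 h2] at h5

theorem c3_mem_of_rl {α β γ : Ω} (h1 : Rl X α β) (h2 : Rl X β γ) (hαβ : α ≠ β) (hβγ : β ≠ γ)
    (hαγ : α ≠ γ) : c3 α β γ ∈ X := by
  rcases h1 with h1 | ⟨δ, -, h3, h4, h5⟩
  · exact absurd h1 hαβ
  rcases h2 with h2 | ⟨ε, -, h6, -, h8⟩
  · exact absurd h2 hβγ
  exact c3_mem_trans h5 h8 hαβ h3 h4 hβγ h6 hαγ

theorem Rl.trans {α β γ : Ω} (h1 : Rl X α β) (h2 : Rl X β γ) : Rl X α γ := by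
  by_cases hαβ : α = β
  · rwa [hαβ]
  by_cases hβγ : β = γ
  · rwa [← hβγ]
  by_cases hαγ : α = γ
  · exact Or.inl hαγ
  refine Or.inr ⟨β, hαγ, Ne.symm hαβ, hβγ, ?_⟩
  have h3 := c3_mem_inv (c3_mem_of_rl h1 h2 hαβ hβγ hαγ)
  rwa [c3_rot (Ne.symm hβγ) (Ne.symm hαγ), c3_rot (Ne.symm hαβ) hβγ] at h3

theorem Rl.map {α β : Ω} (h : Rl X α β) {τ : Perm Ω} (hτ : ∀ σ ∈ X, τ * σ * τ⁻¹ ∈ X) :
    Rl X (τ α) (τ β) := by
  rcases h with h | ⟨γ, h1, h2, h3, h4⟩
  · exact Or.inl (congrArg τ h)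
  · exact Or.inr ⟨τ γ, fun h => h1 (τ.injective h), fun h => h2 (τ.injective h),
      fun h => h3 (τ.injective h), c3_mem_conj h4 hτ⟩

variable [Fintype Ω]

/-- among `n₀²` points two are related -/
theorem exists_rl {n₀ : ℕ} (hX : ∀ T : Finset Ω, n₀ ≤ T.card → ∃ σ ∈ X, σ ≠ 1 ∧ ∀ ω ∉ T, σ ω = ω)
    {U : Finset Ω} (hU : n₀ * n₀ ≤ U.card) : ∃ α ∈ U, ∃ β ∈ U, α ≠ β ∧ Rl X α β := by
  obtain ⟨e⟩ : Nonempty (Fin n₀ × Fin n₀ ↪ U) := by
    apply Function.Embedding.nonempty_of_card_le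
    rw [Fintype.card_prod, Fintype.card_fin, Fintype.card_coe]
    exact hU
  let T : Fin n₀ → Finset Ω := fun i => Finset.univ.image fun k => (e (i, k) : Ω)
  have hT : ∀ i, (T i).card = n₀ := by
    intro i
    rw [Finset.card_image_of_injective, Finset.card_univ, Fintype.card_fin]
    intro k k' h
    have h1 := e.injective (Subtype.ext h)
    exact congrArg Prod.snd h1
  have hTdis : ∀ i j ω, ω ∈ T i → ω ∈ T j → i = j := by
    intro i j ω h1 h2
    obtain ⟨k, -, hk⟩ := Finset.mem_image.1 h1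
    obtain ⟨k', -, hk'⟩ := Finset.mem_image.1 h2
    have h3 := e.injective (Subtype.ext (hk.trans hk'.symm))
    exact congrArg Prod.fst h3
  have hTU : ∀ i ω, ω ∈ T i → ω ∈ U := by
    intro i ω h1
    obtain ⟨k, -, hk⟩ := Finset.mem_image.1 h1
    rw [← hk]
    exact (e (i, k)).2
  choose x hxX hx1 hxT using fun i => hX (T i) (hT i).ge
  have hx2 : ∀ i, ∃ ω, x i ω ≠ ω := by
    intro i
    by_contra h
    push Not at h
    exact hx1 i (Equiv.ext h)
  choose α hα using hx2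
  have hαT : ∀ i, α i ∈ T i := by
    intro i
    by_contra h
    exact hα i (hxT i _ h)
  have hαinj : Function.Injective α := by
    intro i j h
    apply hTdis i j (α i) (hαT i)
    rw [h]
    exact hαT j
  obtain ⟨g, hgX, hg1, hgT⟩ := hX (Finset.univ.image α) (by
    rw [Finset.card_image_of_injective _ hαinj, Finset.card_univ, Fintype.card_fin])
  have hg2 : ∃ ω, g ω ≠ ω := by
    by_contra h
    push Not at h
    exact hg1 (Equiv.ext h)
  obtain ⟨ω, hω⟩ := hg2
  have hω1 : ω ∈ Finset.univ.image α := by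
    by_contra h
    exact hω (hgT _ h)
  obtain ⟨i, -, hi⟩ := Finset.mem_image.1 hω1
  subst hi
  have hmeet : ∀ ω, g ω ≠ ω → x i ω ≠ ω → ω = α i := by
    intro ω h1 h2
    have h3 : ω ∈ Finset.univ.image α := by
      by_contra h
      exact h1 (hgT _ h)
    obtain ⟨j, -, hj⟩ := Finset.mem_image.1 h3
    have h4 : ω ∈ T i := by
      by_contra h
      exact h2 (hxT i _ h)
    rw [← hj] at h4
    rw [hTdis i j _ h4 (hαT j), hj]
  have hgα : g (α i) ∈ Finset.univ.image α := by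
    by_contra h
    exact hω (g.injective (hgT _ h))
  obtain ⟨j, -, hj⟩ := Finset.mem_image.1 hgα
  refine ⟨α i, hTU i _ (hαT i), g (α i), ?_, Ne.symm hω, Or.inr ⟨x i (α i), Ne.symm hω, hα i, ?_, ?_⟩⟩
  · rw [← hj]
    exact hTU j _ (hαT j)
  · intro h
    apply hω
    apply hmeet _ (fun h1 => hω (g.injective h1))
    rw [← h]
    exact fun h1 => hα i ((x i).injective h1)
  · rw [← comm_eq_c3 hmeet hω (hα i)]
    exact X.mul_mem (X.mul_mem (X.mul_mem hgX (hxX i)) (X.inv_mem hgX)) (X.inv_mem (hxX i))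

/-- the large class -/
theorem exists_class [Nonempty Ω] {n₀ : ℕ}
    (hX : ∀ T : Finset Ω, n₀ ≤ T.card → ∃ σ ∈ X, σ ≠ 1 ∧ ∀ ω ∉ T, σ ω = ω) :
    ∃ Γ : Finset Ω, (∀ α ∈ Γ, ∀ β ∈ Γ, ∀ γ ∈ Γ, α ≠ β → β ≠ γ → α ≠ γ → c3 α β γ ∈ X) ∧
      Fintype.card Ω ≤ n₀ * n₀ * Γ.card ∧
      ∀ τ : Perm Ω, (∀ σ, σ ∈ X ↔ τ * σ * τ⁻¹ ∈ X) → ∀ α ∈ Γ, τ α ∈ Γ → ∀ β, β ∈ Γ ↔ τ β ∈ Γ := by
  classical
  let s : Setoid Ω := ⟨Rl X, ⟨Rl.refl, Rl.symm, Rl.trans⟩⟩
  have hcard : Fintype.card (Quotient s) ≤ n₀ * n₀ := by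
    by_contra h
    push Not at h
    have hinj : Function.Injective (Quotient.out : Quotient s → Ω) := Quotient.out_injective
    obtain ⟨α, hα, β, hβ, hne, hR⟩ := exists_rl hX
      (U := Finset.univ.image (Quotient.out : Quotient s → Ω)) (by
        rw [Finset.card_image_of_injective _ hinj, Finset.card_univ]
        exact h.le)
    obtain ⟨a, -, ha⟩ := Finset.mem_image.1 hα
    obtain ⟨b, -, hb⟩ := Finset.mem_image.1 hβ
    apply hne
    rw [← ha, ← hb] at hR ⊢
    have h1 : (⟦Quotient.out a⟧ : Quotient s) = ⟦Quotient.out b⟧ := Quotient.sound hR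
    rw [Quotient.out_eq, Quotient.out_eq] at h1
    rw [h1]
  let fib : Quotient s → Finset Ω := fun q => Finset.univ.filter fun ω => (⟦ω⟧ : Quotient s) = q
  have hne : Nonempty (Quotient s) := ⟨⟦Classical.arbitrary Ω⟧⟩
  obtain ⟨q, -, hq⟩ := Finset.exists_max_image Finset.univ (fun q => (fib q).card)
    Finset.univ_nonempty
  have hfib : ∀ ω, ω ∈ fib q ↔ (⟦ω⟧ : Quotient s) = q := by
    intro ω
    simp [fib]
  have hR : ∀ α ∈ fib q, ∀ β, β ∈ fib q ↔ Rl X α β := by
    intro α hα β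
    rw [hfib] at hα ⊢
    rw [← hα]
    constructor
    · intro h
      exact (Quotient.exact h).symm
    · intro h
      exact (Quotient.sound (s := s) h).symm
  refine ⟨fib q, ?_, ?_, ?_⟩
  · intro α hα β hβ γ hγ h1 h2 h3
    exact c3_mem_of_rl ((hR α hα β).1 hβ) ((hR β hβ γ).1 hγ) h1 h2 h3
  · have h1 := Finset.card_eq_sum_card_fiberwise (s := (Finset.univ : Finset Ω))
      (t := (Finset.univ : Finset (Quotient s))) (f := fun ω => (⟦ω⟧ : Quotient s))
      (fun _ _ => Finset.mem_coe.2 (Finset.mem_univ _))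
    rw [Finset.card_univ] at h1
    rw [h1]
    have h2 : ∑ b : Quotient s, (fib b).card ≤ (Finset.univ : Finset (Quotient s)).card • (fib q).card :=
      Finset.sum_le_card_nsmul _ _ _ fun b hb => hq b hb
    refine le_trans h2 ?_
    rw [smul_eq_mul, Finset.card_univ]
    exact Nat.mul_le_mul_right _ hcard
  · intro τ hτ α hα hτα β
    rw [hR α hα, hR _ hτα]
    constructor
    · intro h
      exact h.map fun σ hσ => (hτ σ).1 hσ
    · intro h
      have h1 := h.map (τ := τ⁻¹) (X := X) (by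
        intro σ hσ
        rw [hτ]
        have h2 : τ * (τ⁻¹ * σ * τ⁻¹⁻¹) * τ⁻¹ = σ := by group
        rwa [h2])
      rwa [← Perm.mul_apply, ← Perm.mul_apply, inv_mul_cancel, Perm.one_apply,
        Perm.one_apply] at h1

/-- the even permutations supported in `Γ` -/
theorem mem_of_support {Γ : Finset Ω}
    (hΓ : ∀ α ∈ Γ, ∀ β ∈ Γ, ∀ γ ∈ Γ, α ≠ β → β ≠ γ → α ≠ γ → c3 α β γ ∈ X) {σ : Perm Ω}
    (hσ : sign σ = 1) (hs : ∀ ω ∉ Γ, σ ω = ω) : σ ∈ X := by
  have h1 : ∀ x, σ x ∈ Γ ↔ x ∈ Γ := by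
    intro x
    by_cases hx : x ∈ Γ
    · simp only [hx, iff_true]
      by_contra h
      have h2 := σ.injective (hs _ h)
      rw [h2] at h
      exact h hx
    · rw [hs x hx]
  have h2 : ofSubtype (σ.subtypePerm h1) = σ :=
    ofSubtype_subtypePerm h1 fun x hx => by
      by_contra h
      exact hx (hs x h)
  have h3 : sign (σ.subtypePerm h1) = 1 := by
    rw [← sign_ofSubtype, h2, hσ]
  have h4 : σ.subtypePerm h1 ∈ Subgroup.closure {τ : Perm {x // x ∈ Γ} | IsThreeCycle τ} := by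
    rw [closure_three_cycles_eq_alternating, mem_alternatingGroup]
    exact h3
  rw [← h2]
  generalize σ.subtypePerm h1 = σ' at h4
  induction h4 using Subgroup.closure_induction with
  | mem τ hτ =>
    obtain ⟨a, ha⟩ : τ.support.Nonempty := by
      rw [← Finset.card_pos, IsThreeCycle.card_support hτ]
      norm_num
    have h5 := (IsThreeCycle.eq_swap_mul_swap_iff_mem_support hτ).2 ha
    rw [mem_support] at ha
    have h6 : τ (τ a) ≠ τ a := fun h => ha (τ.injective h)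
    have h7 : τ (τ a) ≠ a := by
      intro h
      have h8 : τ ^ 3 = 1 := by
        rw [← IsThreeCycle.orderOf hτ]
        exact pow_orderOf_eq_one τ
      have h9 : (τ ^ 3) a = a := by rw [h8, Perm.one_apply]
      rw [pow_succ', pow_two, Perm.mul_apply, Perm.mul_apply, h] at h9
      exact ha h9
    rw [h5, map_mul, ofSubtype_swap_eq, ofSubtype_swap_eq]
    exact hΓ _ a.2 _ (τ a).2 _ (τ (τ a)).2 (fun h => ha (Subtype.ext h).symm)
      (fun h => h6 (Subtype.ext h).symm) (fun h => h7 (Subtype.ext h).symm)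
  | one =>
    rw [map_one]
    exact X.one_mem
  | mul a b _ _ iha ihb =>
    rw [map_mul]
    exact X.mul_mem iha ihb
  | inv a _ iha =>
    rw [map_inv]
    exact X.inv_mem iha

/-- even permutations with prescribed values on a small set -/
theorem exists_even (U : Finset Ω) (f : Ω → Ω) (hf : Set.InjOn f U)
    (hcard : U.card + 2 ≤ Fintype.card Ω) :
    ∃ σ : Perm Ω, sign σ = 1 ∧ ∀ u ∈ U, σ u = f u := by
  let e : {x // x ∈ U} ≃ {x // x ∈ U.image f} :=
    Equiv.ofBijective (fun x => ⟨f x.1, Finset.mem_image_of_mem f x.2⟩) (by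
      constructor
      · intro a b h
        exact Subtype.ext (hf a.2 b.2 (congrArg Subtype.val h))
      · rintro ⟨y, hy⟩
        obtain ⟨x, hx, hxy⟩ := Finset.mem_image.1 hy
        exact ⟨⟨x, hx⟩, Subtype.ext hxy⟩)
  have he : ∀ u ∈ U, e.extendSubtype u = f u := by
    intro u hu
    rw [extendSubtype_apply_of_mem e u hu]
    rfl
  rcases Int.units_eq_one_or (sign e.extendSubtype) with h | h
  · exact ⟨e.extendSubtype, h, he⟩
  · have h1 : 1 < Uᶜ.card := by
      rw [Finset.card_compl]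
      omega
    obtain ⟨a, ha, b, hb, hab⟩ := Finset.one_lt_card.1 h1
    rw [Finset.mem_compl] at ha hb
    refine ⟨e.extendSubtype * swap a b, ?_, ?_⟩
    · rw [Perm.sign_mul, h, sign_swap hab]
      decide
    · intro u hu
      rw [Perm.mul_apply, swap_apply_of_ne_of_ne, he u hu]
      · rintro rfl
        exact ha hu
      · rintro rfl
        exact hb hu

end Pool.Agent.Lib.MP_b9166b_al.An
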