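import Pool.Agent.Lib.MP_b9166b_al.An.Res
import Pool.Agent.Lib.MP_b9166b_al.An.Three

/-!
# MP_b9166b_al, ALT-NIL: a group acting on two sets, and an operator group

`Sys L F Ω Ω'`: a perfect group `L` with a homomorphism `π` onto the alternating group of `Ω`,
nilpotent kernel, and an action `a` on `Ω'`; a group `F` of operators acting compatibly on `L`, `Ω`
and `Ω'`.
-/

set_option autoImplicit false

namespace Pool.Agent.Lib.MP_b9166b_al.An

open Equiv Equiv.Perm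

/-- points `p a i` (`a : ι`, `i : κ`) in different orbits of `F`, with stabilizer `A a`, and these
stabilizers have trivial intersection -/
structure Conf {F Ω : Type} [Group F] (θ : F →* Perm Ω) (ι κ : Type) where
  A : ι → Subgroup F
  p : ι → κ → Ω
  stab : ∀ a i f, θ f (p a i) = p a i ↔ f ∈ A a
  sep : ∀ a i a' i' f, θ f (p a i) = p a' i' → a = a' ∧ i = i'
  triv : ∀ f, (∀ a, f ∈ A a) → f = 1

/-- `A` is the stabilizer of points in `m` different orbits -/
def Mult {F Ω : Type} [Group F] (θ : F →* Perm Ω) (A : Subgroup F) (m : ℕ) : Prop :=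
  ∃ p : Fin m → Ω, (∀ i f, θ f (p i) = p i ↔ f ∈ A) ∧ ∀ i j f, θ f (p i) = p j → i = j

/-- the stabilizer of a point -/
def stb {F Ω : Type} [Group F] (θ : F →* Perm Ω) (ω : Ω) : Subgroup F where
  carrier := {f | θ f ω = ω}
  one_mem' := by rw [Set.mem_ofPred_eq, map_one, Perm.one_apply]
  mul_mem' := by
    intro a b ha hb
    rw [Set.mem_ofPred_eq] at ha hb ⊢
    rw [map_mul, Perm.mul_apply, hb, ha]
  inv_mem' := by
    intro a ha
    rw [Set.mem_ofPred_eq] at ha ⊢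
    rw [map_inv, Perm.inv_eq_iff_eq, ha]

theorem mem_stb {F Ω : Type} [Group F] {θ : F →* Perm Ω} {ω : Ω} {f : F} :
    f ∈ stb θ ω ↔ θ f ω = ω := Iff.rfl

/-- restriction of the index sets -/
def Conf.comap {F Ω ι κ ι' κ' : Type} [Group F] {θ : F →* Perm Ω} (c : Conf θ ι κ) (e : ι' ≃ ι)
    (e' : κ' ↪ κ) : Conf θ ι' κ' where
  A a := c.A (e a)
  p a i := c.p (e a) (e' i)
  stab a i f := c.stab _ _ f
  sep a i a' i' f h := by
    obtain ⟨h1, h2⟩ := c.sep _ _ _ _ f h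
    exact ⟨e.injective h1, e'.injective h2⟩
  triv f h := c.triv f fun a => by
    have h1 := h (e.symm a)
    rwa [Equiv.apply_symm_apply] at h1

/-- many points in different orbits contain many with the same stabilizer -/
theorem exists_mult {F Ω : Type} [Group F] [Finite F] (θ : F →* Perm Ω) {M μ : ℕ} (q : Fin M → Ω)
    (hq : ∀ i j f, θ f (q i) = q j → i = j) (hM : Nat.card (Subgroup F) * μ ≤ M) (hM0 : 0 < M) :
    ∃ i, Mult θ (stb θ (q i)) μ := by
  classical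
  have := Fintype.ofFinite (Subgroup F)
  have hne : Nonempty (Fin M) := ⟨⟨0, hM0⟩⟩
  let g : Fin M → Subgroup F := fun i => stb θ (q i)
  obtain ⟨A, -, hA⟩ := Finset.exists_max_image (Finset.univ : Finset (Subgroup F))
    (fun A => (Finset.univ.filter fun i => g i = A).card) ⟨⊤, Finset.mem_univ _⟩
  have h1 := Finset.card_eq_sum_card_fiberwise (s := (Finset.univ : Finset (Fin M)))
    (t := (Finset.univ : Finset (Subgroup F))) (f := g)
    (fun _ _ => Finset.mem_coe.2 (Finset.mem_univ _))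
  have h2 : ∑ b : Subgroup F, (Finset.univ.filter fun i => g i = b).card ≤
      (Finset.univ : Finset (Subgroup F)).card • (Finset.univ.filter fun i => g i = A).card :=
    Finset.sum_le_card_nsmul _ _ _ fun b hb => hA b hb
  rw [← h1, Finset.card_univ, Finset.card_univ, Fintype.card_fin, smul_eq_mul,
    ← Nat.card_eq_fintype_card] at h2
  have hpos : 0 < Nat.card (Subgroup F) := Nat.card_pos
  have h3 : μ ≤ (Finset.univ.filter fun i => g i = A).card :=
    Nat.le_of_mul_le_mul_left (hM.trans h2) hpos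
  have h4 : 0 < (Finset.univ.filter fun i => g i = A).card := by
    by_contra h
    have h5 : (Finset.univ.filter fun i => g i = A).card = 0 := by omega
    rw [h5, mul_zero] at h2
    omega
  obtain ⟨i₀, hi₀⟩ := Finset.card_pos.1 h4
  have hi₀' : g i₀ = A := (Finset.mem_filter.1 hi₀).2
  obtain ⟨e⟩ : Nonempty (Fin μ ↪ (Finset.univ.filter fun i => g i = A)) := by
    apply Function.Embedding.nonempty_of_card_le
    rw [Fintype.card_fin, Fintype.card_coe]
    exact h3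
  refine ⟨i₀, fun i => q (e i), ?_, ?_⟩
  · intro i f
    have h5 : g (e i) = A := (Finset.mem_filter.1 (e i).2).2
    change f ∈ g (e i) ↔ f ∈ g i₀
    rw [h5, hi₀']
  · intro i j f h
    exact e.injective (Subtype.ext (hq _ _ f h))

/-- a perfect group with two actions and a group of operators -/
structure Sys (L F Ω Ω' : Type) [Group L] [Group F] [Fintype Ω] [DecidableEq Ω] where
  φ : F →* MulAut L
  π : L →* Perm Ω
  θ : F →* Perm Ω
  a : L →* Perm Ω'
  b : F →* Perm Ω'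
  range : π.range = alternatingGroup Ω
  nil : Group.IsNilpotent π.ker
  perf : commutator L = ⊤
  eqπ : ∀ h g, π (φ h g) = θ h * π g * (θ h)⁻¹
  eqa : ∀ h g, a (φ h g) = b h * a g * (b h)⁻¹

namespace Sys

variable {L F Ω Ω' : Type} [Group L] [Group F] [Fintype Ω] [DecidableEq Ω] (S : Sys L F Ω Ω')

theorem exists_lift {σ : Perm Ω} (h : sign σ = 1) : ∃ g, S.π g = σ := by
  have h1 : σ ∈ S.π.range := by
    rw [S.range, mem_alternatingGroup, h]
  exact h1

theorem sign_π (g : L) : sign (S.π g) = 1 := by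
  rw [← mem_alternatingGroup, ← S.range]
  exact ⟨g, rfl⟩

/-- the permutations of `Ω` induced by the stabilizer of `ψ` -/
def X (ψ : Ω') : Subgroup (Perm Ω) := (stb S.a ψ).map S.π

theorem mem_X {ψ : Ω'} {σ : Perm Ω} : σ ∈ S.X ψ ↔ ∃ g, S.a g ψ = ψ ∧ S.π g = σ := Iff.rfl

theorem sign_X {ψ : Ω'} {σ : Perm Ω} (h : σ ∈ S.X ψ) : sign σ = 1 := by
  obtain ⟨g, -, rfl⟩ := h
  exact S.sign_π g

theorem X_conj (l : L) {ψ : Ω'} {σ : Perm Ω} :
    σ ∈ S.X ψ ↔ S.π l * σ * (S.π l)⁻¹ ∈ S.X (S.a l ψ) := by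
  constructor
  · rintro ⟨g, hg, rfl⟩
    refine ⟨l * g * l⁻¹, ?_, by rw [map_mul, map_mul, map_inv]⟩
    change S.a (l * g * l⁻¹) (S.a l ψ) = S.a l ψ
    have hg' : S.a g ψ = ψ := hg
    rw [← Perm.mul_apply, ← map_mul, inv_mul_cancel_right, map_mul, Perm.mul_apply, hg']
  · rintro ⟨g, hg, hgσ⟩
    refine ⟨l⁻¹ * g * l, ?_, ?_⟩
    · have hg' : S.a g (S.a l ψ) = S.a l ψ := hg
      change S.a (l⁻¹ * g * l) ψ = ψ
      rw [map_mul, map_mul, Perm.mul_apply, Perm.mul_apply, hg', map_inv, Perm.inv_eq_iff_eq]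
    · rw [map_mul, map_mul, hgσ, map_inv]
      group

theorem X_b (h : F) {ψ : Ω'} {σ : Perm Ω} :
    σ ∈ S.X ψ ↔ S.θ h * σ * (S.θ h)⁻¹ ∈ S.X (S.b h ψ) := by
  constructor
  · rintro ⟨g, hg, rfl⟩
    refine ⟨S.φ h g, ?_, S.eqπ h g⟩
    have hg' : S.a g ψ = ψ := hg
    change S.a (S.φ h g) (S.b h ψ) = S.b h ψ
    rw [S.eqa, Perm.mul_apply, Perm.mul_apply, ← Perm.mul_apply (S.b h)⁻¹, inv_mul_cancel,
      Perm.one_apply, hg']
  · rintro ⟨g, hg, hgσ⟩
    have hg' : S.a g (S.b h ψ) = S.b h ψ := hg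
    refine ⟨S.φ h⁻¹ g, ?_, ?_⟩
    · change S.a (S.φ h⁻¹ g) ψ = ψ
      rw [S.eqa, map_inv, inv_inv, Perm.mul_apply, Perm.mul_apply, hg', Perm.inv_eq_iff_eq]
    · rw [S.eqπ, hgσ, map_inv]
      group

/-- if `h` maps `a l ψ` to `a l' ψ` then the corresponding permutation normalizes `X` -/
theorem X_norm {h : F} {l l' : L} {ψ : Ω'} (hh : S.b h (S.a l⁻¹ ψ) = S.a l'⁻¹ ψ) (σ : Perm Ω) :
    σ ∈ S.X ψ ↔ (S.π l' * S.θ h * (S.π l)⁻¹) * σ * (S.π l' * S.θ h * (S.π l)⁻¹)⁻¹ ∈ S.X ψ := by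
  rw [S.X_conj l⁻¹, S.X_b h, hh, S.X_conj l']
  have h1 : S.a l' (S.a l'⁻¹ ψ) = ψ := by
    rw [← Perm.mul_apply, ← map_mul, mul_inv_cancel, map_one, Perm.one_apply]
  rw [h1]
  have h2 : S.π l' * (S.θ h * (S.π l⁻¹ * σ * (S.π l⁻¹)⁻¹) * (S.θ h)⁻¹) * (S.π l')⁻¹ =
      (S.π l' * S.θ h * (S.π l)⁻¹) * σ * (S.π l' * S.θ h * (S.π l)⁻¹)⁻¹ := by
    rw [map_inv]
    group
  rw [h2]

end Sys

end Pool.Agent.Lib.MP_b9166b_al.An
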