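import Pool.Agent.Lib.MP_b9166b_al.An.Res
import Pool.Agent.Lib.MP_b9166b_al.An.Three
import Pool.Agent.Lib.MP_b9166b_al.An.Sys

/-!
# MP_b9166b_al, ALT-NIL: two levels

`Ov π π' ψ ω`: the point `ψ` of the second level lies over the point `ω` of the first one.
-/

set_option autoImplicit false

namespace Pool.Agent.Lib.MP_b9166b_al.An

open Equiv Equiv.Perm

variable {U Ω Ω' : Type} [Group U]

/-- the perfect residual of `U` -/
def Lr (U : Type) [Group U] : Subgroup U := res ⊤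

/-- the elements which fix all points outside `Δ` -/
def fixs (π : U →* Perm Ω) (Δ : Set Ω) : Subgroup U where
  carrier := {g | ∀ ω, ω ∉ Δ → π g ω = ω}
  one_mem' := fun ω _ => by rw [map_one, Perm.one_apply]
  mul_mem' := fun {a b} ha hb ω hω => by rw [map_mul, Perm.mul_apply, hb ω hω, ha ω hω]
  inv_mem' := fun {a} ha ω hω => by rw [map_inv, Perm.inv_eq_iff_eq, ha ω hω]

theorem mem_fixs {π : U →* Perm Ω} {Δ : Set Ω} {g : U} :
    g ∈ fixs π Δ ↔ ∀ ω, ω ∉ Δ → π g ω = ω := Iff.rfl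

/-- the perfect group of the set `Δ` -/
def Vr (π : U →* Perm Ω) (Δ : Set Ω) : Subgroup U := res (Lr U ⊓ fixs π Δ)

theorem Vr_le (π : U →* Perm Ω) (Δ : Set Ω) : Vr π Δ ≤ Lr U := (res_le _).trans inf_le_left

theorem Vr_fix {π : U →* Perm Ω} {Δ : Set Ω} {g : U} (hg : g ∈ Vr π Δ) {ω : Ω} (hω : ω ∉ Δ) :
    π g ω = ω := ((res_le _) hg).2 ω hω

theorem Vr_mono {π : U →* Perm Ω} {Δ Δ' : Set Ω} (h : Δ ⊆ Δ') : Vr π Δ ≤ Vr π Δ' :=
  res_mono (inf_le_inf_left _ fun _ hg ω hω => hg ω fun h1 => hω (h h1))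

theorem Lr_conj (u : U) : ∀ k ∈ Lr U, u * k * u⁻¹ ∈ Lr U :=
  res_conj fun _ _ => Subgroup.mem_top _

theorem Vr_conj (π : U →* Perm Ω) {Δ : Set Ω} (u : U) :
    ∀ k ∈ Vr π Δ, u * k * u⁻¹ ∈ Vr π (π u '' Δ) := by
  apply res_conj
  rintro k ⟨h1, h2⟩
  refine ⟨Lr_conj u k h1, fun ω hω => ?_⟩
  have h3 : (π u)⁻¹ ω ∉ Δ := by
    intro h4
    apply hω
    refine ⟨(π u)⁻¹ ω, h4, ?_⟩
    rw [← Perm.mul_apply, mul_inv_cancel, Perm.one_apply]
  rw [map_mul, map_mul, map_inv, Perm.mul_apply, Perm.mul_apply, h2 _ h3, ← Perm.mul_apply,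
    mul_inv_cancel, Perm.one_apply]

/-- the point `ψ` lies over the point `ω` -/
def Ov (π : U →* Perm Ω) (π' : U →* Perm Ω') (ψ : Ω') (ω : Ω) : Prop :=
  (∃ g ∈ Lr U, π' g ψ ≠ ψ) ∧ (∀ g ∈ Vr π {ω}ᶜ, π' g ψ = ψ) ∧
    ∀ g ∈ Lr U, π' g ψ = ψ → π g ω = ω

/-- every point of the second level moved by `Lr U` lies over a point of the first level -/
def Nat2 (π : U →* Perm Ω) (π' : U →* Perm Ω') : Prop :=
  ∀ ψ, (∀ g ∈ Lr U, π' g ψ = ψ) ∨ ∃ ω, Ov π π' ψ ω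

variable {π : U →* Perm Ω} {π' : U →* Perm Ω'}

theorem inv_apply_eq' {α : Type} (e : Perm α) (x : α) : e⁻¹ (e x) = x := by
  rw [Perm.inv_eq_iff_eq]

theorem apply_inv_eq' {α : Type} (e : Perm α) (x : α) : e (e⁻¹ x) = x := by
  rw [← Perm.mul_apply, mul_inv_cancel, Perm.one_apply]

theorem Ov.map {ψ : Ω'} {ω : Ω} (h : Ov π π' ψ ω) (u : U) : Ov π π' (π' u ψ) (π u ω) := by
  obtain ⟨⟨g, hg, hgψ⟩, h2, h3⟩ := h
  refine ⟨⟨u * g * u⁻¹, Lr_conj u g hg, ?_⟩, ?_, ?_⟩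
  · rw [map_mul, map_mul, map_inv, Perm.mul_apply, Perm.mul_apply, inv_apply_eq']
    exact fun h => hgψ ((π' u).injective h)
  · intro k hk
    have h4 := Vr_conj π u⁻¹ k hk
    have h5 : π u⁻¹ '' {π u ω}ᶜ ⊆ {ω}ᶜ := by
      rintro _ ⟨α, hα, rfl⟩ h6
      apply hα
      rw [Set.mem_singleton_iff, map_inv, Perm.inv_eq_iff_eq] at h6
      exact h6
    have h6 := h2 _ (Vr_mono h5 h4)
    rw [inv_inv, map_mul, map_mul, map_inv, Perm.mul_apply, Perm.mul_apply,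
      Perm.inv_eq_iff_eq] at h6
    exact h6
  · intro k hk hkψ
    have h4 := h3 (u⁻¹ * k * u) (by
      have h5 := Lr_conj u⁻¹ k hk
      rwa [inv_inv] at h5) (by
      rw [map_mul, map_mul, map_inv, Perm.mul_apply, Perm.mul_apply, hkψ, inv_apply_eq'])
    rw [map_mul, map_mul, map_inv, Perm.mul_apply, Perm.mul_apply, Perm.inv_eq_iff_eq] at h4
    exact h4

theorem Ov.map_iff {ψ : Ω'} {ω : Ω} (u : U) : Ov π π' (π' u ψ) (π u ω) ↔ Ov π π' ψ ω := by
  constructor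
  · intro h
    have h1 := h.map u⁻¹
    rwa [map_inv, map_inv, inv_apply_eq', inv_apply_eq'] at h1
  · exact fun h => h.map u

/-- the points moved by `Vr π Δ` lie over points of `Δ` -/
theorem Nat2.moved (hN : Nat2 π π') {Δ : Set Ω} {v : U} (hv : v ∈ Vr π Δ) {ψ : Ω'}
    (hψ : π' v ψ ≠ ψ) : ∃ ω ∈ Δ, Ov π π' ψ ω := by
  rcases hN ψ with h | ⟨ω, hω⟩
  · exact absurd (h v (Vr_le π Δ hv)) hψ
  · refine ⟨ω, ?_, hω⟩
    by_contra hcon
    apply hψ
    apply hω.2.1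
    refine Vr_mono ?_ hv
    rintro α hα h1
    rw [Set.mem_singleton_iff] at h1
    rw [h1] at hα
    exact hcon hα

variable [Fintype Ω] [DecidableEq Ω]

theorem perfect_range {X : Type} [Fintype X] [DecidableEq X] (h5 : 5 ≤ Fintype.card X) :
    ⁅alternatingGroup X, alternatingGroup X⁆ = alternatingGroup X := by
  apply commutator_alternatingGroup_eq_self
  rwa [Nat.card_eq_fintype_card]

/-- the elements of `Vr π Δ` induce all even permutations of `Δ` -/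
theorem exists_Vr [Finite U] (hr : π.range = alternatingGroup Ω) {Δ : Finset Ω}
    (hΔ : 5 ≤ Δ.card) {σ : Perm Ω} (hσ : sign σ = 1) (hσ' : ∀ ω ∉ Δ, σ ω = ω) :
    ∃ v ∈ Vr π (Δ : Set Ω), π v = σ := by
  let f : Perm {x // x ∈ Δ} →* Perm Ω := ofSubtype
  let Q : Subgroup (Perm Ω) := (alternatingGroup {x // x ∈ Δ}).map f
  have hQ : ∀ τ : Perm Ω, τ ∈ Q ↔ sign τ = 1 ∧ ∀ ω ∉ Δ, τ ω = ω := by
    intro τ
    constructor
    · rintro ⟨τ', h1, rfl⟩
      refine ⟨?_, fun ω hω => ofSubtype_apply_of_not_mem τ' hω⟩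
      change sign (ofSubtype τ') = 1
      rw [sign_ofSubtype]
      exact mem_alternatingGroup.1 h1
    · rintro ⟨h1, h2⟩
      have h3 : ∀ x, τ x ∈ Δ ↔ x ∈ Δ := by
        intro x
        by_cases hx : x ∈ Δ
        · simp only [hx, iff_true]
          by_contra h
          have h4 := τ.injective (h2 _ h)
          rw [h4] at h
          exact h hx
        · rw [h2 x hx]
      have h4 : ofSubtype (τ.subtypePerm h3) = τ :=
        ofSubtype_subtypePerm h3 fun x hx => by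
          by_contra h
          exact hx (h2 x h)
      refine ⟨τ.subtypePerm h3, ?_, h4⟩
      rw [SetLike.mem_coe, mem_alternatingGroup, ← sign_ofSubtype, h4, h1]
  have hQp : ⁅Q, Q⁆ = Q := by
    rw [← Subgroup.map_commutator, perfect_range (by rwa [Fintype.card_coe])]
  have hcard : 5 ≤ Fintype.card Ω := hΔ.trans (Finset.card_le_univ Δ)
  have hL : ∀ τ : Perm Ω, sign τ = 1 → ∃ g ∈ Lr U, π g = τ := by
    intro τ hτ
    refine exists_mem_res π (K := ⊤) (Q := alternatingGroup Ω) ?_ (perfect_range hcard)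
      (mem_alternatingGroup.2 hτ)
    rw [← MonoidHom.range_eq_map, hr]
  have hmap : (Lr U ⊓ fixs π (Δ : Set Ω)).map π = Q := by
    ext τ
    rw [hQ]
    constructor
    · rintro ⟨g, ⟨-, h2⟩, rfl⟩
      refine ⟨?_, fun ω hω => h2 ω (by simpa using hω)⟩
      rw [← mem_alternatingGroup, ← hr]
      exact ⟨g, rfl⟩
    · rintro ⟨h1, h2⟩
      obtain ⟨g, hg, rfl⟩ := hL τ h1
      exact ⟨g, ⟨hg, fun ω hω => h2 ω (by simpa using hω)⟩, rfl⟩
  exact exists_mem_res π hmap hQp ((hQ σ).2 ⟨hσ, hσ'⟩)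

/-- a point lies over at most one point -/
theorem Ov.unique [Finite U] (hr : π.range = alternatingGroup Ω) (h6 : 6 ≤ Fintype.card Ω)
    {ψ : Ω'} {ω ω' : Ω} (h : Ov π π' ψ ω) (h' : Ov π π' ψ ω') : ω = ω' := by
  by_contra hne
  have h1 : 1 < ({ω, ω'}ᶜ : Finset Ω).card := by
    have h2 := Finset.card_le_two (a := ω) (b := ω')
    rw [Finset.card_compl]
    omega
  obtain ⟨a, ha, b, hb, hab⟩ := Finset.one_lt_card.1 h1
  rw [Finset.mem_compl, Finset.mem_insert, Finset.mem_singleton, not_or] at ha hb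
  obtain ⟨v, hv, hvσ⟩ := exists_Vr (Δ := {ω}ᶜ) hr (by
    rw [Finset.card_compl, Finset.card_singleton]
    omega) (σ := c3 ω' a b) (sign_c3 (Ne.symm ha.2) hab) (by
    intro α hα
    rw [Finset.mem_compl, Finset.mem_singleton, not_not] at hα
    rw [hα]
    exact c3_fix hne (Ne.symm ha.1) (Ne.symm hb.1))
  rw [Finset.coe_compl, Finset.coe_singleton] at hv
  have h3 := h'.2.2 v (Vr_le _ _ hv) (h.2.1 v hv)
  rw [hvσ, c3_left (Ne.symm ha.2) (Ne.symm hb.2)] at h3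
  exact ha.2 h3

/-- the groups of disjoint sets commute -/
theorem Nat2.commute [Finite U] (hN : Nat2 π π') (hr : π.range = alternatingGroup Ω)
    (h6 : 6 ≤ Fintype.card Ω) (hπ' : Function.Injective π') {Δ Δ' : Set Ω}
    (hΔ : ∀ ω, ω ∈ Δ → ω ∈ Δ' → False) {v v' : U} (hv : v ∈ Vr π Δ) (hv' : v' ∈ Vr π Δ') :
    Commute v v' := by
  have h1 : Perm.Disjoint (π' v) (π' v') := by
    intro ψ
    by_contra hcon
    rw [not_or] at hcon
    obtain ⟨ω, hω, h2⟩ := hN.moved hv hcon.1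
    obtain ⟨ω', hω', h3⟩ := hN.moved hv' hcon.2
    rw [← h2.unique hr h6 h3] at hω'
    exact hΔ ω hω hω'
  apply hπ'
  rw [map_mul, map_mul]
  exact h1.commute.eq

omit [Fintype Ω] [DecidableEq Ω] in
/-- an element which fixes `Δ` and the points over `Δ` commutes with `Vr π Δ` -/
theorem Nat2.commute_of_fix (hN : Nat2 π π') (hπ' : Function.Injective π') {Δ : Set Ω} {y : U}
    (hy : ∀ ω ∈ Δ, π y ω = ω) (hy' : ∀ ω ∈ Δ, ∀ ψ, Ov π π' ψ ω → π' y ψ = ψ) {v : U}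
    (hv : v ∈ Vr π Δ) : Commute y v := by
  apply hπ'
  rw [map_mul, map_mul]
  apply Equiv.ext
  intro ψ
  rw [Perm.mul_apply, Perm.mul_apply]
  by_cases h : π' v ψ = ψ
  · rw [h]
    by_contra h1
    have h2 : π' v (π' y ψ) ≠ π' y ψ := fun h3 => h1 h3.symm
    obtain ⟨ω, hω, h3⟩ := hN.moved hv h2
    have h4 : Ov π π' (π' y ψ) (π y ω) := by
      rw [hy ω hω]
      exact h3
    have h5 := hy' ω hω ψ ((Ov.map_iff y).1 h4)
    rw [h5] at h2
    exact h2 h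
  · obtain ⟨ω, hω, h3⟩ := hN.moved hv h
    rw [hy' ω hω ψ h3]
    have h4 : π' v (π' v ψ) ≠ π' v ψ := fun h5 => h ((π' v).injective h5)
    obtain ⟨ω', hω', h5⟩ := hN.moved hv h4
    exact hy' ω' hω' _ h5

end Pool.Agent.Lib.MP_b9166b_al.An
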