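import Pool.Agent.Lib.MP_b9166b_al.An.Nat
import Pool.Agent.Lib.MP_b9166b_al.An.Last
import Pool.Agent.Lib.MP_b9166b_al.Rg.RegB

/-!
# MP_b9166b_al, ALT-NIL: the theorem
-/

set_option autoImplicit false

namespace Pool.Agent.Lib.MP_b9166b_al.An

open Equiv Equiv.Perm

variable {G : Type} [Group G]

/-- a finite group is a group of finitary permutations of an infinite set -/
theorem finPerm_of_finite [Finite G] : FinPerm G := by
  let P : G →* Perm (G ⊕ ℕ) := (Equiv.Perm.sumCongrHom G ℕ).comp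
    ((MulAction.toPermHom G G).prod 1)
  have hP : ∀ g h, P g (Sum.inl h) = Sum.inl (g * h) := fun g h => rfl
  have hP' : ∀ g n, P g (Sum.inr n) = Sum.inr n := fun g n => rfl
  refine ⟨G ⊕ ℕ, inferInstance, P, ?_, ?_⟩
  · intro g h hgh
    have h1 := congrArg (fun e : Perm (G ⊕ ℕ) => e (Sum.inl 1)) hgh
    simp only [hP, mul_one] at h1
    exact Sum.inl_injective h1
  · intro g
    refine (Set.finite_range (Sum.inl : G → G ⊕ ℕ)).subset ?_
    intro ω hω
    rcases ω with h | n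
    · exact ⟨h, rfl⟩
    · exact absurd (hP' g n) hω

/-- the homomorphism of a subgroup of `H` -/
def thc (c : Cv G) {F : Subgroup G} (hF : F ≤ c.H) : F →* Perm (Fin c.n) :=
  c.π.comp (Subgroup.inclusion hF)

/-- a finite subgroup without regular orbits in covers -/
theorem exists_F₀ (hlf : Rg.LocFin G) [Infinite G] (x : G)
    (hx : FinLin (Subgroup.centralizer ({x} : Set G))) :
    ∃ F : Subgroup G, Finite F ∧ ∀ (c : Cv G) (hF : F ≤ c.H) (ω : Fin c.n),
      ∃ h : F, h ≠ 1 ∧ thc c hF h ω = ω := by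
  by_contra hcon
  push Not at hcon
  apply Rg.regAlt hlf (x := x) _ hx
  intro F hFfin
  obtain ⟨c, hF, ω, hω⟩ := hcon F hFfin
  refine ⟨c.H, c.n, c.π, thc c hF, c.fin, c.range.ge, c.nil, ?_, ω, ?_⟩
  · intro h g
    refine ⟨c.H.mul_mem (c.H.mul_mem (hF h.2) g.2) (c.H.inv_mem (hF h.2)), ?_⟩
    change c.π (⟨h, hF h.2⟩ * g * ⟨h, hF h.2⟩⁻¹) = c.π ⟨h, hF h.2⟩ * c.π g * (c.π ⟨h, hF h.2⟩)⁻¹
    rw [map_mul, map_mul, map_inv]
  · intro h hh
    by_contra hne
    exact hω h hne hh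

/-- `b` stabilizers of large multiplicity with trivial intersection -/
def Pb (F : Subgroup G) (b : ℕ) : Prop :=
  ∀ (S : Finset G) (m : ℕ), ∃ c : Cv G, c.Cov S ∧ ∃ hF : F ≤ c.H, ∃ A : Fin b → Subgroup F,
    (∀ a, Mult (thc c hF) (A a) m) ∧ ∀ f, (∀ a, f ∈ A a) → f = 1

/-- large multiplicities exist -/
theorem exists_Pb (hcov : ∀ S : Finset G, ∃ c : Cv G, c.Cov S)
    (hgrow : ∀ z : G, z ≠ 1 → ∀ m : ℕ, ∃ S : Finset G, ∀ c : Cv G, c.Cov S →
      m < (c.p z).support.card) (F : Subgroup G) [Finite F] : ∃ b, Pb F b := by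
  classical
  have := Fintype.ofFinite F
  let e := Fintype.equivFin {f : F // f ≠ 1}
  refine ⟨Fintype.card {f : F // f ≠ 1}, fun S m => ?_⟩
  set M := Nat.card (Subgroup F) * m + 1 with hM
  choose Sf hSf using fun f : {f : F // f ≠ 1} => hgrow (f.1 : G)
    (fun h => f.2 (Subtype.ext h)) (M * Nat.card F)
  obtain ⟨c, hc⟩ := hcov (S ∪ (Set.toFinite (F : Set G)).toFinset ∪ Finset.univ.biUnion Sf)
  have hF : F ≤ c.H := by
    intro g hg
    apply hc.mem
    simp only [Finset.mem_union, Set.Finite.mem_toFinset, SetLike.mem_coe]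
    exact Or.inl (Or.inr hg)
  have hmult : ∀ f : {f : F // f ≠ 1}, ∃ A : Subgroup F, Mult (thc c hF) A m ∧ f.1 ∉ A := by
    intro f
    have h1 := hSf f c (hc.mono (by
      intro g hg
      rw [Finset.mem_union]
      exact Or.inr (Finset.mem_biUnion.2 ⟨f, Finset.mem_univ _, hg⟩)))
    obtain ⟨O, hO, hO'⟩ := exists_orbits (thc c hF) _ M h1
    have e' : Fin M ≃ O := Fintype.equivOfCardEq (by rw [Fintype.card_fin, Fintype.card_coe, hO])
    choose y hy hy' using fun i : Fin M => hO' (e' i) (e' i).2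
    obtain ⟨i, hi⟩ := exists_mult (thc c hF) (μ := m) y (by
      intro i j g h
      have h2 : cls (thc c hF) (y i) = cls (thc c hF) (y j) := by
        rw [← h, cls_apply]
      rw [hy', hy'] at h2
      exact e'.injective (Subtype.ext h2)) (by omega) (by omega)
    refine ⟨_, hi, fun h2 => ?_⟩
    have h3 := hy i
    rw [mem_support] at h3
    apply h3
    rw [c.p_mem (hF f.1.2)]
    exact h2
  choose A hA hA' using hmult
  refine ⟨c, hc.mono (by
    intro g hg
    simp only [Finset.mem_union]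
    exact Or.inl (Or.inl hg)), hF, fun a => A (e.symm a), fun a => hA _, ?_⟩
  intro f hf
  by_contra hne
  have h1 : f ∈ A (e.symm (e ⟨f, hne⟩)) := hf (e ⟨f, hne⟩)
  rw [Equiv.symm_apply_apply] at h1
  exact hA' ⟨f, hne⟩ h1

/-- **Main theorem**, negative form -/
theorem no_centralizer (hs : IsSimpleGroup G) (hcov : ∀ S : Finset G, ∃ c : Cv G, c.Cov S)
    (hG : ¬ FinPerm G) (x : G) (hx : FinLin (Subgroup.centralizer ({x} : Set G))) : False := by
  classical
  have hinf : Infinite G := by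
    rw [← not_finite_iff_infinite]
    intro h
    exact hG finPerm_of_finite
  have hlf : Rg.LocFin G := by
    intro S
    obtain ⟨c, hc⟩ := hcov S
    have h1 : Subgroup.closure (S : Set G) ≤ c.H := by
      rw [Subgroup.closure_le]
      exact fun s hs => hc.mem hs
    exact Finite.of_injective (Subgroup.inclusion h1) (Subgroup.inclusion_injective h1)
  have hgrow : ∀ z : G, z ≠ 1 → ∀ m : ℕ, ∃ S : Finset G, ∀ c : Cv G, c.Cov S →
      m < (c.p z).support.card := fun z hz m => growth hs hG hz m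
  obtain ⟨z₀, hz₀⟩ := exists_ne (1 : G)
  obtain ⟨F, hFfin, hNR⟩ := exists_F₀ hlf x hx
  obtain ⟨b, hb, hbmin⟩ : ∃ b, Pb F b ∧ ∀ b' < b, ¬ Pb F b' :=
    ⟨_, Nat.find_spec (exists_Pb hcov hgrow F), fun b' h => Nat.find_min _ h⟩
  have hb0 : b ≠ 0 := by
    rintro rfl
    obtain ⟨S, hS⟩ := hgrow z₀ hz₀ 0
    obtain ⟨c, hc, hF, A, -, htriv⟩ := hb S 1
    have h1 := hS c hc
    obtain ⟨ω, hω⟩ := Finset.card_pos.1 h1
    obtain ⟨h, hh, -⟩ := hNR c hF ω
    exact hh (htriv h fun a => a.elim0)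
  have hb1 : b ≠ 1 := by
    rintro rfl
    obtain ⟨c, hc, hF, A, hA, htriv⟩ := hb ∅ 1
    obtain ⟨p, hp, -⟩ := hA 0
    obtain ⟨h, hh, hh'⟩ := hNR c hF (p 0)
    apply hh
    apply htriv
    intro a
    rw [Subsingleton.elim a 0]
    exact (hp 0 h).1 hh'
  obtain ⟨b, rfl⟩ : ∃ b', b = b' + 1 := ⟨b - 1, by omega⟩
  have hbpos : 0 < b := by omega
  have h1 := hbmin b (by omega)
  unfold Pb at h1
  push Not at h1
  obtain ⟨S₁, μ, hμ⟩ := h1
  set m := Sys.Bd (Nat.card F) b (Nat.card (Subgroup F) * μ + 1) with hm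
  let 𝒢 : Cv G → Prop := fun c => c.Cov S₁ ∧ ∃ hF : F ≤ c.H, ∃ A : Fin (b + 1) → Subgroup F,
    (∀ a, Mult (thc c hF) (A a) ((b + 1) * m)) ∧ ∀ f, (∀ a, f ∈ A a) → f = 1
  have h10 : 10 ≤ m := by
    rw [hm, Sys.Bd]
    omega
  have hbig : ∀ c, 𝒢 c → 6 ≤ c.n := by
    rintro c ⟨-, hF, A, hA, -⟩
    obtain ⟨p, -, hp⟩ := hA 0
    have hinj : Function.Injective p := by
      intro i j h
      apply hp i j 1
      rw [map_one, Perm.one_apply, h]
    have h2 := Fintype.card_le_of_injective p hinj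
    rw [Fintype.card_fin, Fintype.card_fin] at h2
    have h3 : 1 * m ≤ (b + 1) * m := Nat.mul_le_mul_right _ (by omega)
    omega
  have hGood : Good 𝒢 := by
    refine ⟨?_, hbig, ?_, hgrow⟩
    · intro S
      obtain ⟨c, hc, hF, A, hA, htriv⟩ := hb (S ∪ S₁) ((b + 1) * m)
      exact ⟨c, ⟨hc.mono Finset.subset_union_right, hF, A, hA, htriv⟩,
        hc.mono Finset.subset_union_left⟩
    · rintro c c' hc ⟨hc', -⟩ hle hinj
      obtain ⟨-, hF, A, hA, htriv⟩ := id hc
      obtain ⟨cf⟩ := conf_of_mult A hA htriv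
      have h6 := hbig c hc
      refine nat2_of c.range c.nil (by rw [Fintype.card_fin]; omega)
        (c'.π.comp (Subgroup.inclusion hle)) (Subgroup.inclusion hF) hbpos cf le_rfl
        (μ := μ) ?_ ?_
      · intro ψ
        exact hNR c' (hF.trans hle) ψ
      · rintro ⟨A', hA', htriv'⟩
        obtain ⟨f, hf, hf1⟩ := hμ c' hc' (hF.trans hle) A' hA'
        exact hf1 (htriv' f hf)
  exact last hGood ⟨z₀, hz₀⟩ x hx

end Pool.Agent.Lib.MP_b9166b_al.An
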