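import Pool.Agent.Lib.MP_b9166b_al.An.Sys

/-!
# MP_b9166b_al, ALT-NIL: at most one point outside the large class
-/

set_option autoImplicit false

namespace Pool.Agent.Lib.MP_b9166b_al.An

open Equiv Equiv.Perm

namespace Sys

variable {L F Ω Ω' : Type} [Group L] [Group F] [Fintype Ω] [DecidableEq Ω] (S : Sys L F Ω Ω')

/-- many points whose stabilizers lie in the intersection of two stabilizers of the configuration -/
theorem many [Finite F] {b M : ℕ} (c : Conf S.θ (Fin (b + 1)) (Fin (M + 1))) (ψ : Ω')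
    {Γ : Finset Ω}
    (hΓ : ∀ τ : Perm Ω, (∀ σ, σ ∈ S.X ψ ↔ τ * σ * τ⁻¹ ∈ S.X ψ) → ∀ α ∈ Γ, τ α ∈ Γ →
      ∀ β, β ∈ Γ ↔ τ β ∈ Γ)
    {w w' : Ω} (hw : w ∉ Γ) (hw' : w' ∉ Γ) (hww : w ≠ w')
    (hcard : Nat.card F * (2 * (M + 1)) ≤ Γ.card) {a : Fin (b + 1)} (ha : a ≠ 0) :
    ∃ q : Fin M → Ω', (∀ i j f, S.b f (q i) = q j → i = j) ∧
      ∀ i, stb S.b (q i) ≤ c.A 0 ⊓ c.A a := by
  classical
  have := Fintype.ofFinite F
  let U : Finset Ω := Finset.univ.image fun x : F × (Bool × Fin (M + 1)) =>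
    S.θ x.1 (c.p (if x.2.1 then a else 0) x.2.2)
  have hUcard : U.card ≤ Γ.card := by
    refine le_trans Finset.card_image_le (le_trans ?_ hcard)
    rw [Finset.card_univ, Fintype.card_prod, Fintype.card_prod, Fintype.card_fin,
      Fintype.card_bool, Nat.card_eq_fintype_card]
  have hU0 : ∀ f k, S.θ f (c.p 0 k) ∈ U := fun f k =>
    Finset.mem_image.2 ⟨⟨f, false, k⟩, Finset.mem_univ _, rfl⟩
  have hUa : ∀ f k, S.θ f (c.p a k) ∈ U := fun f k =>
    Finset.mem_image.2 ⟨⟨f, true, k⟩, Finset.mem_univ _, rfl⟩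
  have hU0' : ∀ k, c.p 0 k ∈ U := fun k => by
    have h1 := hU0 1 k
    rwa [map_one, Perm.one_apply] at h1
  have hUa' : ∀ k, c.p a k ∈ U := fun k => by
    have h1 := hUa 1 k
    rwa [map_one, Perm.one_apply] at h1
  obtain ⟨e⟩ : Nonempty ({x // x ∈ U} ↪ {x // x ∈ Γ}) := by
    apply Function.Embedding.nonempty_of_card_le
    rw [Fintype.card_coe, Fintype.card_coe]
    exact hUcard
  let E : Ω → Ω := fun ω => if h : ω ∈ U then (e ⟨ω, h⟩ : Ω) else w
  have hE : ∀ ω ∈ U, E ω ∈ Γ := by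
    intro ω hω
    have h1 : E ω = e ⟨ω, hω⟩ := dif_pos hω
    rw [h1]
    exact (e ⟨ω, hω⟩).2
  have hEinj : ∀ ω ∈ U, ∀ ω' ∈ U, E ω = E ω' → ω = ω' := by
    intro ω hω ω' hω' h
    have h1 : E ω = e ⟨ω, hω⟩ := dif_pos hω
    have h2 : E ω' = e ⟨ω', hω'⟩ := dif_pos hω'
    rw [h1, h2] at h
    exact congrArg Subtype.val (e.injective (Subtype.ext h))
  -- the points are different
  have hsep : ∀ {a₁ a₂ : Fin (b + 1)} {k₁ k₂ : Fin (M + 1)}, c.p a₁ k₁ = c.p a₂ k₂ →
      a₁ = a₂ ∧ k₁ = k₂ := by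
    intro a₁ a₂ k₁ k₂ h
    apply c.sep _ _ _ _ 1
    rw [map_one, Perm.one_apply, h]
  let fk : Fin (M + 1) → Ω → Ω := fun k ω => if ω = c.p 0 k then w else if ω = c.p a k then w'
    else E ω
  have hfk0 : ∀ k, fk k (c.p 0 k) = w := fun k => if_pos rfl
  have hfka : ∀ k, fk k (c.p a k) = w' := by
    intro k
    have h1 : c.p a k ≠ c.p 0 k := fun h => ha (hsep h).1
    change (if c.p a k = c.p 0 k then w else if c.p a k = c.p a k then w' else E (c.p a k)) = w'
    rw [if_neg h1, if_pos rfl]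
  have hfkE : ∀ k ω, ω ≠ c.p 0 k → ω ≠ c.p a k → fk k ω = E ω := by
    intro k ω h1 h2
    change (if ω = c.p 0 k then w else if ω = c.p a k then w' else E ω) = E ω
    rw [if_neg h1, if_neg h2]
  have hinj : ∀ k, Set.InjOn (fk k) U := by
    intro k x hx y hy hxy
    have hx' : x ∈ U := hx
    have hy' : y ∈ U := hy
    by_cases hx0 : x = c.p 0 k
    · by_cases hy0 : y = c.p 0 k
      · rw [hx0, hy0]
      · exfalso
        rw [hx0, hfk0] at hxy
        by_cases hya : y = c.p a k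
        · rw [hya, hfka] at hxy
          exact hww hxy
        · rw [hfkE k y hy0 hya] at hxy
          exact hw (hxy ▸ hE y hy')
    · by_cases hxa : x = c.p a k
      · by_cases hya : y = c.p a k
        · rw [hxa, hya]
        · exfalso
          rw [hxa, hfka] at hxy
          by_cases hy0 : y = c.p 0 k
          · rw [hy0, hfk0] at hxy
            exact hww hxy.symm
          · rw [hfkE k y hy0 hya] at hxy
            exact hw' (hxy ▸ hE y hy')
      · rw [hfkE k x hx0 hxa] at hxy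
        by_cases hy0 : y = c.p 0 k
        · exfalso
          rw [hy0, hfk0] at hxy
          exact hw (hxy ▸ hE x hx')
        · by_cases hya : y = c.p a k
          · exfalso
            rw [hya, hfka] at hxy
            exact hw' (hxy ▸ hE x hx')
          · rw [hfkE k y hy0 hya] at hxy
            exact hEinj x hx' y hy' hxy
  have hΩ : U.card + 2 ≤ Fintype.card Ω := by
    have h1 : (insert w (insert w' Γ)).card = Γ.card + 2 := by
      rw [Finset.card_insert_of_notMem, Finset.card_insert_of_notMem hw']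
      rw [Finset.mem_insert, not_or]
      exact ⟨hww, hw⟩
    have h2 := Finset.card_le_univ (insert w (insert w' Γ))
    omega
  choose σ hσ1 hσ2 using fun k => exists_even U (fk k) (hinj k) hΩ
  choose l hl using fun k => S.exists_lift (hσ1 k)
  have key : ∀ (i j : Fin M) (h : F), S.b h (S.a (l i.succ)⁻¹ ψ) = S.a (l j.succ)⁻¹ ψ →
      i = j ∧ h ∈ c.A 0 ∧ h ∈ c.A a := by
    intro i j h hh
    have hnorm := S.X_norm hh
    have hτ : ∀ u, (S.π (l j.succ) * S.θ h * (S.π (l i.succ))⁻¹) (S.π (l i.succ) u) =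
        σ j.succ (S.θ h u) := by
      intro u
      rw [← Perm.mul_apply, inv_mul_cancel_right, Perm.mul_apply, hl]
    have h0 : σ i.succ (c.p 0 0) ∈ Γ := by
      rw [hσ2 _ _ (hU0' 0), hfkE]
      · exact hE _ (hU0' 0)
      · intro h1
        exact (Fin.succ_ne_zero i) (hsep h1).2.symm
      · intro h1
        exact (Fin.succ_ne_zero i) (hsep h1).2.symm
    have h0' : σ j.succ (S.θ h (c.p 0 0)) ∈ Γ := by
      rw [hσ2 _ _ (hU0 h 0), hfkE]
      · exact hE _ (hU0 h 0)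
      · intro h1
        exact (Fin.succ_ne_zero j) (c.sep _ _ _ _ h h1).2.symm
      · intro h1
        exact (Fin.succ_ne_zero j) (c.sep _ _ _ _ h h1).2.symm
    have hiff := hΓ _ hnorm (S.π (l i.succ) (c.p 0 0)) (by rw [hl]; exact h0)
      (by rw [hτ]; exact h0')
    -- a point which goes out of `Γ`
    have hout : ∀ u ∈ U, u ∉ ({c.p 0 j.succ, c.p a j.succ} : Finset Ω) → σ j.succ u ∈ Γ := by
      intro u hu hu'
      rw [Finset.mem_insert, Finset.mem_singleton, not_or] at hu'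
      rw [hσ2 _ _ hu, hfkE _ _ hu'.1 hu'.2]
      exact hE u hu
    have h1 : S.θ h (c.p 0 i.succ) ∈ ({c.p 0 j.succ, c.p a j.succ} : Finset Ω) := by
      by_contra hcon
      have h2 := hout _ (hU0 h i.succ) hcon
      rw [← hτ, ← hiff, hl, hσ2 _ _ (hU0' _), hfk0] at h2
      exact hw h2
    have h2 : S.θ h (c.p a i.succ) ∈ ({c.p 0 j.succ, c.p a j.succ} : Finset Ω) := by
      by_contra hcon
      have h2 := hout _ (hUa h i.succ) hcon
      rw [← hτ, ← hiff, hl, hσ2 _ _ (hUa' _), hfka] at h2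
      exact hw' h2
    rw [Finset.mem_insert, Finset.mem_singleton] at h1 h2
    rcases h1 with h1 | h1
    · have hij := Fin.succ_injective _ (c.sep _ _ _ _ h h1).2
      subst hij
      rcases h2 with h2 | h2
      · exact absurd (c.sep _ _ _ _ h h2).1 ha
      · exact ⟨rfl, (c.stab _ _ _).1 h1, (c.stab _ _ _).1 h2⟩
    · exact absurd (c.sep _ _ _ _ h h1).1.symm ha
  exact ⟨fun i => S.a (l i.succ)⁻¹ ψ, fun i j f h => (key i j f h).1,
    fun i f hf => ⟨(key i i f hf).2.1, (key i i f hf).2.2⟩⟩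

/-- at most one point lies outside the large class -/
theorem compl_le_one [Finite F] {b M μ : ℕ} (hb : 0 < b)
    (c : Conf S.θ (Fin (b + 1)) (Fin (M + 1)))
    (hM : Nat.card (Subgroup F) * μ ≤ M) (hM0 : 0 < M)
    (hNM : ¬ ∃ A : Fin b → Subgroup F, (∀ a, Mult S.b (A a) μ) ∧ ∀ f, (∀ a, f ∈ A a) → f = 1)
    (ψ : Ω') {Γ : Finset Ω}
    (hΓ : ∀ τ : Perm Ω, (∀ σ, σ ∈ S.X ψ ↔ τ * σ * τ⁻¹ ∈ S.X ψ) → ∀ α ∈ Γ, τ α ∈ Γ →
      ∀ β, β ∈ Γ ↔ τ β ∈ Γ)
    (hcard : Nat.card F * (2 * (M + 1)) ≤ Γ.card) {w w' : Ω} (hw : w ∉ Γ) (hw' : w' ∉ Γ) :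
    w = w' := by
  by_contra hww
  apply hNM
  have h1 : ∀ a : Fin b, ∃ B : Subgroup F, Mult S.b B μ ∧ B ≤ c.A 0 ⊓ c.A a.succ := by
    intro a
    obtain ⟨q, hq1, hq2⟩ := S.many c ψ hΓ hw hw' hww hcard (Fin.succ_ne_zero a)
    obtain ⟨i, hi⟩ := exists_mult S.b q hq1 hM hM0
    exact ⟨_, hi, hq2 i⟩
  choose B hB1 hB2 using h1
  refine ⟨B, hB1, fun f hf => c.triv f fun a => ?_⟩
  by_cases ha : a = 0
  · rw [ha]
    exact (hB2 ⟨0, hb⟩ (hf _)).1
  · obtain ⟨a', rfl⟩ := Fin.exists_succ_eq.2 ha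
    exact (hB2 a' (hf _)).2

end Sys

end Pool.Agent.Lib.MP_b9166b_al.An
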