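import Pool.Agent.Lib.MP_b9166b_al.An.Natural
import Pool.Agent.Lib.MP_b9166b_al.An.Lvl
import Pool.Agent.Lib.MP_b9166b_al.Orb

/-!
# MP_b9166b_al, ALT-NIL: from configurations to natural type for covers
-/

set_option autoImplicit false

namespace Pool.Agent.Lib.MP_b9166b_al.An

open Equiv Equiv.Perm

/-- points in different orbits, chosen for all stabilizers at once -/
theorem conf_of_mult {F : Type} [Group F] {n k m : ℕ} {θ : F →* Perm (Fin n)}
    (A : Fin k → Subgroup F) (hA : ∀ a, Mult θ (A a) (k * m))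
    (htriv : ∀ f, (∀ a, f ∈ A a) → f = 1) : Nonempty (Conf θ (Fin k) (Fin m)) := by
  classical
  choose p hp1 hp2 using hA
  let t : Fin k × Fin m → Finset (Quotient (orbS θ)) := fun x =>
    Finset.univ.image fun i => cls θ (p x.1 i)
  have ht : ∀ x, (t x).card = k * m := by
    intro x
    rw [Finset.card_image_of_injective, Finset.card_univ, Fintype.card_fin]
    intro i j h
    obtain ⟨f, hf⟩ : ∃ f, θ f (p x.1 i) = p x.1 j := Quotient.exact h
    exact hp2 x.1 i j f hf
  obtain ⟨f, hf1, hf2⟩ := (Finset.all_card_le_biUnion_card_iff_exists_injective t).1 (by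
    intro s
    rcases s.eq_empty_or_nonempty with rfl | ⟨x, hx⟩
    · simp
    · have h1 : s.card ≤ k * m := by
        have h2 := Finset.card_le_univ s
        rwa [Fintype.card_prod, Fintype.card_fin, Fintype.card_fin] at h2
      refine h1.trans ?_
      rw [← ht x]
      exact Finset.card_le_card (Finset.subset_biUnion_of_mem t hx))
  have h3 : ∀ x, ∃ i, cls θ (p x.1 i) = f x := by
    intro x
    obtain ⟨i, -, hi⟩ := Finset.mem_image.1 (hf2 x)
    exact ⟨i, hi⟩
  choose idx hidx using h3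
  refine ⟨⟨A, fun a i => p a (idx (a, i)), fun a i g => hp1 a _ g, ?_, htriv⟩⟩
  intro a i a' i' g hg
  have h4 : cls θ (p a (idx (a, i))) = cls θ (p a' (idx (a', i'))) := by
    rw [← hg, cls_apply]
  rw [hidx (a, i), hidx (a', i')] at h4
  have h5 := hf1 h4
  exact ⟨congrArg Prod.fst h5, congrArg Prod.snd h5⟩

theorem Lr_normal (U : Type) [Group U] : (Lr U).Normal :=
  ⟨fun n hn g => Lr_conj g n hn⟩

variable {U F Ω Ω' : Type} [Group U] [Finite U] [Group F] [Fintype Ω] [DecidableEq Ω]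

/-- the system of the perfect residual -/
def sysOf (π : U →* Perm Ω) (hr : π.range = alternatingGroup Ω) (hnil : Group.IsNilpotent π.ker)
    (h5 : 5 ≤ Fintype.card Ω) (π' : U →* Perm Ω') (i : F →* U) : Sys (Lr U) F Ω Ω' where
  φ := haveI := Lr_normal U
    (MulAut.conjNormal (H := Lr U)).comp i
  π := π.comp (Lr U).subtype
  θ := π.comp i
  a := π'.comp (Lr U).subtype
  b := π'.comp i
  range := by
    have h1 : (Lr U).map π = alternatingGroup Ω :=
      map_res π (K := ⊤) (by rw [← MonoidHom.range_eq_map, hr]) (perfect_range h5)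
    rw [← h1]
    ext σ
    constructor
    · rintro ⟨g, rfl⟩
      exact ⟨g, g.2, rfl⟩
    · rintro ⟨g, hg, rfl⟩
      exact ⟨⟨g, hg⟩, rfl⟩
  nil := by
    have hk : ∀ x : (π.comp (Lr U).subtype).ker, ((x : Lr U) : U) ∈ π.ker := fun x => x.2
    let f : (π.comp (Lr U).subtype).ker →* π.ker := {
      toFun := fun x => ⟨x.1.1, hk x⟩
      map_one' := rfl
      map_mul' := fun _ _ => rfl }
    have hf : Function.Injective f := by
      intro x x' hxx
      have h1 := congrArg Subtype.val hxx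
      exact Subtype.ext (Subtype.ext h1)
    refine Subgroup.isNilpotent_of_ker_le_center f ?_
    rw [(MonoidHom.ker_eq_bot_iff f).2 hf]
    exact bot_le
  perf := by
    apply Subgroup.map_injective (Lr U).subtype_injective
    rw [commutator_def, Subgroup.map_commutator, ← MonoidHom.range_eq_map,
      Subgroup.range_subtype]
    exact res_perfect _
  eqπ h g := by
    have := Lr_normal U
    change π ((MulAut.conjNormal (i h) g : Lr U) : U) = π (i h) * π g * (π (i h))⁻¹
    rw [MulAut.conjNormal_apply, map_mul, map_mul, map_inv]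
  eqa h g := by
    have := Lr_normal U
    change π' ((MulAut.conjNormal (i h) g : Lr U) : U) = π' (i h) * π' g * (π' (i h))⁻¹
    rw [MulAut.conjNormal_apply, map_mul, map_mul, map_inv]

/-- natural type for covers -/
theorem nat2_of [Finite F] {π : U →* Perm Ω} (hr : π.range = alternatingGroup Ω)
    (hnil : Group.IsNilpotent π.ker) (h5 : 5 ≤ Fintype.card Ω) (π' : U →* Perm Ω') (i : F →* U)
    {b m μ : ℕ} (hb : 0 < b) (c : Conf (π.comp i) (Fin (b + 1)) (Fin m))
    (hm : Sys.Bd (Nat.card F) b (Nat.card (Subgroup F) * μ + 1) ≤ m)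
    (hNR : ∀ ψ, ∃ h, h ≠ 1 ∧ (π'.comp i) h ψ = ψ)
    (hNM : ¬ ∃ A : Fin b → Subgroup F, (∀ a, Mult (π'.comp i) (A a) μ) ∧
      ∀ f, (∀ a, f ∈ A a) → f = 1) : Nat2 π π' := by
  intro ψ
  by_cases hmv : ∀ g ∈ Lr U, π' g ψ = ψ
  · exact Or.inl hmv
  right
  push Not at hmv
  rcases (sysOf π hr hnil h5 π' i).natural hb c hm hNR hNM ψ with h | ⟨ω, h1, h2⟩
  · obtain ⟨g, hg, hgψ⟩ := hmv
    exact absurd (h ⟨g, hg⟩) hgψ
  · refine ⟨ω, hmv, ?_, fun g hg hgψ => h2 ⟨g, hg⟩ hgψ⟩
    intro g hg
    have h3 : (stb (π.comp (Lr U).subtype) ω).map (Lr U).subtype = Lr U ⊓ fixs π {ω}ᶜ := by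
      ext x
      constructor
      · rintro ⟨y, hy, rfl⟩
        refine ⟨y.2, fun α hα => ?_⟩
        have h4 : α = ω := by simpa using hα
        rw [h4]
        exact hy
      · rintro ⟨hx1, hx2⟩
        exact ⟨⟨x, hx1⟩, hx2 ω (by simp), rfl⟩
    rw [Vr, ← h3, res_map _ (Lr U).subtype_injective] at hg
    obtain ⟨y, hy, rfl⟩ := hg
    exact h1 y hy

end Pool.Agent.Lib.MP_b9166b_al.An
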