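import Pool.Agent.Lib.MP_b9166b_al.An.Sys
import Pool.Agent.Lib.MP_b9166b_al.Rg.BlkAlt

/-!
# MP_b9166b_al, ALT-NIL: stabilizers contain elements of small support

If no point of `Ω'` has trivial stabilizer in `F`, then every set of `n₀` points of `Ω` contains the
support of an element `≠ 1` induced by the stabilizer of `ψ`.
-/

set_option autoImplicit false

namespace Pool.Agent.Lib.MP_b9166b_al.An

open Equiv Equiv.Perm Rg

theorem exists_even_into {Ω : Type} [Fintype Ω] [DecidableEq Ω] {Δ T : Finset Ω}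
    (h : Δ.card ≤ T.card) (h2 : Δ.card + 2 ≤ Fintype.card Ω) :
    ∃ σ : Perm Ω, sign σ = 1 ∧ ∀ u ∈ Δ, σ u ∈ T := by
  obtain ⟨e⟩ : Nonempty ({x // x ∈ Δ} ↪ {x // x ∈ T}) := by
    apply Function.Embedding.nonempty_of_card_le
    rw [Fintype.card_coe, Fintype.card_coe]
    exact h
  obtain ⟨σ, h3, h4⟩ := exists_even Δ (fun ω => if h : ω ∈ Δ then (e ⟨ω, h⟩ : Ω) else ω) (by
    intro x hx y hy hxy
    have hx' : x ∈ Δ := hx
    have hy' : y ∈ Δ := hy
    simp only [hx', hy', dif_pos] at hxy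
    exact congrArg Subtype.val (e.injective (Subtype.ext hxy))) h2
  refine ⟨σ, h3, fun u hu => ?_⟩
  rw [h4 u hu]
  simp only [hu, dif_pos]
  exact (e ⟨u, hu⟩).2

theorem sign_rot (ι : Type) [Fintype ι] [DecidableEq ι] :
    sign (Equiv.prodCongrRight fun _ : ι => finRotate 3 : Perm (ι × Fin 3)) = 1 := by
  rw [sign_prodCongrRight]
  exact Finset.prod_eq_one fun _ _ => by decide

namespace Sys

variable {L F Ω Ω' ι : Type} [Group L] [Group F] [Fintype Ω] [DecidableEq Ω] (S : Sys L F Ω Ω')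
  (c : Conf S.θ ι (F × Fin 3))

section

variable [Fintype F] [Fintype ι]

/-- all conjugates of the points of the configuration -/
def orb : Finset Ω := Finset.univ.image fun x : F × (ι × (F × Fin 3)) => S.θ x.1 (c.p x.2.1 x.2.2)

theorem card_orb : (S.orb c).card ≤ Fintype.card F * (Fintype.card ι * (Fintype.card F * 3)) := by
  refine le_trans Finset.card_image_le ?_
  rw [Finset.card_univ, Fintype.card_prod, Fintype.card_prod, Fintype.card_prod, Fintype.card_fin]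

theorem mem_orb {ω : Ω} : ω ∈ S.orb c ↔ ∃ f a k, S.θ f (c.p a k) = ω := by
  rw [orb, Finset.mem_image]
  constructor
  · rintro ⟨⟨f, a, k⟩, -, h⟩
    exact ⟨f, a, k, h⟩
  · rintro ⟨f, a, k, h⟩
    exact ⟨⟨f, a, k⟩, Finset.mem_univ _, h⟩

theorem θ_orb {ω : Ω} (h : F) : S.θ h ω ∈ S.orb c ↔ ω ∈ S.orb c := by
  rw [mem_orb, mem_orb]
  constructor
  · rintro ⟨f, a, k, h1⟩
    refine ⟨h⁻¹ * f, a, k, ?_⟩
    rw [map_mul, Perm.mul_apply, h1, map_inv, Perm.inv_eq_iff_eq]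
  · rintro ⟨f, a, k, h1⟩
    refine ⟨h * f, a, k, ?_⟩
    rw [map_mul, Perm.mul_apply, h1]

end

theorem p_ne {a a' : ι} {k k' : F × Fin 3} (h : k ≠ k') : c.p a k ≠ c.p a' k' := by
  intro h1
  have h2 : S.θ 1 (c.p a k) = c.p a' k' := by
    rw [map_one, Perm.one_apply]
    exact h1
  exact h (c.sep _ _ _ _ _ h2).2

/-- three points for every stabilizer -/
def j3 (f : F) : ι × Fin 3 ↪ Ω :=
  ⟨fun x => c.p x.1 (f, x.2), by
    rintro ⟨a, i⟩ ⟨a', i'⟩ h
    have h1 : S.θ 1 (c.p a (f, i)) = c.p a' (f, i') := by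
      rw [map_one, Perm.one_apply]
      exact h
    obtain ⟨h2, h3⟩ := c.sep _ _ _ _ _ h1
    have h4 : i = i' := congrArg Prod.snd h3
    rw [h2, h4]⟩

/-- product of 3-cycles -/
noncomputable def s3 (f : F) : Perm Ω :=
  viaEmbeddingHom (S.j3 c f) (Equiv.prodCongrRight fun _ : ι => finRotate 3)

theorem sign_s3 [Fintype ι] [DecidableEq ι] (f : F) : sign (S.s3 c f) = 1 := by
  rw [s3, sign_via, sign_rot]

section

variable [Fintype ι] [DecidableEq ι]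

theorem s3_apply (f : F) (a : ι) (i : Fin 3) :
    S.s3 c f (c.p a (f, i)) = c.p a (f, finRotate 3 i) :=
  via_apply (S.j3 c f) _ (a, i)

theorem s3_fix (f : F) {ω : Ω} (h : ∀ a i, c.p a (f, i) ≠ ω) : S.s3 c f ω = ω :=
  via_apply_of_notMem _ _ fun x => h x.1 x.2

theorem s3_fix_inv (f : F) {ω : Ω} (h : ∀ a i, c.p a (f, i) ≠ ω) : (S.s3 c f)⁻¹ ω = ω := by
  rw [Perm.inv_eq_iff_eq, S.s3_fix c f h]

/-- the quotient of two products of 3-cycles commutes with no element `≠ 1` of `F` -/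
theorem not_comm {f f' h : F} (hff : f ≠ f') (h1 : h ≠ 1) :
    (S.θ h)⁻¹ * (S.s3 c f * (S.s3 c f')⁻¹) * S.θ h ≠ S.s3 c f * (S.s3 c f')⁻¹ := by
  intro hcomm
  apply h1
  apply c.triv
  intro a
  have hcomm' : (S.s3 c f * (S.s3 c f')⁻¹) * S.θ h = S.θ h * (S.s3 c f * (S.s3 c f')⁻¹) := by
    calc (S.s3 c f * (S.s3 c f')⁻¹) * S.θ h
        = S.θ h * ((S.θ h)⁻¹ * (S.s3 c f * (S.s3 c f')⁻¹) * S.θ h) := by group
      _ = _ := by rw [hcomm]
  have hP : (S.s3 c f * (S.s3 c f')⁻¹) (c.p a (f, 0)) = c.p a (f, 1) := by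
    rw [Perm.mul_apply, S.s3_fix_inv c f' (fun a' i => S.p_ne c (fun h2 => hff
      (congrArg Prod.fst h2).symm)), S.s3_apply]
    rfl
  have hm : (S.s3 c f * (S.s3 c f')⁻¹) (S.θ h (c.p a (f, 0))) ≠ S.θ h (c.p a (f, 0)) := by
    rw [← Perm.mul_apply, hcomm', Perm.mul_apply, hP]
    intro h2
    have h4 : ((f, 1) : F × Fin 3) ≠ (f, 0) := by
      intro h3
      have h5 : (1 : Fin 3) = 0 := congrArg Prod.snd h3
      exact absurd h5 (by decide)
    exact S.p_ne c h4 ((S.θ h).injective h2)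
  have hmem : ∃ a' k, c.p a' k = S.θ h (c.p a (f, 0)) := by
    by_contra hcon
    push Not at hcon
    apply hm
    rw [Perm.mul_apply, S.s3_fix_inv c f' (fun a' i => hcon a' (f', i)),
      S.s3_fix c f (fun a' i => hcon a' (f, i))]
  obtain ⟨a', k, hk⟩ := hmem
  obtain ⟨h2, h3⟩ := c.sep _ _ _ _ _ hk.symm
  rw [← h2, ← h3] at hk
  exact (c.stab _ _ _).1 hk.symm

end

variable [Fintype F] [DecidableEq F] [Fintype ι] [DecidableEq ι]

theorem small_aux (hNR : ∀ ψ, ∃ h, h ≠ 1 ∧ S.b h ψ = ψ) (ψ : Ω') :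
    ∃ σ ∈ S.X ψ, σ ≠ 1 ∧ ∀ ω ∉ S.orb c, σ ω = ω := by
  choose g hg using fun f => S.exists_lift (S.sign_s3 c f)
  choose hh hh1 hhψ using fun f : F => hNR (S.a (g f) ψ)
  obtain ⟨f, f', hff, hhff⟩ : ∃ f f' : F, f ≠ f' ∧ hh f = hh f' := by
    by_contra hcon
    push Not at hcon
    have hinj : Function.Injective fun f => (⟨hh f, hh1 f⟩ : {h : F // h ≠ 1}) := by
      intro f f' h
      by_contra hne
      exact hcon f f' hne (congrArg Subtype.val h)
    have h1 := Fintype.card_le_of_injective _ hinj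
    have h2 : Fintype.card {h : F // h ≠ 1} < Fintype.card F :=
      Fintype.card_subtype_lt (x := 1) (by simp)
    omega
  set h := hh f with hhdef
  have h1 : h ≠ 1 := hh1 f
  have hf : S.b h (S.a (g f) ψ) = S.a (g f) ψ := hhψ f
  have hf' : S.b h (S.a (g f') ψ) = S.a (g f') ψ := by
    rw [hhff]
    exact hhψ f'
  have e1 : S.a (S.φ h⁻¹ (g f * (g f')⁻¹)) =
      (S.b h)⁻¹ * (S.a (g f) * (S.a (g f'))⁻¹) * S.b h := by
    rw [S.eqa, map_inv S.b, inv_inv, map_mul, map_inv]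
  have e2 : S.π (S.φ h⁻¹ (g f * (g f')⁻¹)) =
      (S.θ h)⁻¹ * (S.s3 c f * (S.s3 c f')⁻¹) * S.θ h := by
    rw [S.eqπ, map_inv S.θ, inv_inv, map_mul, map_inv, hg, hg]
  have hinv : ∀ (e : Perm Ω') (x : Ω'), e⁻¹ (e x) = x := by
    intro e x
    rw [Perm.inv_eq_iff_eq]
  refine ⟨_, ⟨(g f)⁻¹ * S.φ h⁻¹ (g f * (g f')⁻¹) * g f', ?_, rfl⟩, ?_, ?_⟩
  · change S.a ((g f)⁻¹ * S.φ h⁻¹ (g f * (g f')⁻¹) * g f') ψ = ψ
    rw [map_mul, map_mul, e1, map_inv]
    simp only [Perm.mul_apply]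
    rw [hf', hinv, Perm.inv_eq_iff_eq, Perm.inv_eq_iff_eq, hf]
  · rw [map_mul, map_mul, e2, map_inv, hg, hg]
    intro h2
    apply S.not_comm c hff h1
    rw [mul_assoc, inv_mul_eq_one] at h2
    exact eq_mul_inv_of_mul_eq h2.symm
  · intro ω hω
    rw [map_mul, map_mul, e2, map_inv, hg, hg]
    have hno : ∀ (f : F) {ω : Ω}, ω ∉ S.orb c → ∀ a i, c.p a (f, i) ≠ ω := by
      intro f ω hω a i h2
      apply hω
      rw [mem_orb]
      exact ⟨1, a, (f, i), by rw [map_one, Perm.one_apply, h2]⟩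
    have hθω : S.θ h ω ∉ S.orb c := by
      rw [θ_orb]
      exact hω
    simp only [Perm.mul_apply]
    rw [S.s3_fix c f' (hno f' hω), S.s3_fix_inv c f' (hno f' hθω), S.s3_fix c f (hno f hθω)]
    have h2 : (S.θ h)⁻¹ (S.θ h ω) = ω := by rw [Perm.inv_eq_iff_eq]
    rw [h2, S.s3_fix_inv c f (hno f hω)]

include c in
/-- every set of `n₀` points contains the support of an element of `X ψ` -/
theorem small (hNR : ∀ ψ, ∃ h, h ≠ 1 ∧ S.b h ψ = ψ) {n₀ : ℕ}
    (hn₀ : Fintype.card F * (Fintype.card ι * (Fintype.card F * 3)) ≤ n₀)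
    (hΩ : n₀ + 2 ≤ Fintype.card Ω) (ψ : Ω') (T : Finset Ω) (hT : n₀ ≤ T.card) :
    ∃ σ ∈ S.X ψ, σ ≠ 1 ∧ ∀ ω ∉ T, σ ω = ω := by
  have h1 := S.card_orb c
  obtain ⟨σ₀, h2, h3⟩ := exists_even_into (Δ := S.orb c) (T := T) (by omega) (by omega)
  obtain ⟨l, hl⟩ := S.exists_lift h2
  obtain ⟨σ, hσ, hσ1, hσs⟩ := S.small_aux c hNR (S.a l⁻¹ ψ)
  have h4 := (S.X_conj l).1 hσ
  rw [← Perm.mul_apply, ← map_mul, mul_inv_cancel, map_one, Perm.one_apply] at h4
  refine ⟨_, h4, ?_, ?_⟩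
  · intro h5
    apply hσ1
    rw [mul_inv_eq_one, mul_eq_left] at h5
    exact h5
  · intro ω hω
    rw [Perm.mul_apply, Perm.mul_apply, hσs, ← Perm.mul_apply, mul_inv_cancel, Perm.one_apply]
    intro h5
    apply hω
    have h6 := h3 _ h5
    rwa [← hl, ← Perm.mul_apply, mul_inv_cancel, Perm.one_apply] at h6

end Sys

end Pool.Agent.Lib.MP_b9166b_al.An
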