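import Pool.Agent.Lib.MP_b9166b_al.An.Pt
import Pool.Agent.Lib.MP_b9166b_al.An.Many
import Pool.Agent.Lib.MP_b9166b_al.An.Sets

/-!
# MP_b9166b_al, ALT-NIL: the action on the second set is of natural type
-/

set_option autoImplicit false

namespace Pool.Agent.Lib.MP_b9166b_al.An

open Equiv Equiv.Perm Rg

/-- a permutation which commutes with fixing `ω₁` fixes `ω₁` -/
theorem fix_of_norm {Ω : Type} [Fintype Ω] [DecidableEq Ω] (h4 : 4 ≤ Fintype.card Ω) {ω₁ : Ω}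
    {τ : Perm Ω} (h : ∀ σ : Perm Ω, sign σ = 1 → σ ω₁ = ω₁ → (τ * σ * τ⁻¹) ω₁ = ω₁) :
    τ ω₁ = ω₁ := by
  by_contra hcon
  have hne : τ⁻¹ ω₁ ≠ ω₁ := by
    intro h1
    rw [Perm.inv_eq_iff_eq] at h1
    exact hcon h1.symm
  have h1 : 1 < ({ω₁, τ⁻¹ ω₁}ᶜ : Finset Ω).card := by
    have h2 := Finset.card_le_two (a := ω₁) (b := τ⁻¹ ω₁)
    rw [Finset.card_compl]
    omega
  obtain ⟨a, ha, b, hb, hab⟩ := Finset.one_lt_card.1 h1
  rw [Finset.mem_compl, Finset.mem_insert, Finset.mem_singleton, not_or] at ha hb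
  have h3 := h (c3 (τ⁻¹ ω₁) a b) (sign_c3 (Ne.symm ha.2) hab)
    (c3_fix hne.symm (Ne.symm ha.1) (Ne.symm hb.1))
  rw [Perm.mul_apply, Perm.mul_apply, c3_left (Ne.symm ha.2) (Ne.symm hb.2),
    ← Perm.eq_inv_iff_eq] at h3
  exact ha.2 h3

namespace Sys

variable {L F Ω Ω' : Type} [Group L] [Group F] [Fintype Ω] [DecidableEq Ω] (S : Sys L F Ω Ω')

/-- the case of a point stabilizer -/
theorem point_case [Finite L] [Finite F] {b m : ℕ} (hb : 0 < b)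
    (c : Conf S.θ (Fin (b + 1)) (Fin m)) (hm : (Nat.card F + 2) * 9 + 2 ≤ m)
    (h6 : 6 ≤ Fintype.card Ω) (hNR : ∀ ψ, ∃ h, h ≠ 1 ∧ S.b h ψ = ψ) {ψ : Ω'} {ω : Ω}
    (hX : ∀ σ, σ ∈ S.X ψ ↔ sign σ = 1 ∧ σ ω = ω) {g₀ : L} (hg₀ : g₀ ∈ res (stb S.π ω)) :
    S.a g₀ ψ = ψ := by
  by_contra hmv
  have hm0 : 0 < m := by omega
  set ω₁ : Ω := c.p 0 ⟨0, hm0⟩ with hω₁
  obtain ⟨σ₀, hσ₀, hσ₀'⟩ := exists_even {ω} (fun _ => ω₁) (by simp) (by
    rw [Finset.card_singleton]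
    omega)
  have hσω : σ₀ ω = ω₁ := hσ₀' ω (Finset.mem_singleton_self ω)
  obtain ⟨l, hl⟩ := S.exists_lift hσ₀
  have hX₁ : ∀ σ, σ ∈ S.X (S.a l ψ) ↔ sign σ = 1 ∧ σ ω₁ = ω₁ := by
    intro σ
    have h1 := S.X_conj l (ψ := ψ) (σ := (S.π l)⁻¹ * σ * S.π l)
    have h2 : S.π l * ((S.π l)⁻¹ * σ * S.π l) * (S.π l)⁻¹ = σ := by group
    rw [h2] at h1
    rw [← h1, hX, Perm.sign_mul, Perm.sign_mul, Perm.sign_inv, S.sign_π, one_mul, mul_one,
      Perm.mul_apply, Perm.mul_apply, Perm.inv_eq_iff_eq, hl, hσω]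
  set ψ₁ := S.a l ψ with hψ₁
  have hg₁ : l * g₀ * l⁻¹ ∈ S.Kp₁ ω₁ := by
    refine res_conj (K := stb S.π ω) (K' := stb S.π ω₁) (g := l) ?_ g₀ hg₀
    intro k hk
    have hk' : S.π k ω = ω := hk
    change S.π (l * k * l⁻¹) ω₁ = ω₁
    have h1 : (S.π l)⁻¹ ω₁ = ω := by
      rw [Perm.inv_eq_iff_eq, hl, hσω]
    rw [map_mul, map_mul, map_inv, Perm.mul_apply, Perm.mul_apply, h1, hk', hl, hσω]
  have hmv₁ : S.a (l * g₀ * l⁻¹) ψ₁ ≠ ψ₁ := by
    rw [hψ₁, ← Perm.mul_apply, ← map_mul, inv_mul_cancel_right, map_mul, Perm.mul_apply]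
    intro h1
    exact hmv ((S.a l).injective h1)
  have hF₁ : c.A 0 ≤ stb S.θ ω₁ := fun f hf => (c.stab 0 _ f).2 hf
  let S₁ := S.pt h6 hF₁
  have hDle : stb S.a ψ₁ ≤ stb S.π ω₁ := by
    intro g hg
    exact ((hX₁ _).1 ⟨g, hg, rfl⟩).2
  have hDex : ∀ σ : Perm Ω, sign σ = 1 → σ ω₁ = ω₁ → ∃ g ∈ stb S.a ψ₁, S.π g = σ :=
    fun σ h1 h2 => (hX₁ σ).2 ⟨h1, h2⟩
  have hsep : ∀ {a₁ a₂ : Fin (b + 1)} {k₁ k₂ : Fin m}, c.p a₁ k₁ = c.p a₂ k₂ →
      a₁ = a₂ ∧ k₁ = k₂ := by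
    intro a₁ a₂ k₁ k₂ h
    apply c.sep _ _ _ _ 1
    rw [map_one, Perm.one_apply, h]
  let c₁ : Conf S₁.θ {a : Fin (b + 1) // a ≠ 0} (Fin m) := {
    A := fun a => (c.A a).subgroupOf (c.A 0)
    p := fun a i => ⟨c.p a i, fun h => a.2 (hsep h).1⟩
    stab := fun a i f => by
      rw [← Subtype.coe_inj]
      exact c.stab a i f
    sep := fun a i a' i' f h => by
      obtain ⟨h1, h2⟩ := c.sep a i a' i' f (congrArg Subtype.val h)
      exact ⟨Subtype.ext h1, h2⟩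
    triv := fun f hf => by
      apply Subtype.ext
      apply c.triv
      intro a
      by_cases ha : a = 0
      · rw [ha]
        exact f.2
      · exact hf ⟨a, ha⟩ }
  have hne : Nonempty {a : Fin (b + 1) // a ≠ 0} :=
    ⟨⟨Fin.succ ⟨0, hb⟩, Fin.succ_ne_zero _⟩⟩
  have hcard : Nat.card (c.A 0) ≤ Nat.card F := Subgroup.card_le_card_group _
  obtain ⟨n, hn1, hn2⟩ := S₁.gamma c₁ (by omega) (ψ := ψ₁) (by
      intro g
      obtain ⟨g', hg', hgg⟩ := S.exists_res ω₁ h6 hDle hDex (σ := S.π g) (S.sign_π _)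
        (S.Kp₁_le ω₁ g.2)
      refine ⟨⟨g', res_mono hDle hg'⟩, res_le _ hg', ?_⟩
      exact rst_eq S.π ω₁ hgg) ⟨⟨_, hg₁⟩, hmv₁⟩
  obtain ⟨h, hh1, hh2⟩ := hNR (S.a n ψ₁)
  have hπn : S.π n = 1 := by
    have h1 : rst S.π ω₁ (Subgroup.inclusion (S.Kp₁_le ω₁) n) = rst S.π ω₁ 1 := by
      rw [map_one]
      exact hn1
    have h2 := eq_of_rst S.π ω₁ h1
    rw [Subgroup.coe_one, map_one] at h2
    exact h2
  have hX₂ : ∀ σ, σ ∈ S.X (S.a n ψ₁) ↔ sign σ = 1 ∧ σ ω₁ = ω₁ := by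
    intro σ
    rw [← hX₁ σ, S.X_conj n (ψ := ψ₁) (σ := σ), hπn, one_mul, inv_one, mul_one]
  have hθ : S.θ h ω₁ = ω₁ := by
    apply fix_of_norm (by omega)
    intro σ h1 h2
    have h3 := (S.X_b h (ψ := S.a n ψ₁) (σ := σ)).1 ((hX₂ σ).2 ⟨h1, h2⟩)
    rw [hh2, hX₂] at h3
    exact h3.2
  have hhA : h ∈ c.A 0 := (c.stab 0 _ h).1 hθ
  have h1 := hn2 ⟨h, hhA⟩ hh2
  exact hh1 (congrArg Subtype.val h1)

/-- the bound for the small sets -/
def N0 (f b : ℕ) : ℕ := f * ((b + 1) * (f * 3))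

/-- the number of points needed -/
def Bd (f b M : ℕ) : ℕ :=
  N0 f b + N0 f b * N0 f b * (f * (2 * (M + 1))) + (f + 2) * 9 + M + f * 3 + 10

/-- **Natural type.** -/
theorem natural [Finite L] [Finite F] {b m μ : ℕ} (hb : 0 < b)
    (c : Conf S.θ (Fin (b + 1)) (Fin m))
    (hm : Bd (Nat.card F) b (Nat.card (Subgroup F) * μ + 1) ≤ m)
    (hNR : ∀ ψ, ∃ h, h ≠ 1 ∧ S.b h ψ = ψ)
    (hNM : ¬ ∃ A : Fin b → Subgroup F, (∀ a, Mult S.b (A a) μ) ∧ ∀ f, (∀ a, f ∈ A a) → f = 1)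
    (ψ : Ω') : (∀ g, S.a g ψ = ψ) ∨ ∃ ω, (∀ g ∈ res (stb S.π ω), S.a g ψ = ψ) ∧
      ∀ g, S.a g ψ = ψ → S.π g ω = ω := by
  classical
  have := Fintype.ofFinite F
  have hF : 0 < Nat.card F := Nat.card_pos
  set M := Nat.card (Subgroup F) * μ + 1 with hM
  unfold Bd at hm
  set n₀ := N0 (Nat.card F) b with hn₀
  have hn₀pos : 0 < n₀ := by
    rw [hn₀, N0]
    positivity
  have hΩ : m ≤ Fintype.card Ω := by
    have hinj : Function.Injective (c.p 0) := by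
      intro i j h
      have h1 : S.θ 1 (c.p 0 i) = c.p 0 j := by rw [map_one, Perm.one_apply, h]
      exact (c.sep _ _ _ _ _ h1).2
    have h1 := Fintype.card_le_of_injective _ hinj
    rwa [Fintype.card_fin] at h1
  have hneΩ : Nonempty Ω := by
    rw [← Fintype.card_pos_iff]
    omega
  -- small supports
  obtain ⟨e₁⟩ : Nonempty (F × Fin 3 ↪ Fin m) := by
    apply Function.Embedding.nonempty_of_card_le
    rw [Fintype.card_prod, Fintype.card_fin, Fintype.card_fin, ← Nat.card_eq_fintype_card]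
    omega
  have hsmall := S.small (c.comap (Equiv.refl _) e₁) hNR (n₀ := n₀) (by
    rw [hn₀, N0, ← Nat.card_eq_fintype_card, Fintype.card_fin]) (by omega) ψ
  obtain ⟨Γ, hΓ1, hΓ2, hΓ3⟩ := exists_class hsmall
  have hΓcard : Nat.card F * (2 * (M + 1)) ≤ Γ.card := by
    have h1 : n₀ * n₀ * (Nat.card F * (2 * (M + 1))) ≤ n₀ * n₀ * Γ.card := by
      refine le_trans ?_ hΓ2
      omega
    exact Nat.le_of_mul_le_mul_left h1 (Nat.mul_pos hn₀pos hn₀pos)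
  obtain ⟨e₂⟩ : Nonempty (Fin (M + 1) ↪ Fin m) := by
    apply Function.Embedding.nonempty_of_card_le
    rw [Fintype.card_fin, Fintype.card_fin]
    omega
  have hone : ∀ {w w' : Ω}, w ∉ Γ → w' ∉ Γ → w = w' := by
    intro w w' hw hw'
    exact S.compl_le_one hb (c.comap (Equiv.refl _) e₂) (by omega) (by omega) hNM ψ hΓ3 hΓcard
      hw hw'
  by_cases hall : ∀ ω, ω ∈ Γ
  · left
    by_contra hcon
    push Not at hcon
    obtain ⟨n, -, hn⟩ := S.gamma c (by omega) (ψ := ψ) (by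
      intro g
      exact mem_of_support hΓ1 (S.sign_π g) (fun ω hω => absurd (hall ω) hω)) hcon
    obtain ⟨h, hh1, hh2⟩ := hNR (S.a n ψ)
    exact hh1 (hn h hh2)
  · push Not at hall
    obtain ⟨ω, hω⟩ := hall
    have hΓω : ∀ α, α ≠ ω → α ∈ Γ := by
      intro α hα
      by_contra hcon
      exact hα (hone hcon hω)
    have hX : ∀ σ, σ ∈ S.X ψ ↔ sign σ = 1 ∧ σ ω = ω := by
      intro σ
      constructor
      · intro hσ
        refine ⟨S.sign_X hσ, ?_⟩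
        have h1 : 1 < ({ω, σ⁻¹ ω}ᶜ : Finset Ω).card := by
          have h2 := Finset.card_le_two (a := ω) (b := σ⁻¹ ω)
          rw [Finset.card_compl]
          omega
        obtain ⟨α, hα, -⟩ := Finset.one_lt_card.1 h1
        rw [Finset.mem_compl, Finset.mem_insert, Finset.mem_singleton, not_or] at hα
        have h2 : σ α ≠ ω := by
          intro h3
          apply hα.2
          rw [Perm.eq_inv_iff_eq]
          exact h3
        have h3 := hΓ3 σ (fun τ => by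
          constructor
          · intro hτ
            exact (S.X ψ).mul_mem ((S.X ψ).mul_mem hσ hτ) ((S.X ψ).inv_mem hσ)
          · intro hτ
            have h4 := (S.X ψ).mul_mem ((S.X ψ).mul_mem ((S.X ψ).inv_mem hσ) hτ) hσ
            have h5 : σ⁻¹ * (σ * τ * σ⁻¹) * σ = τ := by group
            rwa [h5] at h4) α (hΓω α hα.1) (hΓω _ h2) ω
        by_contra h4
        exact hω (h3.2 (hΓω _ h4))
      · rintro ⟨h1, h2⟩
        apply mem_of_support hΓ1 h1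
        intro α hα
        by_cases h3 : α = ω
        · rw [h3, h2]
        · exact absurd (hΓω α h3) hα
    right
    refine ⟨ω, fun g hg => S.point_case hb c (by omega) (by omega) hNR hX hg, fun g hg => ?_⟩
    exact ((hX _).1 ⟨g, hg, rfl⟩).2

end Sys

end Pool.Agent.Lib.MP_b9166b_al.An
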