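import Pool.Agent.Lib.MP_b9166b_al.An.Lvl

/-!
# MP_b9166b_al, ALT-NIL: periods and fibres
-/

set_option autoImplicit false

namespace Pool.Agent.Lib.MP_b9166b_al.An

open Equiv Equiv.Perm

variable {U Ω Ω' : Type} [Group U] {π : U →* Perm Ω} {π' : U →* Perm Ω'}

/-- the point `ω` has period `l`, and `x ^ l` fixes all points over `ω` -/
def Gd (π : U →* Perm Ω) (π' : U →* Perm Ω') (x : U) (l : ℕ) (ω : Ω) : Prop :=
  Function.minimalPeriod (π x) ω = l ∧ ∀ ψ, Ov π π' ψ ω → π' (x ^ l) ψ = ψ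

theorem iterate_apply (x : U) (k : ℕ) (ω : Ω) : (π x)^[k] ω = π (x ^ k) ω := by
  rw [map_pow, Equiv.Perm.iterate_eq_pow]

theorem pow_period (x : U) (ω : Ω) : π (x ^ Function.minimalPeriod (π x) ω) ω = ω := by
  rw [← iterate_apply]
  exact Function.isPeriodicPt_minimalPeriod (π x) ω

variable [Fintype Ω] [DecidableEq Ω] [Finite U]

theorem Ov.dvd (hr : π.range = alternatingGroup Ω) (h6 : 6 ≤ Fintype.card Ω) {ψ : Ω'} {ω : Ω}
    (h : Ov π π' ψ ω) (x : U) :
    Function.minimalPeriod (π x) ω ∣ Function.minimalPeriod (π' x) ψ := by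
  apply Function.IsPeriodicPt.minimalPeriod_dvd
  change (π x)^[_] ω = ω
  have h1 := h.map (x ^ Function.minimalPeriod (π' x) ψ)
  rw [pow_period] at h1
  rw [iterate_apply]
  exact (h.unique hr h6 h1).symm

theorem period_pos [Finite Ω'] (x : U) (ψ : Ω') : 0 < Function.minimalPeriod (π' x) ψ := by
  apply Function.IsPeriodicPt.minimalPeriod_pos (n := orderOf x) (orderOf_pos x)
  change (π' x)^[_] ψ = ψ
  rw [iterate_apply, pow_orderOf_eq_one, map_one, Perm.one_apply]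

/-- a point over `ω` which is not fixed by `x ^ l` has larger period -/
theorem Ov.period_lt [Finite Ω'] (hr : π.range = alternatingGroup Ω) (h6 : 6 ≤ Fintype.card Ω)
    {ψ : Ω'} {ω : Ω} (h : Ov π π' ψ ω) {x : U} {l : ℕ}
    (hl : Function.minimalPeriod (π x) ω = l) (hψ : π' (x ^ l) ψ ≠ ψ) :
    l < Function.minimalPeriod (π' x) ψ := by
  have h1 := h.dvd hr h6 x
  rw [hl] at h1
  refine lt_of_le_of_ne (Nat.le_of_dvd (period_pos x ψ) h1) fun h2 => hψ ?_
  rw [h2]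
  exact pow_period x ψ

/-- the number of bad points -/
theorem card_bad [Fintype Ω'] (hr : π.range = alternatingGroup Ω) (h6 : 6 ≤ Fintype.card Ω)
    {x : U} {l B : ℕ}
    (hB : Nat.card {ψ : Ω' // l < Function.minimalPeriod (π' x) ψ} ≤ B) :
    Nat.card {ω : Ω // Function.minimalPeriod (π x) ω = l ∧ ¬ Gd π π' x l ω} ≤ B := by
  refine le_trans ?_ hB
  have h1 : ∀ ω : {ω : Ω // Function.minimalPeriod (π x) ω = l ∧ ¬ Gd π π' x l ω},
      ∃ ψ, Ov π π' ψ ω ∧ π' (x ^ l) ψ ≠ ψ := by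
    rintro ⟨ω, h2, h3⟩
    by_contra hcon
    push Not at hcon
    exact h3 ⟨h2, hcon⟩
  choose ψ hψ1 hψ2 using h1
  apply Nat.card_le_card_of_injective (fun ω => (⟨ψ ω, (hψ1 ω).period_lt hr h6 ω.2.1 (hψ2 ω)⟩ :
    {ψ : Ω' // l < Function.minimalPeriod (π' x) ψ}))
  intro ω ω' h
  have h2 : ψ ω = ψ ω' := congrArg Subtype.val h
  have h3 := hψ1 ω'
  rw [← h2] at h3
  exact Subtype.ext ((hψ1 ω).unique hr h6 h3)

omit [Finite U] in
theorem exists_move (hr : π.range = alternatingGroup Ω) (h6 : 6 ≤ Fintype.card Ω) (ω ω' : Ω) :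
    ∃ u : U, π u ω = ω' := by
  obtain ⟨σ, h1, h2⟩ := exists_even {ω} (fun _ => ω') (by simp) (by
    rw [Finset.card_singleton]
    omega)
  have h3 : σ ∈ π.range := by
    rw [hr]
    exact mem_alternatingGroup.2 h1
  obtain ⟨u, hu⟩ := h3
  exact ⟨u, by rw [hu]; exact h2 ω (Finset.mem_singleton_self ω)⟩

/-- the fibres are large if an element of `Vr π Δ` has large support -/
theorem card_fib [Fintype Ω'] [DecidableEq Ω'] (hN : Nat2 π π')
    (hr : π.range = alternatingGroup Ω)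
    (h6 : 6 ≤ Fintype.card Ω) {Δ : Finset Ω} {v : U} (hv : v ∈ Vr π (Δ : Set Ω)) (ω₀ : Ω) :
    (π' v).support.card ≤ Δ.card * Nat.card {ψ : Ω' // Ov π π' ψ ω₀} := by
  classical
  have h1 : (π' v).support ⊆ Δ.biUnion fun ω => Finset.univ.filter fun ψ => Ov π π' ψ ω := by
    intro ψ hψ
    rw [mem_support] at hψ
    obtain ⟨ω, hω, h2⟩ := hN.moved hv hψ
    rw [Finset.mem_biUnion]
    exact ⟨ω, by simpa using hω, by simp [h2]⟩
  refine (Finset.card_le_card h1).trans ?_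
  refine Finset.card_biUnion_le_card_mul _ _ _ fun ω _ => ?_
  obtain ⟨u, hu⟩ := exists_move hr h6 ω ω₀
  rw [Nat.card_eq_fintype_card, Fintype.card_subtype]
  apply Finset.card_le_card_of_injOn (fun ψ => π' u ψ)
  · intro ψ hψ
    rw [Finset.mem_coe, Finset.mem_filter] at hψ ⊢
    refine ⟨Finset.mem_univ _, ?_⟩
    rw [← hu]
    exact hψ.2.map u
  · intro ψ _ ψ' _ h
    exact (π' u).injective h

end Pool.Agent.Lib.MP_b9166b_al.An
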