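import Mathlib

/-!
# MP_b9166b_al, ALT-NIL: the perfect residual of a subgroup

`res K` is the largest perfect subgroup of the subgroup `K`.
-/

set_option autoImplicit false

namespace Pool.Agent.Lib.MP_b9166b_al.An

variable {U V : Type} [Group U] [Group V]

/-- the largest perfect subgroup of `K` -/
def res (K : Subgroup U) : Subgroup U := sSup {P | P ≤ K ∧ ⁅P, P⁆ = P}

theorem res_le (K : Subgroup U) : res K ≤ K := sSup_le fun _ h => h.1

theorem le_res {K P : Subgroup U} (h : P ≤ K) (hP : ⁅P, P⁆ = P) : P ≤ res K := le_sSup ⟨h, hP⟩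

theorem res_perfect (K : Subgroup U) : ⁅res K, res K⁆ = res K := by
  apply le_antisymm
  · exact Subgroup.commutator_le_self _
  · apply sSup_le
    rintro P ⟨h1, h2⟩
    rw [← h2]
    exact Subgroup.commutator_mono (le_res h1 h2) (le_res h1 h2)

theorem res_mono {K K' : Subgroup U} (h : K ≤ K') : res K ≤ res K' :=
  le_res ((res_le K).trans h) (res_perfect K)

/-- the residual and homomorphisms which map `K` into `K'` -/
theorem map_res_le (f : U →* V) {K : Subgroup U} {K' : Subgroup V} (h : K.map f ≤ K') :
    (res K).map f ≤ res K' := by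
  refine le_res ((Subgroup.map_mono (res_le K)).trans h) ?_
  rw [← Subgroup.map_commutator, res_perfect]

theorem res_conj {K K' : Subgroup U} {g : U} (h : ∀ k ∈ K, g * k * g⁻¹ ∈ K') :
    ∀ k ∈ res K, g * k * g⁻¹ ∈ res K' := by
  intro k hk
  refine map_res_le (K := K) (MulAut.conj g).toMonoidHom ?_ ⟨k, hk, rfl⟩
  rintro _ ⟨k, hk, rfl⟩
  exact h k hk

/-- the image of the residual is the image of `K` if this is perfect -/
theorem map_res [Finite U] (f : U →* V) {K : Subgroup U} {Q : Subgroup V} (h : K.map f = Q)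
    (hQ : ⁅Q, Q⁆ = Q) : (res K).map f = Q := by
  obtain ⟨P, ⟨hPK, hPQ⟩, hmin⟩ :=
    (Set.toFinite {P : Subgroup U | P ≤ K ∧ P.map f = Q}).exists_minimal ⟨K, le_rfl, h⟩
  have h1 : ⁅P, P⁆ = P := by
    apply le_antisymm (Subgroup.commutator_le_self _)
    apply hmin ⟨(Subgroup.commutator_le_self _).trans hPK, ?_⟩ (Subgroup.commutator_le_self _)
    rw [Subgroup.map_commutator, hPQ, hQ]
  apply le_antisymm
  · rw [← h]
    exact Subgroup.map_mono (res_le K)
  · rw [← hPQ]
    exact Subgroup.map_mono (le_res hPK h1)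

theorem exists_mem_res [Finite U] (f : U →* V) {K : Subgroup U} {Q : Subgroup V} (h : K.map f = Q)
    (hQ : ⁅Q, Q⁆ = Q) {q : V} (hq : q ∈ Q) : ∃ g ∈ res K, f g = q := by
  rw [← map_res f h hQ] at hq
  exact hq

/-- the residual of the image under an injective homomorphism -/
theorem res_map (f : U →* V) (hf : Function.Injective f) (K : Subgroup U) :
    res (K.map f) = (res K).map f := by
  apply le_antisymm
  · have h1 : res (K.map f) ≤ f.range := (res_le _).trans (Subgroup.map_le_range f K)
    have h2 : ((res (K.map f)).comap f).map f = res (K.map f) := by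
      rw [Subgroup.map_comap_eq, inf_eq_right]
      exact h1
    rw [← h2]
    apply Subgroup.map_mono
    apply le_res
    · intro g hg
      obtain ⟨k, hk, hkg⟩ := res_le _ hg
      rwa [← hf hkg]
    · apply Subgroup.map_injective hf
      rw [Subgroup.map_commutator, h2, res_perfect]
  · exact map_res_le f le_rfl

end Pool.Agent.Lib.MP_b9166b_al.An
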