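import Pool.Agent.Lib.MP_b9166b_al.An.Main

/-!
# MP_b9166b_al, ALT-NIL: the class of groups, and the theorem
-/

set_option autoImplicit false

namespace Pool.Agent.Lib.MP_b9166b_al.An

open Equiv Equiv.Perm

/-- Every finite set `S` of elements of `G` lies in a finite subgroup `H` which has a homomorphism
`π` onto an alternating group, with nilpotent kernel, such that `π` maps no element `≠ 1` of `S`
to `1`. -/
def AltNil (G : Type) [Group G] : Prop :=
  ∀ S : Finset G, ∃ (H : Subgroup G) (n : ℕ) (π : H →* Perm (Fin n)),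
    Finite H ∧ π.range = alternatingGroup (Fin n) ∧ Group.IsNilpotent π.ker ∧
      ∀ s ∈ S, ∃ hs : s ∈ H, s ≠ 1 → π ⟨s, hs⟩ ≠ 1

/-- **Main theorem**: a simple group in the class `AltNil` with an element whose centralizer is
finitary linear is a group of finitary permutations. -/
theorem AltNil.finPerm {G : Type} [Group G] (hs : IsSimpleGroup G) (hG : AltNil G) (x : G)
    (hx : FinLin (Subgroup.centralizer ({x} : Set G))) : FinPerm G := by
  by_contra h
  refine no_centralizer hs (fun S => ?_) h x hx
  obtain ⟨H, n, π, h1, h2, h3, h4⟩ := hG S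
  exact ⟨⟨H, h1, n, π, h2, h3⟩, h4⟩

end Pool.Agent.Lib.MP_b9166b_al.An
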