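import Pool.Agent.Lib.MP_b9166b_al.An.Core
import Pool.Agent.Lib.MP_b9166b_al.Rg.BlkAlt

/-!
# MP_b9166b_al, ALT-NIL: the number of independent sets is bounded
-/

set_option autoImplicit false

namespace Pool.Agent.Lib.MP_b9166b_al.An

open Equiv Equiv.Perm Rg

theorem exists_perm5 : (∃ σ : Perm (Fin 5), sign σ = 1 ∧ σ ^ 2 = 1 ∧ σ ≠ 1) ∧
    ∃ σ : Perm (Fin 5), sign σ = 1 ∧ σ ^ 3 = 1 ∧ σ ≠ 1 := by
  refine ⟨⟨swap 0 1 * swap 2 3, ?_, ?_, ?_⟩, ⟨swap 0 1 * swap 1 2, ?_, ?_, ?_⟩⟩ <;> decide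

variable {U Ω Ω' : Type} [Group U] [Finite U] [Fintype Ω] [DecidableEq Ω]
  {π : U →* Perm Ω} {π' : U →* Perm Ω'}

/-- an element of order `r` -/
theorem exists_order (hr : π.range = alternatingGroup Ω) {Δ : Finset Ω} (hΔ : 5 ≤ Δ.card) {r : ℕ}
    (hrp : r.Prime) (h23 : r = 2 ∨ r = 3) : ∃ u ∈ Vr π (Δ : Set Ω), u ^ r = 1 ∧ u ≠ 1 := by
  obtain ⟨e⟩ : Nonempty (Fin 5 ↪ {x // x ∈ Δ}) := by
    apply Function.Embedding.nonempty_of_card_le
    rwa [Fintype.card_fin, Fintype.card_coe]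
  let j : Fin 5 ↪ Ω := e.trans (Function.Embedding.subtype _)
  obtain ⟨σ₀, h1, h2, h3⟩ : ∃ σ : Perm (Fin 5), sign σ = 1 ∧ σ ^ r = 1 ∧ σ ≠ 1 := by
    rcases h23 with rfl | rfl
    · exact exists_perm5.1
    · exact exists_perm5.2
  obtain ⟨v, hv, hvσ⟩ := exists_Vr hr hΔ (σ := viaEmbeddingHom j σ₀) (by rw [sign_via, h1]) (by
    intro ω hω
    apply via_apply_of_notMem
    intro x hx
    apply hω
    rw [← hx]
    exact (e x).2)
  have hσ : orderOf (viaEmbeddingHom j σ₀) = r := by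
    have : Fact r.Prime := ⟨hrp⟩
    apply orderOf_eq_prime
    · rw [← map_pow, h2, map_one]
    · intro h
      apply h3
      apply viaEmbeddingHom_injective j
      rw [h, map_one]
  have hdvd : r ∣ orderOf v := by
    rw [← hσ, ← hvσ]
    exact orderOf_map_dvd π v
  have hpos : 0 < orderOf v := orderOf_pos v
  have hord : orderOf (v ^ (orderOf v / r)) = r := orderOf_pow_orderOf_div hpos.ne' hdvd
  refine ⟨v ^ (orderOf v / r), Subgroup.pow_mem _ hv _, ?_, ?_⟩
  · nth_rewrite 2 [← hord]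
    exact pow_orderOf_eq_one _
  · intro h
    rw [h, orderOf_one] at hord
    exact hrp.one_lt.ne hord

variable {G K V : Type} [Group G] [Field K] [AddCommGroup V] [Module K V]

/-- the number of independent sets is bounded by the degree of `g` -/
theorem le_of_sets {j : U →* G} (hj : Function.Injective j) (hN : Nat2 π π')
    (hr : π.range = alternatingGroup Ω) (h6 : 6 ≤ Fintype.card Ω)
    (hπ' : Function.Injective π') {x g : U}
    {x' : G} (hx' : j x = x') {g' : Subgroup.centralizer ({x'} : Set G)} (hg' : j g = g')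
    (ρ : Subgroup.centralizer ({x'} : Set G) →* (V →ₗ[K] V)ˣ) (hρ : Function.Injective ρ)
    {d : ℕ} (hd : Deg (ρ g').val d) {l : ℕ} (hl : 0 < l) {k : ℕ} (Δ : Fin k → Finset Ω)
    (hΔ : ∀ i, 5 ≤ (Δ i).card)
    (hD1 : ∀ a < l, ∀ b < l, ∀ i j, ∀ ω ∈ Δ i, ∀ ω' ∈ Δ j,
      π (x ^ a) ω = π (x ^ b) ω' → a = b ∧ i = j)
    (hD2 : ∀ a < l, ∀ b < l, ∀ i j, ∀ ω ∈ Δ i, ∀ ω' ∈ Δ j, π (g * x ^ a) ω ≠ π (x ^ b) ω')
    (hD3 : ∀ i, ∀ v ∈ Vr π (Δ i : Set Ω), Commute (x ^ l) v) : k ≤ 2 * d := by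
  classical
  obtain ⟨r, hrp, h23, hrK⟩ : ∃ r : ℕ, r.Prime ∧ (r = 2 ∨ r = 3) ∧ (r : K) ≠ 0 := by
    by_cases h : ((2 : ℕ) : K) = 0
    · refine ⟨3, Nat.prime_three, Or.inr rfl, fun h' => ?_⟩
      have h1 : (1 : K) = ((3 : ℕ) : K) - ((2 : ℕ) : K) := by
        push_cast
        ring
      rw [h, h', sub_zero] at h1
      exact one_ne_zero h1
    · exact ⟨2, Nat.prime_two, Or.inl rfl, h⟩
  choose u hu hur hu1 using fun i => exists_order hr (hΔ i) hrp h23
  have hy : ∀ i a, x ^ a * u i * (x ^ a)⁻¹ ∈ Vr π (π (x ^ a) '' (Δ i : Set Ω)) := fun i a =>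
    Vr_conj π (x ^ a) _ (hu i)
  -- the conjugates commute
  have hyc : ∀ i j, ∀ a < l, ∀ b < l,
      Commute (x ^ a * u i * (x ^ a)⁻¹) (x ^ b * u j * (x ^ b)⁻¹) := by
    intro i j a ha b hb
    by_cases h : a = b ∧ i = j
    · rw [h.1, h.2]
    · refine hN.commute hr h6 hπ' ?_ (hy i a) (hy j b)
      rintro _ ⟨ω, hω, rfl⟩ ⟨ω', hω', h1⟩
      exact h (hD1 a ha b hb i j ω (by simpa using hω) ω' (by simpa using hω') h1.symm)
  have hyg : ∀ i j, ∀ a < l, ∀ b < l,
      Commute (g * (x ^ a * u i * (x ^ a)⁻¹) * g⁻¹) (x ^ b * u j * (x ^ b)⁻¹) := by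
    intro i j a ha b hb
    refine hN.commute hr h6 hπ' ?_ (Vr_conj π g _ (hy i a)) (hy j b)
    rintro _ ⟨_, ⟨ω, hω, rfl⟩, rfl⟩ ⟨ω', hω', h1⟩
    apply hD2 a ha b hb i j ω (by simpa using hω) ω' (by simpa using hω')
    rw [map_mul, Perm.mul_apply, h1]
  let w : Fin k → U := fun i => nm x (u i) l
  have hwc : ∀ i j, Commute (w i) (w j) := by
    intro i j
    apply nm_commute
    intro b hb
    apply Commute.symm
    apply nm_commute
    intro a ha
    exact hyc j i b hb a ha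
  have hwr : ∀ i, w i ^ r = 1 := fun i => nm_pow (hur i) fun a ha b hb => hyc i i a ha b hb
  have hwx : ∀ i, Commute (w i) x := by
    intro i
    apply nm_comm_x (hD3 i _ (hu i))
    intro a ha
    have h1 := hyc i i 0 hl a ha
    rwa [pow_zero, one_mul, inv_one, mul_one] at h1
  have hwg : ∀ i j, Commute (g * w i * g⁻¹) (w j) := by
    intro i j
    apply nm_commute
    intro b hb
    have h1 : Commute (g⁻¹ * (x ^ b * u j * (x ^ b)⁻¹) * g) (w i) := by
      apply nm_commute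
      intro a ha
      have h2 := hyg i j a ha b hb
      rw [← Commute.conj_iff g⁻¹] at h2
      have h3 : g⁻¹ * (g * (x ^ a * u i * (x ^ a)⁻¹) * g⁻¹) * g⁻¹⁻¹ =
          x ^ a * u i * (x ^ a)⁻¹ := by group
      rw [h3, inv_inv] at h2
      exact h2.symm
    rw [← Commute.conj_iff g] at h1
    have h3 : g * (g⁻¹ * (x ^ b * u j * (x ^ b)⁻¹) * g) * g⁻¹ = x ^ b * u j * (x ^ b)⁻¹ := by
      group
    rw [h3] at h1
    exact h1.symm
  -- the fixed points
  have hfix : ∀ i (ψ : Ω'), (∀ a < l, ∀ ω ∈ Δ i, ¬ Ov π π' ψ (π (x ^ a) ω)) → π' (w i) ψ = ψ := by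
    intro i ψ hψ
    have h1 : w i ∈ stb π' ψ := by
      apply nm_mem
      intro a ha
      rw [mem_stb]
      by_contra hcon
      obtain ⟨_, ⟨ω, hω, rfl⟩, h2⟩ := hN.moved (hy i a) hcon
      exact hψ a ha ω (by simpa using hω) h2
    exact h1
  have hact : ∀ i (ψ : Ω'), (∃ ω ∈ Δ i, Ov π π' ψ ω) → π' (w i) ψ = π' (u i) ψ := by
    rintro i ψ ⟨ω, hω, hψ⟩
    have h1 : ∀ n, n < l → π' (nm x (u i) (n + 1)) ψ = π' (u i) ψ := by
      intro n
      induction n with
      | zero =>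
        intro _
        rw [nm, nm, pow_zero, one_mul, one_mul, inv_one, mul_one]
      | succ n ih =>
        intro hn
        have h2 : π' (x ^ (n + 1) * u i * (x ^ (n + 1))⁻¹) ψ = ψ := by
          by_contra hcon
          obtain ⟨_, ⟨ω', hω', rfl⟩, h3⟩ := hN.moved (hy i (n + 1)) hcon
          have h4 := hψ.unique hr h6 h3
          have h5 := hD1 0 hl (n + 1) hn i i ω hω ω' (by simpa using hω') (by
            rw [pow_zero, map_one, Perm.one_apply]
            exact h4)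
          omega
        rw [nm, map_mul, Perm.mul_apply, h2, ih (by omega)]
    have h2 := h1 (l - 1) (by omega)
    rwa [Nat.sub_add_cancel hl] at h2
  have hind : ∀ i₀, w i₀ ∉ Subgroup.closure (w '' {i | i ≠ i₀}) := by
    intro i₀ hmem
    -- a point moved by `u i₀`
    have h1 : ∃ ψ, π' (u i₀) ψ ≠ ψ := by
      by_contra hcon
      push Not at hcon
      apply hu1 i₀
      apply hπ'
      rw [map_one]
      exact Equiv.ext hcon
    obtain ⟨ψ, hψ⟩ := h1
    obtain ⟨ω, hω, h2⟩ := hN.moved (hu i₀) hψ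
    have hω' : ω ∈ Δ i₀ := by simpa using hω
    apply hψ
    rw [← hact i₀ ψ ⟨ω, hω', h2⟩]
    have h3 : Subgroup.closure (w '' {i | i ≠ i₀}) ≤ stb π' ψ := by
      rw [Subgroup.closure_le]
      rintro _ ⟨i, hi, rfl⟩
      apply hfix
      intro a ha ω₁ hω₁ h4
      have h5 := h2.unique hr h6 h4
      have h6 := hD1 0 hl a ha i₀ i ω hω' ω₁ hω₁ (by
        rw [pow_zero, map_one, Perm.one_apply]
        exact h5)
      exact hi h6.2.symm
    exact h3 hmem
  have hcard := card_closure_ge hrp hwc hwr hind Finset.univ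
  rw [Finset.card_univ, Fintype.card_fin] at hcard
  set W : Subgroup U := Subgroup.closure (w '' ((Finset.univ : Finset (Fin k)) : Set (Fin k)))
    with hW
  have hle : ∀ S : Subgroup U, (∀ i, w i ∈ S) → W ≤ S := by
    intro S hS
    rw [hW, Subgroup.closure_le]
    rintro _ ⟨i, -, rfl⟩
    exact hS i
  have hWx : ∀ a ∈ W, Commute a x := by
    intro a ha
    have h1 : W ≤ Subgroup.centralizer ({x} : Set U) := by
      apply hle
      intro i
      rw [Subgroup.mem_centralizer_singleton_iff]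
      exact (hwx i).eq
    exact (Subgroup.mem_centralizer_singleton_iff.1 (h1 ha))
  have hWw : ∀ i, ∀ a ∈ W, Commute a (w i) := by
    intro i a ha
    have h1 : W ≤ Subgroup.centralizer ({w i} : Set U) := by
      apply hle
      intro i'
      rw [Subgroup.mem_centralizer_singleton_iff]
      exact (hwc i' i).eq
    exact (Subgroup.mem_centralizer_singleton_iff.1 (h1 ha))
  have hWc : ∀ a ∈ W, ∀ b ∈ W, a * b = b * a := by
    intro a ha b hb
    have h1 : W ≤ Subgroup.centralizer ({a} : Set U) := by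
      apply hle
      intro i
      rw [Subgroup.mem_centralizer_singleton_iff]
      exact (hWw i a ha).symm.eq
    exact ((Subgroup.mem_centralizer_singleton_iff.1 (h1 hb))).symm
  have hWr : ∀ a ∈ W, a ^ r = 1 := by
    intro a ha
    have h0 : ∀ b ∈ W, b ∈ W ∧ b ^ r = 1 := by
      intro b hb
      rw [hW] at hb
      induction hb using Subgroup.closure_induction with
      | mem z hz =>
        obtain ⟨i, -, rfl⟩ := hz
        exact ⟨Subgroup.subset_closure ⟨i, by simp, rfl⟩, hwr i⟩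
      | one => exact ⟨W.one_mem, one_pow r⟩
      | mul b c _ _ ihb ihc =>
        refine ⟨W.mul_mem ihb.1 ihc.1, ?_⟩
        have h1 : Commute b c := hWc b ihb.1 c ihc.1
        rw [h1.mul_pow, ihb.2, ihc.2, one_mul]
      | inv b _ ihb => exact ⟨W.inv_mem ihb.1, by rw [inv_pow, ihb.2, inv_one]⟩
    exact (h0 a ha).2
  have hWgw : ∀ i, ∀ a ∈ W, Commute (g * a * g⁻¹) (w i) := by
    intro i a ha
    have h1 : W ≤ Subgroup.centralizer ({g⁻¹ * w i * g} : Set U) := by
      apply hle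
      intro i'
      rw [Subgroup.mem_centralizer_singleton_iff]
      have h2 := hwg i' i
      rw [← Commute.conj_iff g⁻¹] at h2
      have h3 : g⁻¹ * (g * w i' * g⁻¹) * g⁻¹⁻¹ = w i' := by group
      rw [h3, inv_inv] at h2
      exact h2.eq
    have h2 : Commute a (g⁻¹ * w i * g) := (Subgroup.mem_centralizer_singleton_iff.1 (h1 ha))
    rw [← Commute.conj_iff g] at h2
    have h3 : g * (g⁻¹ * w i * g) * g⁻¹ = w i := by group
    rwa [h3] at h2
  have hWg : ∀ a ∈ W, ∀ b ∈ W, Commute (g * a * g⁻¹) b := by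
    intro a ha b hb
    have h1 : W ≤ Subgroup.centralizer ({g * a * g⁻¹} : Set U) := by
      apply hle
      intro i
      rw [Subgroup.mem_centralizer_singleton_iff]
      exact (hWgw i a ha).symm.eq
    exact Commute.symm (Subgroup.mem_centralizer_singleton_iff.1 (h1 hb))
  have hWfix : ∀ a ∈ W, ∀ ψ, π' a ψ ≠ ψ → ∃ i, ∃ n < l, ∃ ω ∈ Δ i, Ov π π' ψ (π (x ^ n) ω) := by
    intro a ha ψ hψ
    by_contra hcon
    push Not at hcon
    apply hψ
    have h1 : W ≤ stb π' ψ := by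
      apply hle
      intro i
      exact hfix i ψ (hcon i)
    exact h1 ha
  have hWi : ∀ a ∈ W, g * a * g⁻¹ = a → a = 1 := by
    intro a ha hag
    by_contra hne
    have h1 : ∃ ψ, π' a ψ ≠ ψ := by
      by_contra hcon
      push Not at hcon
      apply hne
      apply hπ'
      rw [map_one]
      exact Equiv.ext hcon
    obtain ⟨ψ, hψ⟩ := h1
    obtain ⟨i, n, hn, ω, hω, h2⟩ := hWfix a ha ψ hψ
    have h3 : π' a ((π' g)⁻¹ ψ) ≠ (π' g)⁻¹ ψ := by
      intro h4
      apply hψ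
      rw [← hag, map_mul, map_mul, map_inv, Perm.mul_apply, Perm.mul_apply, h4, apply_inv_eq']
    obtain ⟨i', n', hn', ω', hω', h4⟩ := hWfix a ha _ h3
    have h5 := h4.map g
    rw [apply_inv_eq'] at h5
    have h7 := h2.unique hr h6 h5
    apply hD2 n' hn' n hn i' i ω' hω' ω hω
    rw [map_mul, Perm.mul_apply, h7]
  have h1 := core hj hx' hg' ρ hρ hd hrp hrK W hWx hWc hWr hWg hWi
  exact (Nat.pow_le_pow_iff_right hrp.one_lt).1 (hcard.trans h1)

end Pool.Agent.Lib.MP_b9166b_al.An
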